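import Pool.Agent.H6.ST.DE.Defs

/-! # The sharp trichotomy (ST), row ST-DE1: cut-off near the planes -/

set_option autoImplicit false

namespace Pool.Agent.H6.ST

open MeasureTheory Set Pool.Agent.H68.VD Pool.Agent.H68.GM
open scoped ENNReal ContDiff

noncomputable section

/-! ### Functions whose derivatives are bounded by powers of `1 / e` -/

/-- The derivatives up to order two are bounded by `C / e ^ i`. -/
structure CutS {E : Type*} [NormedAddCommGroup E] [NormedSpace ℝ E] (φ : E → ℝ) (C e : ℝ) :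
    Prop where
  sm : ContDiff ℝ ∞ φ
  bd : ∀ i ≤ 2, ∀ x, ‖iteratedFDeriv ℝ i φ x‖ ≤ C * e⁻¹ ^ i

namespace CutS

variable {E : Type*} [NormedAddCommGroup E] [NormedSpace ℝ E] {φ ψ : E → ℝ} {A B e : ℝ}

theorem nn (h : CutS φ A e) : 0 ≤ A := by
  have h1 := h.bd 0 (by norm_num) 0
  rw [pow_zero, mul_one] at h1
  exact (norm_nonneg _).trans h1

theorem sc (h : CutS φ A 1) (he : 0 < e) (he1 : e ≤ 1) : CutS φ A e := by
  refine ⟨h.sm, fun i hi x => (h.bd i hi x).trans ?_⟩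
  rw [inv_one, one_pow, mul_one]
  have h1 : 1 ≤ e⁻¹ ^ i := one_le_pow₀ ((one_le_inv₀ he).mpr he1)
  have h2 := mul_le_mul_of_nonneg_left h1 h.nn
  rwa [mul_one] at h2

theorem add (h : CutS φ A e) (h' : CutS ψ B e) : CutS (fun x => φ x + ψ x) (A + B) e := by
  refine ⟨h.sm.add h'.sm, fun i hi x => ?_⟩
  have h1 : iteratedFDeriv ℝ i (fun x => φ x + ψ x) x =
      iteratedFDeriv ℝ i φ x + iteratedFDeriv ℝ i ψ x :=
    iteratedFDeriv_add_apply (h.sm.of_le (by exact_mod_cast le_top)).contDiffAt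
      (h'.sm.of_le (by exact_mod_cast le_top)).contDiffAt
  rw [h1, add_mul]
  exact (norm_add_le _ _).trans (add_le_add (h.bd i hi x) (h'.bd i hi x))

theorem neg (h : CutS φ A e) : CutS (fun x => -φ x) A e := by
  refine ⟨h.sm.neg, fun i hi x => ?_⟩
  have h1 : iteratedFDeriv ℝ i (fun x => -φ x) x = -iteratedFDeriv ℝ i φ x :=
    iteratedFDeriv_neg_apply
  rw [h1, norm_neg]
  exact h.bd i hi x

theorem mul (he : 0 < e) (h : CutS φ A e) (h' : CutS ψ B e) :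
    CutS (fun x => φ x * ψ x) (4 * (A * B)) e := by
  refine ⟨h.sm.mul h'.sm, fun i hi x => ?_⟩
  refine (norm_iteratedFDeriv_mul_le h.sm h'.sm x (n := i) (by exact_mod_cast le_top)).trans ?_
  have h1 : ∀ j ∈ Finset.range (i + 1), (i.choose j : ℝ) * ‖iteratedFDeriv ℝ j φ x‖ *
      ‖iteratedFDeriv ℝ (i - j) ψ x‖ ≤ (i.choose j : ℝ) * (A * B * e⁻¹ ^ i) := by
    intro j hj
    have hj' : j ≤ i := Nat.lt_succ_iff.mp (Finset.mem_range.mp hj)
    have h2 := h.bd j (hj'.trans hi) x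
    have h3 := h'.bd (i - j) ((Nat.sub_le _ _).trans hi) x
    have h4 : ‖iteratedFDeriv ℝ j φ x‖ * ‖iteratedFDeriv ℝ (i - j) ψ x‖ ≤
        (A * e⁻¹ ^ j) * (B * e⁻¹ ^ (i - j)) :=
      mul_le_mul h2 h3 (norm_nonneg _) (mul_nonneg h.nn (by positivity))
    have h5 : (A * e⁻¹ ^ j) * (B * e⁻¹ ^ (i - j)) = A * B * e⁻¹ ^ i := by
      rw [← Nat.add_sub_of_le hj', pow_add, Nat.add_sub_of_le hj']
      ring
    rw [mul_assoc]
    exact mul_le_mul_of_nonneg_left (h4.trans h5.le) (Nat.cast_nonneg _)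
  refine (Finset.sum_le_sum h1).trans ?_
  rw [← Finset.sum_mul]
  have h6 : (∑ j ∈ Finset.range (i + 1), (i.choose j : ℝ)) = 2 ^ i := by
    exact_mod_cast Nat.sum_range_choose i
  rw [h6]
  have h7 : (2 : ℝ) ^ i ≤ 4 := by
    calc (2 : ℝ) ^ i ≤ 2 ^ 2 := pow_le_pow_right₀ (by norm_num) hi
      _ = 4 := by norm_num
  have h8 : 0 ≤ A * B * e⁻¹ ^ i := mul_nonneg (mul_nonneg h.nn h'.nn) (by positivity)
  calc 2 ^ i * (A * B * e⁻¹ ^ i) ≤ 4 * (A * B * e⁻¹ ^ i) := mul_le_mul_of_nonneg_right h7 h8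
    _ = 4 * (A * B) * e⁻¹ ^ i := by ring

theorem lin {F : Type*} [NormedAddCommGroup F] [NormedSpace ℝ F] {φ : F → ℝ} (h : CutS φ A 1)
    (L : E →L[ℝ] F) (hL : ‖L‖ ≤ e⁻¹) : CutS (fun x => φ (L x)) A e := by
  refine ⟨h.sm.comp L.contDiff, fun i hi x => ?_⟩
  have h1 : iteratedFDeriv ℝ i (fun x => φ (L x)) x =
      (iteratedFDeriv ℝ i φ (L x)).compContinuousLinearMap fun _ => L :=
    L.iteratedFDeriv_comp_right h.sm x (by exact_mod_cast le_top)
  rw [h1]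
  refine (ContinuousMultilinearMap.norm_compContinuousLinearMap_le _ _).trans ?_
  rw [Finset.prod_const, Finset.card_univ, Fintype.card_fin]
  have h2 := h.bd i hi (L x)
  rw [inv_one, one_pow, mul_one] at h2
  exact mul_le_mul h2 (pow_le_pow_left₀ (norm_nonneg _) hL i) (by positivity) h.nn

theorem of_cs {φ : E → ℝ} (hs : ContDiff ℝ ∞ φ) (hc : HasCompactSupport φ) :
    ∃ A, CutS φ A 1 := by
  have h1 : ∀ i : ℕ, ∃ A : ℝ, ∀ x, ‖iteratedFDeriv ℝ i φ x‖ ≤ A := fun i =>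
    (hs.continuous_iteratedFDeriv (m := i) (by exact_mod_cast le_top)).bounded_above_of_compact_support
      (hc.iteratedFDeriv i)
  choose A hA using h1
  refine ⟨max (A 0) (max (A 1) (A 2)), hs, fun i hi x => ?_⟩
  rw [inv_one, one_pow, mul_one]
  interval_cases i
  · exact (hA 0 x).trans (le_max_left _ _)
  · exact (hA 1 x).trans ((le_max_left _ _).trans (le_max_right _ _))
  · exact (hA 2 x).trans ((le_max_right _ _).trans (le_max_right _ _))

end CutS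

/-! ### Skew gradients -/

/-- The linear map from the derivative to the skew gradient. -/
def cutJ (a b : Fin 4) : (Eu 4 →L[ℝ] ℝ) →L[ℝ] Eu 4 :=
  (ContinuousLinearMap.apply ℝ ℝ (ev b)).smulRight (ev a) -
    (ContinuousLinearMap.apply ℝ ℝ (ev a)).smulRight (ev b)

theorem cutJ_apply (a b : Fin 4) (l : Eu 4 →L[ℝ] ℝ) :
    cutJ a b l = l (ev b) • ev a - l (ev a) • ev b := rfl

theorem cutJ_norm (a b : Fin 4) : ‖cutJ a b‖ ≤ 2 := by
  refine ContinuousLinearMap.opNorm_le_bound _ (by norm_num) fun l => ?_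
  have hn : ∀ k, ‖(ev k : Eu 4)‖ = 1 := fun k => by simp [ev]
  rw [cutJ_apply]
  refine (norm_sub_le _ _).trans ?_
  rw [norm_smul, norm_smul, hn, hn, mul_one, mul_one]
  have h1 := l.le_opNorm (ev b)
  have h2 := l.le_opNorm (ev a)
  rw [hn, mul_one] at h1 h2
  linarith

theorem jgrad_eq_cutJ (a b : Fin 4) (g : Eu 4 → ℝ) (y : Eu 4) :
    jgrad a b g y = cutJ a b (fderiv ℝ g y) := rfl

theorem cut_sub (a b : Fin 4) {f f' : Eu 4 → ℝ} (hf : Differentiable ℝ f)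
    (hf' : Differentiable ℝ f') (y : Eu 4) :
    jgrad a b f y - jgrad a b f' y = cutJ a b (fderiv ℝ (fun y => f y - f' y) y) := by
  rw [jgrad_eq_cutJ, jgrad_eq_cutJ, ← map_sub]
  congr 1
  exact (fderiv_fun_sub (hf y) (hf' y)).symm

theorem cut_n1 (a b : Fin 4) {g : Eu 4 → ℝ} (y : Eu 4) :
    ‖cutJ a b (fderiv ℝ g y)‖ ≤ 2 * ‖iteratedFDeriv ℝ 1 g y‖ := by
  rw [norm_iteratedFDeriv_one]
  exact ((cutJ a b).le_opNorm _).trans (mul_le_mul_of_nonneg_right (cutJ_norm a b) (norm_nonneg _))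

theorem cut_n2 (a b : Fin 4) {g : Eu 4 → ℝ} (hg : ContDiff ℝ ∞ g) (y : Eu 4) :
    ‖fderiv ℝ (fun y => cutJ a b (fderiv ℝ g y)) y‖ ≤ 2 * ‖iteratedFDeriv ℝ 2 g y‖ := by
  have h1 : Differentiable ℝ (fderiv ℝ g) :=
    (hg.fderiv_right (m := ∞) (by simp)).differentiable (by simp)
  have h2 : fderiv ℝ (fun y => cutJ a b (fderiv ℝ g y)) y =
      (cutJ a b).comp (fderiv ℝ (fderiv ℝ g) y) :=
    ((cutJ a b).hasFDerivAt.comp y (h1 y).hasFDerivAt).fderiv
  have h3 : ‖iteratedFDeriv ℝ 2 g y‖ = ‖fderiv ℝ (fderiv ℝ g) y‖ := by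
    rw [← norm_iteratedFDeriv_fderiv (n := 1), norm_iteratedFDeriv_one]
  rw [h2, h3]
  exact (ContinuousLinearMap.opNorm_comp_le _ _).trans
    (mul_le_mul_of_nonneg_right (cutJ_norm a b) (norm_nonneg _))

/-! ### The tubes around the planes -/

/-- The normal coordinates of a coordinate plane. -/
def cutP (i j : Fin 4) : Eu 4 →L[ℝ] ℝ × ℝ :=
  (EuclideanSpace.proj i : Eu 4 →L[ℝ] ℝ).prod (EuclideanSpace.proj j)

theorem cutP_apply (i j : Fin 4) (y : Eu 4) : cutP i j y = (y i, y j) := rfl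

theorem cutP_norm (i j : Fin 4) : ‖cutP i j‖ ≤ 1 := by
  refine ContinuousLinearMap.opNorm_le_bound _ zero_le_one fun x => ?_
  rw [one_mul, cutP_apply, Prod.norm_def]
  exact max_le (PiLp.norm_apply_le x i) (PiLp.norm_apply_le x j)

theorem cut_box (w : Fin 4 → ℝ) (hw : ∀ k, 0 ≤ w k) (S : Set (Eu 4)) (hS : ∀ y ∈ S, ∀ k, |y k| ≤ w k) :
    volume S ≤ ENNReal.ofReal (∏ k, (2 * w k)) := by
  have h1 : S ⊆ (WithLp.ofLp : Eu 4 → (Fin 4 → ℝ)) ⁻¹' (Set.Icc (fun k => -w k) w) := by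
    intro y hy
    exact ⟨fun k => (abs_le.mp (hS y hy k)).1, fun k => (abs_le.mp (hS y hy k)).2⟩
  refine (measure_mono h1).trans ?_
  rw [(PiLp.volume_preserving_ofLp (Fin 4)).measure_preimage measurableSet_Icc.nullMeasurableSet,
    Real.volume_Icc_pi, ENNReal.ofReal_prod_of_nonneg]
  · exact (Finset.prod_congr rfl fun k _ => by congr 1; ring).le
  · intro k _
    have := hw k
    linarith

theorem cut_tube (K : Set (Eu 4)) (R e : ℝ) (hR : 0 ≤ R) (he : 0 ≤ e) (hK : ∀ y ∈ K, ‖y‖ ≤ R) :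
    volume (K ∩ {y | ‖cutP 0 1 y‖ ≤ 2 * e ∨ ‖cutP 2 3 y‖ ≤ 2 * e}) ≤
      ENNReal.ofReal (128 * R ^ 2 * e ^ 2) := by
  have h1 : volume (K ∩ {y | ‖cutP 0 1 y‖ ≤ 2 * e}) ≤ ENNReal.ofReal (64 * R ^ 2 * e ^ 2) := by
    refine (cut_box ![2 * e, 2 * e, R, R] ?_ _ ?_).trans (le_of_eq ?_)
    · intro k; fin_cases k <;> simp <;> assumption
    · rintro y ⟨hy, hy2⟩ k
      have h2 : ∀ m, |y m| ≤ R := fun m => (PiLp.norm_apply_le y m).trans (hK y hy)
      have h3 : ‖cutP 0 1 y‖ ≤ 2 * e := hy2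
      rw [cutP_apply, Prod.norm_def, max_le_iff] at h3
      fin_cases k
      · exact h3.1
      · exact h3.2
      · exact h2 2
      · exact h2 3
    · congr 1
      rw [Fin.prod_univ_four]
      simp
      ring
  have h2 : volume (K ∩ {y | ‖cutP 2 3 y‖ ≤ 2 * e}) ≤ ENNReal.ofReal (64 * R ^ 2 * e ^ 2) := by
    refine (cut_box ![R, R, 2 * e, 2 * e] ?_ _ ?_).trans (le_of_eq ?_)
    · intro k; fin_cases k <;> simp <;> assumption
    · rintro y ⟨hy, hy2⟩ k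
      have h2 : ∀ m, |y m| ≤ R := fun m => (PiLp.norm_apply_le y m).trans (hK y hy)
      have h3 : ‖cutP 2 3 y‖ ≤ 2 * e := hy2
      rw [cutP_apply, Prod.norm_def, max_le_iff] at h3
      fin_cases k
      · exact h2 0
      · exact h2 1
      · exact h3.1
      · exact h3.2
    · congr 1
      rw [Fin.prod_univ_four]
      simp
      ring
  have h3 : K ∩ {y | ‖cutP 0 1 y‖ ≤ 2 * e ∨ ‖cutP 2 3 y‖ ≤ 2 * e} =
      (K ∩ {y | ‖cutP 0 1 y‖ ≤ 2 * e}) ∪ (K ∩ {y | ‖cutP 2 3 y‖ ≤ 2 * e}) := by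
    rw [← Set.inter_union_distrib_left]
    rfl
  rw [h3]
  refine (measure_union_le _ _).trans ((add_le_add h1 h2).trans (le_of_eq ?_))
  rw [← ENNReal.ofReal_add (by positivity) (by positivity)]
  congr 1
  ring

theorem cut_int {F : Type*} [NormedAddCommGroup F] (u : Eu 4 → F) (T : Set (Eu 4))
    (hT : MeasurableSet T) (c v : ℝ) (hc : 0 ≤ c) (hv : volume T ≤ ENNReal.ofReal v)
    (h1 : ∀ y, ‖u y‖ ≤ c) (h0 : ∀ y ∉ T, u y = 0) :
    (∫⁻ y, ‖u y‖ₑ) ≤ ENNReal.ofReal (c * v) := by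
  have h2 : (∫⁻ y, ‖u y‖ₑ) ≤ ∫⁻ y, T.indicator (fun _ => ENNReal.ofReal c) y := by
    refine lintegral_mono fun y => ?_
    by_cases hy : y ∈ T
    · rw [Set.indicator_of_mem hy, ← ofReal_norm]
      exact ENNReal.ofReal_le_ofReal (h1 y)
    · rw [h0 y hy, enorm_zero]
      exact zero_le
  refine h2.trans ?_
  rw [lintegral_indicator_const hT, ENNReal.ofReal_mul hc]
  exact mul_le_mul_right hv _

/-- **Row ST-DE1.** -/
theorem de_cut : DECut := by
  intro V hV f hf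
  obtain ⟨hfs, K, hK, hKV, hf0⟩ := hf
  let β : ContDiffBump (0 : ℝ × ℝ) := ⟨1, 2, one_pos, one_lt_two⟩
  have hβ1 : ∀ z : ℝ × ℝ, ‖z‖ ≤ 1 → β z = 1 := fun z hz =>
    β.one_of_mem_closedBall (by simpa using hz)
  have hβ0 : ∀ z : ℝ × ℝ, 2 ≤ ‖z‖ → β z = 0 := fun z hz =>
    β.zero_of_le_dist (by simpa using hz)
  obtain ⟨A, hA⟩ := CutS.of_cs (E := ℝ × ℝ) (φ := β) β.contDiff β.hasCompactSupport
  obtain ⟨B, hB⟩ := CutS.of_cs hfs (HasCompactSupport.intro hK hf0)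
  obtain ⟨R, hR, hKR⟩ : ∃ R : ℝ, 0 < R ∧ ∀ y ∈ K, ‖y‖ ≤ R := by
    obtain ⟨R, hR⟩ := hK.isBounded.exists_norm_le
    exact ⟨max R 1, lt_max_of_lt_right one_pos, fun y hy => (hR y hy).trans (le_max_left _ _)⟩
  have hA0 := hA.nn
  have hB0 := hB.nn
  set D : ℝ := 4 * (B * (A + A + 4 * (A * A))) with hD
  have hD0 : 0 ≤ D := by positivity
  set C : ℝ := 2 * D * (128 * R ^ 2) with hC
  have hC0 : 0 ≤ C := by positivity
  refine ⟨K, C, hK, hKV, hC0, fun η hη => ?_⟩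
  obtain ⟨e, he, he1, heη⟩ : ∃ e : ℝ, 0 < e ∧ e ≤ 1 ∧ C * e ≤ η := by
    refine ⟨min 1 (η / (C + 1)), lt_min one_pos (by positivity), min_le_left _ _, ?_⟩
    calc C * min 1 (η / (C + 1)) ≤ (C + 1) * (η / (C + 1)) :=
          mul_le_mul (by linarith) (min_le_right _ _) (by positivity) (by positivity)
      _ = η := by field_simp
  have hei : 0 < e⁻¹ := inv_pos.mpr he
  have hL : ∀ i j, ‖e⁻¹ • cutP i j‖ ≤ e⁻¹ := fun i j => by
    rw [norm_smul, Real.norm_of_nonneg hei.le]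
    exact mul_le_of_le_one_right hei.le (cutP_norm i j)
  set b : Fin 4 → Fin 4 → Eu 4 → ℝ := fun i j y => β ((e⁻¹ • cutP i j) y) with hb
  have hbS : ∀ i j, CutS (b i j) A e := fun i j => hA.lin _ (hL i j)
  have hbn : ∀ i j y, ‖(e⁻¹ • cutP i j) y‖ = e⁻¹ * ‖cutP i j y‖ := fun i j y => by
    rw [smul_apply, norm_smul, Real.norm_of_nonneg hei.le]
  have hb1 : ∀ i j y, ‖cutP i j y‖ ≤ e → b i j y = 1 := fun i j y hy => by
    refine hβ1 _ ?_
    rw [hbn]
    calc e⁻¹ * ‖cutP i j y‖ ≤ e⁻¹ * e := mul_le_mul_of_nonneg_left hy hei.le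
      _ = 1 := inv_mul_cancel₀ he.ne'
  have hb0 : ∀ i j y, 2 * e < ‖cutP i j y‖ → b i j y = 0 := fun i j y hy => by
    refine hβ0 _ ?_
    rw [hbn]
    calc (2 : ℝ) = e⁻¹ * (2 * e) := by field_simp
      _ ≤ e⁻¹ * ‖cutP i j y‖ := mul_le_mul_of_nonneg_left hy.le hei.le
  set ψ : Eu 4 → ℝ := fun y => b 0 1 y + b 2 3 y + -(b 0 1 y * b 2 3 y) with hψ
  have hψS : CutS ψ (A + A + 4 * (A * A)) e :=
    ((hbS 0 1).add (hbS 2 3)).add (CutS.mul he (hbS 0 1) (hbS 2 3)).neg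
  have hgS : CutS (fun y => f y * ψ y) D e := CutS.mul he (hB.sc he he1) hψS
  set f' : Eu 4 → ℝ := fun y => f y * ((1 - b 0 1 y) * (1 - b 2 3 y)) with hf'
  have hsub : (fun y => f y - f' y) = fun y => f y * ψ y := by
    funext y
    simp only [hf', hψ]
    ring
  have hf's : ContDiff ℝ ∞ f' :=
    hfs.mul ((contDiff_const.sub (hbS 0 1).sm).mul (contDiff_const.sub (hbS 2 3).sm))
  have hcont : ∀ i j, Continuous fun y => ‖cutP i j y‖ := fun i j => (cutP i j).continuous.norm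
  set T : Set (Eu 4) := K ∩ {y | ‖cutP 0 1 y‖ ≤ 2 * e ∨ ‖cutP 2 3 y‖ ≤ 2 * e} with hT
  have hTc : IsClosed T := hK.isClosed.inter
    ((isClosed_le (hcont 0 1) continuous_const).union (isClosed_le (hcont 2 3) continuous_const))
  have hgT : ∀ y ∉ T, f y * ψ y = 0 := by
    intro y hy
    by_cases hyK : y ∈ K
    · have h1 : ¬ (‖cutP 0 1 y‖ ≤ 2 * e ∨ ‖cutP 2 3 y‖ ≤ 2 * e) := fun h => hy ⟨hyK, h⟩
      rw [not_or, not_le, not_le] at h1
      have h2 : ψ y = 0 := by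
        simp only [hψ]
        rw [hb0 0 1 y h1.1, hb0 2 3 y h1.2]
        ring
      rw [h2, mul_zero]
    · rw [hf0 y hyK, zero_mul]
  have hiT : ∀ i, ∀ y ∉ T, iteratedFDeriv ℝ i (fun y => f y * ψ y) y = 0 := by
    intro i y hy
    by_contra h
    refine hy ?_
    have h1 : tsupport (fun y => f y * ψ y) ⊆ T := closure_minimal (fun z hz => by
      by_contra hzT
      exact hz (hgT z hzT)) hTc
    exact h1 (support_iteratedFDeriv_subset i h)
  have hvol := cut_tube K R e hR.le he.le hKR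
  refine ⟨f', ⟨hf's, K ∩ {y | e ≤ ‖cutP 0 1 y‖ ∧ e ≤ ‖cutP 2 3 y‖}, ?_, ?_, ?_⟩, ?_, fun a c => ⟨?_, ?_⟩⟩
  · exact hK.inter_right ((isClosed_le continuous_const (hcont 0 1)).inter
      (isClosed_le continuous_const (hcont 2 3)))
  · rintro y ⟨hy, h1, h2⟩
    refine ⟨hKV hy, ?_⟩
    rintro (⟨h3, h4⟩ | ⟨h3, h4⟩)
    · rw [cutP_apply, h3, h4, Prod.mk_zero_zero, norm_zero] at h1
      linarith
    · rw [cutP_apply, h3, h4, Prod.mk_zero_zero, norm_zero] at h2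
      linarith
  · intro y hy
    simp only [hf']
    by_cases hyK : y ∈ K
    · by_cases h1 : e ≤ ‖cutP 0 1 y‖
      · have h2 : ¬ e ≤ ‖cutP 2 3 y‖ := fun h => hy ⟨hyK, h1, h⟩
        rw [hb1 2 3 y (not_le.mp h2).le]
        ring
      · rw [hb1 0 1 y (not_le.mp h1).le]
        ring
    · rw [hf0 y hyK, zero_mul]
  · intro y hy
    simp only [hf']
    rw [hf0 y hy]
    ring
  · have h1 : ∀ y, jgrad a c f y - jgrad a c f' y = cutJ a c (fderiv ℝ (fun y => f y * ψ y) y) := by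
      intro y
      rw [cut_sub a c (hfs.differentiable (by simp)) (hf's.differentiable (by simp)), hsub]
    simp_rw [h1]
    refine (cut_int _ T hTc.measurableSet (2 * (D * e⁻¹ ^ 1)) _ (by positivity) hvol ?_ ?_).trans
      (ENNReal.ofReal_le_ofReal ?_)
    · intro y
      exact (cut_n1 a c y).trans (mul_le_mul_of_nonneg_left (hgS.bd 1 (by norm_num) y) (by norm_num))
    · intro y hy
      have h2 := cut_n1 a c (g := fun y => f y * ψ y) y
      rw [hiT 1 y hy, norm_zero, mul_zero] at h2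
      exact norm_le_zero_iff.mp h2
    · refine le_trans (le_of_eq ?_) heη
      rw [hC]
      field_simp
  · have h1 : (fun y => jgrad a c f y - jgrad a c f' y) =
        fun y => cutJ a c (fderiv ℝ (fun y => f y * ψ y) y) := by
      funext y
      rw [cut_sub a c (hfs.differentiable (by simp)) (hf's.differentiable (by simp)), hsub]
    rw [h1]
    refine (cut_int _ T hTc.measurableSet (2 * (D * e⁻¹ ^ 2)) _ (by positivity) hvol ?_ ?_).trans
      (ENNReal.ofReal_le_ofReal ?_)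
    · intro y
      exact (cut_n2 a c hgS.sm y).trans
        (mul_le_mul_of_nonneg_left (hgS.bd 2 le_rfl y) (by norm_num))
    · intro y hy
      have h2 := cut_n2 a c hgS.sm y
      rw [hiT 2 y hy, norm_zero, mul_zero] at h2
      exact norm_le_zero_iff.mp h2
    · refine le_of_eq ?_
      rw [hC]
      field_simp

end

end Pool.Agent.H6.ST
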