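import Pool.Agent.H6.ST.DE.Defs
import Pool.Agent.H68.GM.PushK

/-! # ST-DE9: the velocities of commutators are dense in the exact fields -/

namespace Pool.Agent.H6.ST

open MeasureTheory Set Pool.Agent.H68.VD Pool.Agent.H68.GM
open scoped ENNReal ContDiff Topology

/-! ### Triangle inequalities -/

section

variable {n : ℕ} {M : Type} [TopologicalSpace M] {ι : Type} [Fintype ι]
  {ch : ι → OpenPartialHomeomorph M (Eu n)} {K : ι → Set (Eu n)}

theorem d9_en_add {F : Type*} [NormedAddCommGroup F] (a b : F) : ‖a + b‖ₑ ≤ ‖a‖ₑ + ‖b‖ₑ :=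
  enorm_add_le a b

theorem d9_en_zero {F : Type*} [NormedAddCommGroup F] : ‖(0 : F)‖ₑ = 0 := enorm_zero

theorem d9_en_sum {F : Type*} [NormedAddCommGroup F] {κ : Type} (s : Finset κ) (a : κ → F) :
    ‖∑ k ∈ s, a k‖ₑ ≤ ∑ k ∈ s, ‖a k‖ₑ := enorm_sum_le s a

theorem d9_L1_add (hK : KCov ch K) {X Y : ι → Eu n → Eu n}
    (hX : ∀ i, ContDiffOn ℝ ∞ (X i) (ch i).target) :
    L1M K (fun i y => X i y + Y i y) ≤ L1M K X + L1M K Y := by
  unfold L1M
  rw [← Finset.sum_add_distrib]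
  refine Finset.sum_le_sum fun i _ => ?_
  have hm : AEMeasurable (fun y => ‖X i y‖ₑ) (volume.restrict (K i)) :=
    (((hX i).continuousOn.mono (hK.sub i)).aemeasurable (hK.cpt i).measurableSet).enorm
  rw [← lintegral_add_left' hm]
  exact lintegral_mono fun y => enorm_add_le _ _

theorem d9_W1_add (hK : KCov ch K) {X Y : ι → Eu n → Eu n}
    (hX : ∀ i, ContDiffOn ℝ ∞ (X i) (ch i).target)
    (hY : ∀ i, ContDiffOn ℝ ∞ (Y i) (ch i).target) :
    W1M K (fun i y => X i y + Y i y) ≤ W1M K X + W1M K Y := by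
  unfold W1M
  rw [← Finset.sum_add_distrib]
  refine Finset.sum_le_sum fun i _ => ?_
  have hm : AEMeasurable (fun y => ‖X i y‖ₑ + ‖fderiv ℝ (X i) y‖ₑ) (volume.restrict (K i)) := by
    have m1 : AEMeasurable (fun y => ‖X i y‖ₑ) (volume.restrict (K i)) :=
      (((hX i).continuousOn.mono (hK.sub i)).aemeasurable (hK.cpt i).measurableSet).enorm
    have m2 : AEMeasurable (fun y => ‖fderiv ℝ (X i) y‖ₑ) (volume.restrict (K i)) :=
      ((((hX i).continuousOn_fderiv_of_isOpen (ch i).open_target (by simp)).mono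
        (hK.sub i)).aemeasurable (hK.cpt i).measurableSet).enorm
    exact m1.add m2
  rw [← lintegral_add_left' hm]
  refine setLIntegral_mono' (hK.cpt i).measurableSet fun y hy => ?_
  have hd : ∀ {Z : Eu n → Eu n}, ContDiffOn ℝ ∞ Z (ch i).target → DifferentiableAt ℝ Z y :=
    fun hZ => (hZ.contDiffAt ((ch i).open_target.mem_nhds (hK.sub i hy))).differentiableAt (by simp)
  have e1 : fderiv ℝ (fun y => X i y + Y i y) y = fderiv ℝ (X i) y + fderiv ℝ (Y i) y :=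
    fderiv_add (hd (hX i)) (hd (hY i))
  rw [e1]
  calc ‖X i y + Y i y‖ₑ + ‖fderiv ℝ (X i) y + fderiv ℝ (Y i) y‖ₑ
      ≤ (‖X i y‖ₑ + ‖Y i y‖ₑ) + (‖fderiv ℝ (X i) y‖ₑ + ‖fderiv ℝ (Y i) y‖ₑ) :=
        add_le_add (enorm_add_le _ _) (d9_en_add (fderiv ℝ (X i) y) (fderiv ℝ (Y i) y))
    _ = ‖X i y‖ₑ + ‖fderiv ℝ (X i) y‖ₑ + (‖Y i y‖ₑ + ‖fderiv ℝ (Y i) y‖ₑ) :=
        add_add_add_comm _ _ _ _

theorem d9_sum (hK : KCov ch K) {κ : Type} (s : Finset κ) (X : κ → ι → Eu n → Eu n)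
    (hX : ∀ k i, ContDiffOn ℝ ∞ (X k i) (ch i).target) :
    L1M K (fun i y => ∑ k ∈ s, X k i y) ≤ ∑ k ∈ s, L1M K (X k) ∧
    W1M K (fun i y => ∑ k ∈ s, X k i y) ≤ ∑ k ∈ s, W1M K (X k) := by
  classical
  induction s using Finset.induction_on with
  | empty => simp [L1M, W1M, d9_en_zero]
  | insert a s ha ih =>
    simp only [Finset.sum_insert ha]
    have hs : ∀ i, ContDiffOn ℝ ∞ (fun y => ∑ k ∈ s, X k i y) (ch i).target := fun i =>
      ContDiffOn.sum fun k _ => hX k i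
    constructor
    · exact (d9_L1_add hK (X := X a) (Y := fun i y => ∑ k ∈ s, X k i y) (hX a)).trans
        (add_le_add le_rfl ih.1)
    · exact (d9_W1_add hK (X := X a) (Y := fun i y => ∑ k ∈ s, X k i y) (hX a) hs).trans
        (add_le_add le_rfl ih.2)

/-- Integrals of finite sums. -/
theorem d9_int_sum {κ : Type} (s : Finset κ) (w : κ → Eu n → Eu n)
    (hw : ∀ k, ContDiff ℝ ∞ (w k)) :
    (∫⁻ y, ‖∑ k ∈ s, w k y‖ₑ) ≤ ∑ k ∈ s, ∫⁻ y, ‖w k y‖ₑ ∧
    (∫⁻ y, ‖fderiv ℝ (fun y => ∑ k ∈ s, w k y) y‖ₑ) ≤ ∑ k ∈ s, ∫⁻ y, ‖fderiv ℝ (w k) y‖ₑ := by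
  constructor
  · rw [← lintegral_finsetSum' _ fun k _ => ((hw k).continuous.measurable.enorm).aemeasurable]
    exact lintegral_mono fun y => d9_en_sum _ _
  · rw [← lintegral_finsetSum' _ fun k _ =>
      (((hw k).continuous_fderiv (by simp)).measurable.enorm).aemeasurable]
    refine lintegral_mono fun y => ?_
    show ‖fderiv ℝ (fun y => ∑ k ∈ s, w k y) y‖ₑ ≤ ∑ k ∈ s, ‖fderiv ℝ (w k) y‖ₑ
    have e1 : fderiv ℝ (fun y => ∑ k ∈ s, w k y) y = ∑ k ∈ s, fderiv ℝ (w k) y :=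
      fderiv_fun_sum fun k _ => ((hw k).differentiable (by simp)) y
    rw [e1]
    exact d9_en_sum _ _

/-- The integral of a bounded function with compact support. -/
theorem d9_int_bd {F : Type*} [NormedAddCommGroup F] {K' : Set (Eu n)} (hK' : IsCompact K')
    (u : Eu n → F) (B : ℝ) (hB : 0 ≤ B) (hu : ∀ y, ‖u y‖ ≤ B) (hu0 : ∀ y ∉ K', u y = 0) :
    (∫⁻ y, ‖u y‖ₑ) ≤ ENNReal.ofReal (B * (volume : Measure (Eu n)).real K') := by
  have hvol : (volume : Measure (Eu n)) K' ≠ ⊤ := hK'.measure_lt_top.ne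
  calc (∫⁻ y, ‖u y‖ₑ) ≤ ∫⁻ y, K'.indicator (fun _ => ENNReal.ofReal B) y := by
        refine lintegral_mono fun y => ?_
        by_cases hy : y ∈ K'
        · rw [indicator_of_mem hy]
          show ‖u y‖ₑ ≤ _
          rw [← ofReal_norm]
          exact ENNReal.ofReal_le_ofReal (hu y)
        · rw [indicator_of_notMem hy]
          show ‖u y‖ₑ ≤ _
          rw [hu0 y hy, enorm_zero]
    _ = ENNReal.ofReal B * (volume : Measure (Eu n)) K' :=
        lintegral_indicator_const hK'.measurableSet _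
    _ = ENNReal.ofReal (B * (volume : Measure (Eu n)).real K') := by
        rw [ENNReal.ofReal_mul hB, Measure.real, ENNReal.ofReal_toReal hvol]

end

/-! ### Skew gradients -/

theorem d9_ev (a : Fin 4) : ‖ev a‖ = 1 := by
  rw [ev, PiLp.norm_single, norm_one]

/-- The skew gradient as a linear map of the derivative. -/
noncomputable def d9T (a b : Fin 4) : (Eu 4 →L[ℝ] ℝ) →L[ℝ] Eu 4 :=
  (ContinuousLinearMap.apply ℝ ℝ (ev b)).smulRight (ev a) -
    (ContinuousLinearMap.apply ℝ ℝ (ev a)).smulRight (ev b)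

theorem d9T_apply (a b : Fin 4) (l : Eu 4 →L[ℝ] ℝ) :
    d9T a b l = l (ev b) • ev a - l (ev a) • ev b := by
  simp [d9T]

theorem d9T_norm (a b : Fin 4) : ‖d9T a b‖ ≤ 2 := by
  refine ContinuousLinearMap.opNorm_le_bound _ (by norm_num) fun l => ?_
  rw [d9T_apply]
  have h1 : ∀ c : Fin 4, ‖l (ev c)‖ ≤ ‖l‖ := fun c => by
    have := l.le_opNorm (ev c)
    rwa [d9_ev, mul_one] at this
  calc ‖l (ev b) • ev a - l (ev a) • ev b‖ ≤ ‖l (ev b) • ev a‖ + ‖l (ev a) • ev b‖ :=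
        norm_sub_le _ _
    _ = ‖l (ev b)‖ + ‖l (ev a)‖ := by rw [norm_smul, norm_smul, d9_ev, d9_ev, mul_one, mul_one]
    _ ≤ 2 * ‖l‖ := by linarith [h1 a, h1 b]

theorem d9_jg (a b : Fin 4) (f : Eu 4 → ℝ) : jgrad a b f = fun x => d9T a b (fderiv ℝ f x) := by
  funext x
  rw [d9T_apply]
  rfl

theorem d9_jg_smooth (a b : Fin 4) {f : Eu 4 → ℝ} (hf : ContDiff ℝ ∞ f) :
    ContDiff ℝ ∞ (jgrad a b f) := by
  rw [d9_jg]
  exact (d9T a b).contDiff.comp (hf.fderiv_right (by simp))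

theorem d9_jg_bd (a b : Fin 4) {f : Eu 4 → ℝ} (hf : ContDiff ℝ ∞ f) (x : Eu 4) :
    ‖jgrad a b f x‖ ≤ 2 * ‖fderiv ℝ f x‖ ∧
    ‖fderiv ℝ (jgrad a b f) x‖ ≤ 2 * ‖fderiv ℝ (fderiv ℝ f) x‖ := by
  have hdf : ContDiff ℝ ∞ (fderiv ℝ f) := hf.fderiv_right (by simp)
  rw [d9_jg]
  constructor
  · exact ((d9T a b).le_opNorm _).trans
      (mul_le_mul_of_nonneg_right (d9T_norm a b) (norm_nonneg _))
  · have e1 : fderiv ℝ (fun x => d9T a b (fderiv ℝ f x)) x =
        (d9T a b).comp (fderiv ℝ (fderiv ℝ f) x) :=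
      ((d9T a b).hasFDerivAt.comp x ((hdf.differentiable (by simp)) x).hasFDerivAt).fderiv
    rw [e1]
    exact (ContinuousLinearMap.opNorm_comp_le _ _).trans
      (mul_le_mul_of_nonneg_right (d9T_norm a b) (norm_nonneg _))

theorem d9_jg_sub (a b : Fin 4) {f g : Eu 4 → ℝ} (hf : ContDiff ℝ ∞ f) (hg : ContDiff ℝ ∞ g)
    (x : Eu 4) : jgrad a b (fun x => f x - g x) x = jgrad a b f x - jgrad a b g x := by
  simp only [d9_jg]
  have e1 : fderiv ℝ (fun x => f x - g x) x = fderiv ℝ f x - fderiv ℝ g x :=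
    fderiv_fun_sub ((hf.differentiable (by simp)) x) ((hg.differentiable (by simp)) x)
  rw [e1, map_sub]

theorem d9_jg_sum (a b : Fin 4) {κ : Type} (s : Finset κ) (f : κ → Eu 4 → ℝ)
    (hf : ∀ k, ContDiff ℝ ∞ (f k)) (x : Eu 4) :
    jgrad a b (fun x => ∑ k ∈ s, f k x) x = ∑ k ∈ s, jgrad a b (f k) x := by
  simp only [d9_jg]
  have e1 : fderiv ℝ (fun x => ∑ k ∈ s, f k x) x = ∑ k ∈ s, fderiv ℝ (f k) x :=
    fderiv_fun_sum fun k _ => ((hf k).differentiable (by simp)) x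
  rw [e1, map_sum]

theorem d9_jg_out (a b : Fin 4) {f : Eu 4 → ℝ} {K' : Set (Eu 4)} (hK' : IsCompact K')
    (h0 : ∀ x ∉ K', f x = 0) (x : Eu 4) (hx : x ∉ K') : jgrad a b f x = 0 := by
  have h1 : f =ᶠ[𝓝 x] fun _ => (0 : ℝ) := by
    filter_upwards [hK'.isClosed.isOpen_compl.mem_nhds hx] with y hy
    exact h0 y hy
  rw [d9_jg]
  simp only [h1.fderiv_eq]
  simp

theorem d9_fd_out {F : Type*} [NormedAddCommGroup F] [NormedSpace ℝ F] {f : Eu 4 → F}
    {K' : Set (Eu 4)} (hK' : IsCompact K') (h0 : ∀ x ∉ K', f x = 0) (x : Eu 4) (hx : x ∉ K') :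
    fderiv ℝ f x = 0 := by
  have h1 : f =ᶠ[𝓝 x] fun _ => (0 : F) := by
    filter_upwards [hK'.isClosed.isOpen_compl.mem_nhds hx] with y hy
    exact h0 y hy
  rw [h1.fderiv_eq]
  simp

/-! ### Finite sums of commutator velocities -/

/-- Admissible data. -/
def D9P (K' : Set (Eu 4)) (d : Fin 4 × Fin 4 × (Eu 4 → ℝ) × (Eu 4 → ℝ)) : Prop :=
  GU d.1 d.2.1 d.2.2.1 d.2.2.2 ∧ ContDiff ℝ ∞ (vfg d.1 d.2.1 d.2.2.1 d.2.2.2) ∧
    ∀ x ∉ K', vfg d.1 d.2.1 d.2.2.1 d.2.2.2 x = 0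

/-- Finite sums of commutator velocities with support in `K'`. -/
def D9V (K' : Set (Eu 4)) (v : Eu 4 → Eu 4) : Prop :=
  ∃ (m : ℕ) (d : Fin m → Fin 4 × Fin 4 × (Eu 4 → ℝ) × (Eu 4 → ℝ)), (∀ k, D9P K' (d k)) ∧
    v = fun x => ∑ k, vfg (d k).1 (d k).2.1 (d k).2.2.1 (d k).2.2.2 x

theorem d9V_zero (K' : Set (Eu 4)) : D9V K' 0 :=
  ⟨0, fun k => k.elim0, fun k => k.elim0, by funext x; simp⟩

theorem d9V_add {K' : Set (Eu 4)} {v w : Eu 4 → Eu 4} (hv : D9V K' v) (hw : D9V K' w) :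
    D9V K' (v + w) := by
  obtain ⟨m, d, hd, rfl⟩ := hv
  obtain ⟨m', d', hd', rfl⟩ := hw
  refine ⟨m + m', Fin.append d d', ?_, ?_⟩
  · refine Fin.addCases (fun k => ?_) (fun k => ?_)
    · rw [Fin.append_left]
      exact hd k
    · rw [Fin.append_right]
      exact hd' k
  · funext x
    rw [Fin.sum_univ_add]
    simp only [Fin.append_left, Fin.append_right]
    rfl

theorem d9V_one {K' : Set (Eu 4)} {d : Fin 4 × Fin 4 × (Eu 4 → ℝ) × (Eu 4 → ℝ)}
    (hd : D9P K' d) : D9V K' (vfg d.1 d.2.1 d.2.2.1 d.2.2.2) :=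
  ⟨1, fun _ => d, fun _ => hd, by funext x; simp⟩

theorem d9V_nsmul {K' : Set (Eu 4)} {v : Eu 4 → Eu 4} (hv : D9V K' v) (m : ℕ) :
    D9V K' (m • v) := by
  induction m with
  | zero => rw [zero_smul]; exact d9V_zero K'
  | succ m ih => rw [succ_nsmul]; exact d9V_add ih hv

theorem d9V_sum {K' : Set (Eu 4)} {κ : Type} (s : Finset κ) (v : κ → Eu 4 → Eu 4)
    (hv : ∀ k ∈ s, D9V K' (v k)) : D9V K' (∑ k ∈ s, v k) :=
  Finset.sum_induction v (D9V K') (fun _ _ => d9V_add) (d9V_zero K') hv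

theorem d9V_mono {K' K'' : Set (Eu 4)} (h : K' ⊆ K'') {v : Eu 4 → Eu 4} (hv : D9V K' v) :
    D9V K'' v := by
  obtain ⟨m, d, hd, rfl⟩ := hv
  exact ⟨m, d, fun k => ⟨(hd k).1, (hd k).2.1, fun x hx => (hd k).2.2 x fun hc => hx (h hc)⟩, rfl⟩

theorem d9V_smooth {K' : Set (Eu 4)} {v : Eu 4 → Eu 4} (hv : D9V K' v) : ContDiff ℝ ∞ v := by
  obtain ⟨m, d, hd, rfl⟩ := hv
  exact ContDiff.sum fun k _ => (hd k).2.1

theorem d9V_out {K' : Set (Eu 4)} {v : Eu 4 → Eu 4} (hv : D9V K' v) : ∀ x ∉ K', v x = 0 := by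
  obtain ⟨m, d, hd, rfl⟩ := hv
  exact fun x hx => Finset.sum_eq_zero fun k _ => (hd k).2.2 x hx

theorem d9_box (a b : Fin 4 → ℝ) : IsCompact {x : Eu 4 | ∀ k, a k ≤ x k ∧ x k ≤ b k} := by
  have h1 : IsCompact (WithLp.toLp 2 '' (Set.univ.pi (fun k => Icc (a k) (b k)) :
      Set (Fin 4 → ℝ)) : Set (Eu 4)) :=
    (isCompact_univ_pi fun k => isCompact_Icc).image (PiLp.continuous_toLp 2 _)
  convert h1 using 1
  ext x
  constructor
  · intro hx
    exact ⟨fun k => x k, fun k _ => hx k, rfl⟩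
  · rintro ⟨y, hy, rfl⟩ k
    exact hy k (Set.mem_univ k)

/-- One skew gradient. -/
theorem d9_one (h3 : DEProd) (h4 : DEGen) (a b : Fin 4) (g : Eu 4 → ℝ)
    (hg : TestIn (obox (fun _ => 0) (fun _ => 1)) g) :
    ∃ K' : Set (Eu 4), IsCompact K' ∧ K' ⊆ obox (fun _ => 0) (fun _ => 1) ∧
      (∀ y ∉ K', jgrad a b g y = 0) ∧ ∀ δ : ℝ, 0 < δ → ∃ v : Eu 4 → Eu 4, D9V K' v ∧
      ∀ x, ‖jgrad a b g x - v x‖ ≤ δ ∧ ‖fderiv ℝ (fun x => jgrad a b g x - v x) x‖ ≤ δ := by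
  obtain ⟨hgs, K0, hK0, hK0s, hg0⟩ := hg
  by_cases hab : a = b
  · subst hab
    have h0 : ∀ f : Eu 4 → ℝ, ∀ x, jgrad a a f x = 0 := fun f x => by
      unfold jgrad
      rw [sub_self]
    refine ⟨K0, hK0, hK0s, fun y _ => h0 g y, fun δ hδ => ⟨0, d9V_zero _, fun x => ?_⟩⟩
    simp only [h0, Pi.zero_apply, sub_zero, norm_zero]
    refine ⟨hδ.le, ?_⟩
    simp [hδ.le]
  · obtain ⟨lo, hi, hlh, happ⟩ := h3 g ⟨hgs, K0, hK0, hK0s, hg0⟩
    set Kb : Set (Eu 4) := {x | ∀ k, lo k / 2 ≤ x k ∧ x k ≤ (1 + hi k) / 2} with hKb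
    have hKbc : IsCompact Kb := d9_box _ _
    refine ⟨K0 ∪ Kb, hK0.union hKbc, union_subset hK0s ?_, fun y hy => ?_, fun δ hδ => ?_⟩
    · intro x hx k
      have h1 := hx k
      have h2 := hlh k
      constructor <;> linarith [h1.1, h1.2, h2.1, h2.2.1, h2.2.2]
    · exact d9_jg_out a b hK0 hg0 y fun hc => hy (Or.inl hc)
    · obtain ⟨m, β, hβs, hβ0, hβ⟩ := happ (δ / 4) (by positivity)
      have hgen : ∀ k : Fin m, ∃ (m' : ℕ) (f' g' : Eu 4 → ℝ), GU a b f' g' ∧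
          ContDiff ℝ ∞ (vfg a b f' g') ∧
          (∀ x, vfg a b f' g' x ≠ 0 → ∀ k, lo k / 2 ≤ x k ∧ x k ≤ (1 + hi k) / 2) ∧
          ∀ x, ‖jgrad a b (fun x => ∏ l, β k l (x l)) x - (m' : ℝ) • vfg a b f' g' x‖ ≤
              δ / (2 * (m + 1)) ∧
            ‖fderiv ℝ (fun x => jgrad a b (fun x => ∏ l, β k l (x l)) x -
              (m' : ℝ) • vfg a b f' g' x) x‖ ≤ δ / (2 * (m + 1)) := fun k =>
        h4 a b hab (β k) lo hi (hβs k) hlh (hβ0 k) _ (by positivity)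
      choose m' f' g' hGU hvs hv0 hvb using hgen
      have hP : ∀ k, D9P (K0 ∪ Kb) (a, b, f' k, g' k) := fun k =>
        ⟨hGU k, hvs k, fun x hx => by
          by_contra hne
          exact hx (Or.inr (hv0 k x hne))⟩
      have hps : ∀ k, ContDiff ℝ ∞ (fun x : Eu 4 => ∏ l, β k l (x l)) := by
        intro k
        refine contDiff_prod fun l _ => (hβs k l).comp ?_
        fun_prop
      refine ⟨∑ k, m' k • vfg a b (f' k) (g' k), d9V_sum _ _ fun k _ =>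
        d9V_nsmul (d9V_one (hP k)) (m' k), ?_⟩
      have hdec : ∀ x, jgrad a b g x - (∑ k, m' k • vfg a b (f' k) (g' k)) x =
          jgrad a b (fun x => g x - ∑ k, ∏ l, β k l (x l)) x +
          ∑ k, (jgrad a b (fun x => ∏ l, β k l (x l)) x - (m' k : ℝ) • vfg a b (f' k) (g' k) x) := by
        intro x
        rw [d9_jg_sub a b hgs (ContDiff.sum fun k _ => hps k),
          d9_jg_sum a b Finset.univ (fun k x => ∏ l, β k l (x l)) hps, Finset.sum_sub_distrib]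
        simp only [Finset.sum_apply, Pi.smul_apply, Nat.cast_smul_eq_nsmul]
        abel
      have hs0 : ContDiff ℝ ∞ (fun x : Eu 4 => g x - ∑ k, ∏ l, β k l (x l)) :=
        hgs.sub (ContDiff.sum fun k _ => hps k)
      have hcard : ∑ _k : Fin m, δ / (2 * ((m : ℝ) + 1)) ≤ δ / 2 := by
        rw [Finset.sum_const, Finset.card_univ, Fintype.card_fin, nsmul_eq_mul]
        have h1 : (0 : ℝ) ≤ (m : ℝ) := Nat.cast_nonneg m
        rw [mul_div_assoc', div_le_div_iff₀ (by positivity) (by positivity)]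
        nlinarith
      intro x
      have hbd := d9_jg_bd a b hs0 x
      have hβx := hβ x
      constructor
      · rw [hdec x]
        refine (norm_add_le _ _).trans ?_
        have h1 := (norm_sum_le (Finset.univ : Finset (Fin m)) fun k =>
          jgrad a b (fun x => ∏ l, β k l (x l)) x - (m' k : ℝ) • vfg a b (f' k) (g' k) x)
        have h2 : ∑ k : Fin m, ‖jgrad a b (fun x => ∏ l, β k l (x l)) x -
            (m' k : ℝ) • vfg a b (f' k) (g' k) x‖ ≤ ∑ _k : Fin m, δ / (2 * ((m : ℝ) + 1)) :=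
          Finset.sum_le_sum fun k _ => (hvb k x).1
        linarith [hbd.1, hβx.2.1]
      · have hw : ∀ k : Fin m, ContDiff ℝ ∞ (fun x => jgrad a b (fun x => ∏ l, β k l (x l)) x -
            (m' k : ℝ) • vfg a b (f' k) (g' k) x) := fun k =>
          (d9_jg_smooth a b (hps k)).sub ((contDiff_const (c := (m' k : ℝ))).smul (hvs k))
        have e0 : (fun x => jgrad a b g x - (∑ k, m' k • vfg a b (f' k) (g' k)) x) = fun x =>
          jgrad a b (fun x => g x - ∑ k, ∏ l, β k l (x l)) x +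
          ∑ k, (jgrad a b (fun x => ∏ l, β k l (x l)) x -
            (m' k : ℝ) • vfg a b (f' k) (g' k) x) := funext hdec
        rw [e0]
        have e1 : fderiv ℝ (fun x => jgrad a b (fun x => g x - ∑ k, ∏ l, β k l (x l)) x +
            ∑ k, (jgrad a b (fun x => ∏ l, β k l (x l)) x -
            (m' k : ℝ) • vfg a b (f' k) (g' k) x)) x =
            fderiv ℝ (jgrad a b (fun x => g x - ∑ k, ∏ l, β k l (x l))) x +
            ∑ k, fderiv ℝ (fun x => jgrad a b (fun x => ∏ l, β k l (x l)) x -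
            (m' k : ℝ) • vfg a b (f' k) (g' k) x) x := by
          rw [fderiv_fun_add (((d9_jg_smooth a b hs0).differentiable (by simp)) x)
            ((ContDiff.sum fun k _ => hw k).differentiable (by simp) x),
            fderiv_fun_sum fun k _ => ((hw k).differentiable (by simp)) x]
        rw [e1]
        refine (norm_add_le _ _).trans ?_
        have h1 := (norm_sum_le (Finset.univ : Finset (Fin m)) fun k =>
          fderiv ℝ (fun x => jgrad a b (fun x => ∏ l, β k l (x l)) x -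
            (m' k : ℝ) • vfg a b (f' k) (g' k) x) x)
        have h2 : ∑ k : Fin m, ‖fderiv ℝ (fun x => jgrad a b (fun x => ∏ l, β k l (x l)) x -
            (m' k : ℝ) • vfg a b (f' k) (g' k) x) x‖ ≤ ∑ _k : Fin m, δ / (2 * ((m : ℝ) + 1)) :=
          Finset.sum_le_sum fun k _ => (hvb k x).2
        linarith [hbd.2, hβx.2.2]

/-! ### The theorem -/

theorem d9_push_sum {n : ℕ} {M : Type} [TopologicalSpace M] {ι : Type}
    (ch : ι → OpenPartialHomeomorph M (Eu n)) (i : ι) {κ : Type} (t : Finset κ)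
    (u : κ → Eu n → Eu n) (j : ι) (y : Eu n) :
    push ch i (fun y => ∑ k ∈ t, u k y) j y = ∑ k ∈ t, push ch i (u k) j y := by
  unfold push
  split_ifs with h
  · rw [map_sum]
  · simp

theorem d9_push_sub {n : ℕ} {M : Type} [TopologicalSpace M] {ι : Type}
    (ch : ι → OpenPartialHomeomorph M (Eu n)) (i : ι)
    (u v : Eu n → Eu n) (j : ι) (y : Eu n) :
    push ch i (fun y => u y - v y) j y = push ch i u j y - push ch i v j y := by
  unfold push
  split_ifs with h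
  · rw [map_sub]
  · simp

theorem d9_num (A η s : ℝ) (hA : 1 ≤ A) (hη : 0 < η) (hs1 : s < 1) :
    ∃ δ : ℝ, 0 < δ ∧ δ ≤ 1 ∧ (A * δ) ^ (1 - s) * A ^ s ≤ η := by
  have hA0 : 0 < A := by linarith
  have h1s : 0 < 1 - s := by linarith
  refine ⟨min 1 ((η / A) ^ (1 / (1 - s))), by positivity, min_le_left _ _, ?_⟩
  set δ := min 1 ((η / A) ^ (1 / (1 - s))) with hδ
  have hδ0 : 0 < δ := by positivity
  have h1 : δ ^ (1 - s) ≤ η / A := by
    calc δ ^ (1 - s) ≤ ((η / A) ^ (1 / (1 - s))) ^ (1 - s) :=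
          Real.rpow_le_rpow hδ0.le (min_le_right _ _) h1s.le
      _ = η / A := by
          rw [← Real.rpow_mul (by positivity), one_div, inv_mul_cancel₀ h1s.ne', Real.rpow_one]
  rw [Real.mul_rpow hA0.le hδ0.le]
  have h2 : A ^ (1 - s) * A ^ s = A := by
    rw [← Real.rpow_add hA0]
    simp
  calc A ^ (1 - s) * δ ^ (1 - s) * A ^ s = (A ^ (1 - s) * A ^ s) * δ ^ (1 - s) := by ring
    _ = A * δ ^ (1 - s) := by rw [h2]
    _ ≤ A * (η / A) := mul_le_mul_of_nonneg_left h1 hA0.le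
    _ = η := by field_simp

/-- ST-DE9. -/
theorem dens_thm (h1 : DECut) (h2 : DETr) (h3 : DEProd) (h4 : DEGen) (h5 : PushB) : Dens := by
  intro M _ _ _ _ ι _ ch o K hG s hs hs1 X hX η hη
  obtain ⟨f, hf, hXf⟩ := hX
  have hA := hG.vol
  have hKc := hG.cov
  -- step 1: cut off
  have hc1 := fun i a b => h1 (ch i).target (ch i).open_target (f i a b) (hf i a b)
  choose K₁ C₁ hK₁c hK₁s hC₁ hcut using hc1
  have hK₁'c : ∀ i, IsCompact (⋃ a, ⋃ b, K₁ i a b) := fun i =>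
    isCompact_iUnion fun a => isCompact_iUnion fun b => hK₁c i a b
  have hK₁'s : ∀ i, (⋃ a, ⋃ b, K₁ i a b) ⊆ (ch i).target := fun i =>
    iUnion_subset fun a => iUnion_subset fun b => hK₁s i a b
  have hp1 := fun i => h5 4 M ι ch hA K hKc i _ (hK₁'c i) (hK₁'s i)
  choose C₂ hC₂ hC₂b using hp1
  set S₁ : ι → ℝ := fun i => ∑ a, ∑ b, C₁ i a b with hS₁
  have hS₁0 : ∀ i, 0 ≤ S₁ i := fun i =>
    Finset.sum_nonneg fun a _ => Finset.sum_nonneg fun b _ => hC₁ i a b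
  set A : ℝ := 1 + ∑ i, C₂ i * (16 + S₁ i) with hAdef
  have hsumA : 0 ≤ ∑ i, C₂ i * (16 + S₁ i) :=
    Finset.sum_nonneg fun i _ => mul_nonneg (hC₂ i) (by linarith [hS₁0 i])
  have hA1 : 1 ≤ A := by linarith
  obtain ⟨δ, hδ, hδ1, hδη⟩ := d9_num A η s hA1 hη hs1
  have hcut' := fun i a b => hcut i a b δ hδ
  choose f' hf't hf'0 hf'b using hcut'
  -- step 2: transfer
  have htest : ∀ i a b, TestIn (dom ch i o) (f' i a b) := by
    intro i a b
    obtain ⟨hsm, K', hK', hK's, h0⟩ := hf't i a b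
    refine ⟨hsm, K', hK', fun y hy => ?_, h0⟩
    have h1 := hK's hy
    refine ⟨h1.1, ?_⟩
    by_contra hcon
    exact h1.2 (hG.cod i y h1.1 hcon)
  have htr := fun i => h2 M ι ch hA i o (f' i) (htest i)
  choose g hgt hgp using htr
  -- step 3: approximation
  have hone := fun i a b => d9_one h3 h4 a b (g i a b) (hG.tgt ▸ hgt i a b)
  choose K₃ hK₃c hK₃s hK₃0 happ using hone
  set K₃' : Set (Eu 4) := ⋃ i, ⋃ a, ⋃ b, K₃ i a b with hK₃'
  have hK₃'c : IsCompact K₃' :=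
    isCompact_iUnion fun i => isCompact_iUnion fun a => isCompact_iUnion fun b => hK₃c i a b
  have hK₃'s : K₃' ⊆ (ch o).target := by
    rw [hG.tgt]
    exact iUnion_subset fun i => iUnion_subset fun a => iUnion_subset fun b => hK₃s i a b
  have hK₃m : ∀ i a b, K₃ i a b ⊆ K₃' := fun i a b x hx =>
    mem_iUnion.2 ⟨i, mem_iUnion.2 ⟨a, mem_iUnion.2 ⟨b, hx⟩⟩⟩
  obtain ⟨C₃, hC₃, hC₃b⟩ := h5 4 M ι ch hA K hKc o _ hK₃'c hK₃'s
  set V : ℝ := (volume : Measure (Eu 4)).real K₃' with hV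
  have hV0 : 0 ≤ V := measureReal_nonneg
  set N : ℝ := (Fintype.card ι : ℝ) * 16 with hN
  have hN0 : 0 ≤ N := by positivity
  obtain ⟨δ₂, hδ₂, hδ₂b⟩ : ∃ δ₂ : ℝ, 0 < δ₂ ∧ C₃ * (N * δ₂ * V + N * δ₂ * V) ≤ δ := by
    refine ⟨δ / (2 * C₃ * N * V + 1), by positivity, ?_⟩
    have e1 : C₃ * (N * (δ / (2 * C₃ * N * V + 1)) * V + N * (δ / (2 * C₃ * N * V + 1)) * V) =
        δ * (2 * C₃ * N * V) / (2 * C₃ * N * V + 1) := by ring
    rw [e1, div_le_iff₀ (by positivity)]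
    nlinarith
  have happ' := fun i a b => happ i a b δ₂ hδ₂
  choose v hvV hvb using happ'
  have hVt : D9V K₃' (∑ i, ∑ a, ∑ b, v i a b) :=
    d9V_sum _ _ fun i _ => d9V_sum _ _ fun a _ => d9V_sum _ _ fun b _ =>
      d9V_mono (hK₃m i a b) (hvV i a b)
  obtain ⟨m, d, hd, hveq⟩ := hVt
  refine ⟨m, fun k => (d k).1, fun k => (d k).2.1, fun k => (d k).2.2.1, fun k => (d k).2.2.2,
    fun k => (hd k).1, ?_⟩
  -- the error fields
  set u : ι → Eu 4 → Eu 4 := fun i z => ∑ p : Fin 4 × Fin 4,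
    (jgrad p.1 p.2 (f i p.1 p.2) z - jgrad p.1 p.2 (f' i p.1 p.2) z) with hu
  set uo : Eu 4 → Eu 4 := fun z => ∑ q : ι × (Fin 4 × Fin 4),
    (jgrad q.2.1 q.2.2 (g q.1 q.2.1 q.2.2) z - v q.1 q.2.1 q.2.2 z) with huo
  have hwi : ∀ i (p : Fin 4 × Fin 4), ContDiff ℝ ∞
      (fun z => jgrad p.1 p.2 (f i p.1 p.2) z - jgrad p.1 p.2 (f' i p.1 p.2) z) := fun i p =>
    (d9_jg_smooth _ _ (hf i p.1 p.2).1).sub (d9_jg_smooth _ _ (hf't i p.1 p.2).1)
  have hus : ∀ i, ContDiff ℝ ∞ (u i) := fun i => ContDiff.sum fun p _ => hwi i p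
  have hu0 : ∀ i, ∀ y ∉ (⋃ a, ⋃ b, K₁ i a b), u i y = 0 := by
    intro i y hy
    refine Finset.sum_eq_zero fun p _ => ?_
    rw [← d9_jg_sub _ _ (hf i p.1 p.2).1 (hf't i p.1 p.2).1]
    refine d9_jg_out _ _ (hK₁c i p.1 p.2) (hf'0 i p.1 p.2) y fun hc => hy ?_
    exact mem_iUnion.2 ⟨p.1, mem_iUnion.2 ⟨p.2, hc⟩⟩
  have hwo : ∀ q : ι × (Fin 4 × Fin 4), ContDiff ℝ ∞
      (fun z => jgrad q.2.1 q.2.2 (g q.1 q.2.1 q.2.2) z - v q.1 q.2.1 q.2.2 z) := fun q =>
    (d9_jg_smooth _ _ (hgt q.1 q.2.1 q.2.2).1).sub (d9V_smooth (hvV q.1 q.2.1 q.2.2))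
  have huos : ContDiff ℝ ∞ uo := ContDiff.sum fun q _ => hwo q
  have hwo0 : ∀ q : ι × (Fin 4 × Fin 4), ∀ y ∉ K₃',
      jgrad q.2.1 q.2.2 (g q.1 q.2.1 q.2.2) y - v q.1 q.2.1 q.2.2 y = 0 := by
    intro q y hy
    rw [hK₃0 q.1 q.2.1 q.2.2 y fun hc => hy (hK₃m _ _ _ hc),
      d9V_out (hvV q.1 q.2.1 q.2.2) y fun hc => hy (hK₃m _ _ _ hc), sub_zero]
  have huo0 : ∀ y ∉ K₃', uo y = 0 := fun y hy => Finset.sum_eq_zero fun q _ => hwo0 q y hy
  -- the decomposition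
  have hdec : (fun a y => X a y - ∑ k, push ch o
      (vfg (d k).1 (d k).2.1 (d k).2.2.1 (d k).2.2.2) a y) =
      fun a y => (∑ i, push ch i (u i) a y) + push ch o uo a y := by
    funext j y
    have e1 : ∀ i, push ch i (fun z => ∑ a, ∑ b, jgrad a b (f i a b) z) j y =
        push ch i (u i) j y + push ch o (fun z => ∑ a, ∑ b, jgrad a b (g i a b) z) j y := by
      intro i
      have e2 : u i = fun z => (∑ a, ∑ b, jgrad a b (f i a b) z) -
          (∑ a, ∑ b, jgrad a b (f' i a b) z) := by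
        funext z
        rw [hu]
        simp only
        rw [Finset.sum_sub_distrib, Fintype.sum_prod_type, Fintype.sum_prod_type]
      rw [e2, d9_push_sub, ← hgp i j y]
      abel
    have e3 : ∑ k, push ch o (vfg (d k).1 (d k).2.1 (d k).2.2.1 (d k).2.2.2) j y =
        push ch o (∑ i, ∑ a, ∑ b, v i a b) j y := by
      rw [hveq, ← d9_push_sum ch o Finset.univ
        (fun k => vfg (d k).1 (d k).2.1 (d k).2.2.1 (d k).2.2.2)]
    have e4 : uo = fun z => (∑ i, ∑ a, ∑ b, jgrad a b (g i a b) z) -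
        (∑ i, ∑ a, ∑ b, v i a b) z := by
      funext z
      rw [huo]
      simp only [Finset.sum_apply]
      rw [Finset.sum_sub_distrib, Fintype.sum_prod_type, Fintype.sum_prod_type]
      simp only [Fintype.sum_prod_type]
    rw [hXf j y, Finset.sum_congr rfl fun i _ => e1 i, Finset.sum_add_distrib, e3, e4,
      d9_push_sub, d9_push_sum ch o Finset.univ (fun i z => ∑ a, ∑ b, jgrad a b (g i a b) z)]
    abel
  rw [hdec]
  -- smoothness of the fields
  have hfi : ∀ i j, ContDiffOn ℝ ∞ (push ch i (u i) j) (ch j).target := fun i j =>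
    (PushKA.fld hA i _ (hK₁'c i) (hK₁'s i) (u i) (hus i) (hu0 i)).smooth j
  have hfo : ∀ j, ContDiffOn ℝ ∞ (push ch o uo j) (ch j).target := fun j =>
    (PushKA.fld hA o _ hK₃'c hK₃'s uo huos huo0).smooth j
  have hfs : ∀ j, ContDiffOn ℝ ∞ (fun y => ∑ i, push ch i (u i) j y) (ch j).target := fun j =>
    ContDiffOn.sum fun i _ => hfi i j
  -- the integrals
  have hui : ∀ i, (∫⁻ y, ‖u i y‖ₑ) ≤ ENNReal.ofReal (16 * δ) ∧
      (∫⁻ y, ‖fderiv ℝ (u i) y‖ₑ) ≤ ENNReal.ofReal (S₁ i) := by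
    intro i
    have h6 := d9_int_sum (Finset.univ : Finset (Fin 4 × Fin 4)) (fun p z =>
      jgrad p.1 p.2 (f i p.1 p.2) z - jgrad p.1 p.2 (f' i p.1 p.2) z) (hwi i)
    constructor
    · refine h6.1.trans ((Finset.sum_le_sum fun p _ => (hf'b i p.1 p.2 p.1 p.2).1).trans ?_)
      rw [← ENNReal.ofReal_sum_of_nonneg fun _ _ => hδ.le]
      refine ENNReal.ofReal_le_ofReal (le_of_eq ?_)
      simp
    · refine h6.2.trans ((Finset.sum_le_sum fun p _ => (hf'b i p.1 p.2 p.1 p.2).2).trans ?_)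
      rw [← ENNReal.ofReal_sum_of_nonneg fun p _ => hC₁ i p.1 p.2]
      refine ENNReal.ofReal_le_ofReal (le_of_eq ?_)
      rw [Fintype.sum_prod_type]
  have hcardq : ∀ c : ℝ, ∑ _q : ι × (Fin 4 × Fin 4), c = N * c := by
    intro c
    rw [Finset.sum_const, Finset.card_univ, Fintype.card_prod, Fintype.card_prod, Fintype.card_fin,
      nsmul_eq_mul, hN]
    push_cast
    ring
  have huob : ∀ y, ‖uo y‖ ≤ N * δ₂ ∧ ‖fderiv ℝ uo y‖ ≤ N * δ₂ := by
    intro y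
    constructor
    · refine (norm_sum_le _ _).trans ?_
      rw [← hcardq]
      exact Finset.sum_le_sum fun q _ => (hvb q.1 q.2.1 q.2.2 y).1
    · have e5 : fderiv ℝ uo y = ∑ q : ι × (Fin 4 × Fin 4), fderiv ℝ
          (fun z => jgrad q.2.1 q.2.2 (g q.1 q.2.1 q.2.2) z - v q.1 q.2.1 q.2.2 z) y :=
        fderiv_fun_sum fun q _ => ((hwo q).differentiable (by simp)) y
      rw [e5]
      refine (norm_sum_le _ _).trans ?_
      rw [← hcardq]
      exact Finset.sum_le_sum fun q _ => (hvb q.1 q.2.1 q.2.2 y).2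
  have hNδ : 0 ≤ N * δ₂ := by positivity
  have ho1 := d9_int_bd hK₃'c uo (N * δ₂) hNδ (fun y => (huob y).1) huo0
  have ho2 := d9_int_bd hK₃'c (fderiv ℝ uo) (N * δ₂) hNδ (fun y => (huob y).2)
    (d9_fd_out hK₃'c huo0)
  -- the norms
  have hL : L1M K (fun a y => (∑ i, push ch i (u i) a y) + push ch o uo a y) ≤
      ENNReal.ofReal (A * δ) := by
    refine (d9_L1_add hKc (X := fun a y => ∑ i, push ch i (u i) a y) (Y := push ch o uo)
      hfs).trans ?_
    have a1 : L1M K (fun a y => ∑ i, push ch i (u i) a y) ≤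
        ∑ i, ENNReal.ofReal (C₂ i * (16 * δ)) := by
      refine (d9_sum hKc Finset.univ (fun i => push ch i (u i)) hfi).1.trans ?_
      refine Finset.sum_le_sum fun i _ => ?_
      refine (hC₂b i (u i) (hus i) (hu0 i)).1.trans ?_
      rw [ENNReal.ofReal_mul (hC₂ i)]
      exact mul_le_mul' le_rfl (hui i).1
    have a2 : L1M K (push ch o uo) ≤ ENNReal.ofReal δ := by
      refine (hC₃b uo huos huo0).1.trans ?_
      refine (mul_le_mul' le_rfl ho1).trans ?_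
      rw [← ENNReal.ofReal_mul hC₃]
      refine ENNReal.ofReal_le_ofReal ?_
      have : 0 ≤ C₃ * (N * δ₂ * V) := by positivity
      linarith
    refine (add_le_add a1 a2).trans ?_
    rw [← ENNReal.ofReal_sum_of_nonneg fun i _ => mul_nonneg (hC₂ i) (by positivity),
      ← ENNReal.ofReal_add (Finset.sum_nonneg fun i _ => mul_nonneg (hC₂ i) (by positivity)) hδ.le]
    refine ENNReal.ofReal_le_ofReal ?_
    have a3 : ∑ i, C₂ i * (16 * δ) ≤ (∑ i, C₂ i * (16 + S₁ i)) * δ := by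
      rw [Finset.sum_mul]
      refine Finset.sum_le_sum fun i _ => ?_
      nlinarith [mul_nonneg (mul_nonneg (hC₂ i) (hS₁0 i)) hδ.le]
    rw [hAdef]
    linarith
  have hW : W1M K (fun a y => (∑ i, push ch i (u i) a y) + push ch o uo a y) ≤
      ENNReal.ofReal A := by
    refine (d9_W1_add hKc (X := fun a y => ∑ i, push ch i (u i) a y) (Y := push ch o uo)
      hfs hfo).trans ?_
    have a1 : W1M K (fun a y => ∑ i, push ch i (u i) a y) ≤
        ∑ i, ENNReal.ofReal (C₂ i * (16 * δ + S₁ i)) := by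
      refine (d9_sum hKc Finset.univ (fun i => push ch i (u i)) hfi).2.trans ?_
      refine Finset.sum_le_sum fun i _ => ?_
      refine (hC₂b i (u i) (hus i) (hu0 i)).2.trans ?_
      rw [ENNReal.ofReal_mul (hC₂ i), ENNReal.ofReal_add (by positivity) (hS₁0 i)]
      exact mul_le_mul' le_rfl (add_le_add (hui i).1 (hui i).2)
    have a2 : W1M K (push ch o uo) ≤ ENNReal.ofReal 1 := by
      refine (hC₃b uo huos huo0).2.trans ?_
      refine (mul_le_mul' le_rfl (add_le_add ho1 ho2)).trans ?_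
      rw [← ENNReal.ofReal_add (by positivity) (by positivity), ← ENNReal.ofReal_mul hC₃]
      exact ENNReal.ofReal_le_ofReal (hδ₂b.trans hδ1)
    refine (add_le_add a1 a2).trans ?_
    have a4 : ∀ i, 0 ≤ C₂ i * (16 * δ + S₁ i) := fun i =>
      mul_nonneg (hC₂ i) (by linarith [hS₁0 i, hδ])
    rw [← ENNReal.ofReal_sum_of_nonneg fun i _ => a4 i,
      ← ENNReal.ofReal_add (Finset.sum_nonneg fun i _ => a4 i) zero_le_one]
    refine ENNReal.ofReal_le_ofReal ?_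
    have a3 : ∑ i, C₂ i * (16 * δ + S₁ i) ≤ ∑ i, C₂ i * (16 + S₁ i) := by
      refine Finset.sum_le_sum fun i _ => mul_le_mul_of_nonneg_left ?_ (hC₂ i)
      linarith
    rw [hAdef]
    linarith
  have hA0 : 0 < A := by linarith
  unfold EM
  calc _ ≤ ENNReal.ofReal (A * δ) ^ (1 - s) * ENNReal.ofReal A ^ s :=
        mul_le_mul' (ENNReal.rpow_le_rpow hL (by linarith)) (ENNReal.rpow_le_rpow hW hs)
    _ = ENNReal.ofReal ((A * δ) ^ (1 - s) * A ^ s) := by
        rw [ENNReal.ofReal_rpow_of_pos (by positivity), ENNReal.ofReal_rpow_of_pos hA0,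
          ← ENNReal.ofReal_mul (by positivity)]
    _ ≤ ENNReal.ofReal η := ENNReal.ofReal_le_ofReal hδη

end Pool.Agent.H6.ST
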