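import Pool.Agent.H6.ST.DE.Defs
import Pool.Agent.H68.GM.MFamK

/-! # The cost functional is continuous on smooth families -/

namespace Pool.Agent.H6.ST

open MeasureTheory Set Pool.Agent.H68.VD Pool.Agent.H68.GM
open scoped ENNReal ContDiff Topology

noncomputable section

namespace EMcA

variable {n : ℕ}

section param

variable {F : Type*} [NormedAddCommGroup F]

theorem fixC {K : Set (Eu n)} {g : (ℝ × ℝ) × Eu n → F}
    (hg : ∀ q : ℝ × ℝ, ∀ y ∈ K, ContinuousAt g (q, y)) (q : ℝ × ℝ) :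
    ContinuousOn (fun y => g (q, y)) K := by
  intro y hy
  have h1 : ContinuousAt (fun y : Eu n => (q, y)) y := continuousAt_const.prodMk continuousAt_id
  exact (ContinuousAt.comp (f := fun y : Eu n => (q, y)) (g := g) (hg q y hy)
    h1).continuousWithinAt

theorem fixI {K : Set (Eu n)} (hK : IsCompact K) {g : (ℝ × ℝ) × Eu n → F}
    (hg : ∀ q : ℝ × ℝ, ∀ y ∈ K, ContinuousAt g (q, y)) (q : ℝ × ℝ) :
    IntegrableOn (fun y => g (q, y)) K :=
  (fixC hg q).integrableOn_compact hK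

theorem parC {K : Set (Eu n)} (hK : IsCompact K) {g : (ℝ × ℝ) × Eu n → F}
    (hg : ∀ q : ℝ × ℝ, ∀ y ∈ K, ContinuousAt g (q, y)) :
    Continuous (fun q : ℝ × ℝ => ∫⁻ y in K, ‖g (q, y)‖ₑ) := by
  have h1 : (fun q : ℝ × ℝ => ∫⁻ y in K, ‖g (q, y)‖ₑ) =
      fun q : ℝ × ℝ => ENNReal.ofReal (∫ y in K, ‖g (q, y)‖) := by
    funext q
    exact (ofReal_integral_norm_eq_lintegral_enorm (fixI hK hg q)).symm
  rw [h1]
  refine ENNReal.continuous_ofReal.comp ?_
  rw [continuous_iff_continuousAt]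
  intro q0
  have hc : IsCompact (Metric.closedBall q0 1 ×ˢ K) := (isCompact_closedBall q0 1).prod hK
  have hgc : ContinuousOn g (Metric.closedBall q0 1 ×ˢ K) := by
    rintro ⟨q, y⟩ hq
    exact (hg q y hq.2).continuousWithinAt
  obtain ⟨C, hC⟩ := hc.exists_bound_of_continuousOn hgc
  have hfin : IsFiniteMeasure ((volume : Measure (Eu n)).restrict K) :=
    ⟨by rw [Measure.restrict_apply_univ]; exact hK.measure_lt_top⟩
  refine continuousAt_of_dominated (bound := fun _ => C) ?_ ?_ (integrable_const C) ?_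
  · exact Filter.Eventually.of_forall fun q =>
      ((fixC hg q).aestronglyMeasurable hK.measurableSet).norm
  · filter_upwards [Metric.closedBall_mem_nhds q0 one_pos] with q hq
    filter_upwards [ae_restrict_mem hK.measurableSet] with y hy
    rw [norm_norm]
    exact hC (q, y) ⟨hq, hy⟩
  · filter_upwards [ae_restrict_mem hK.measurableSet] with y hy
    have h2 : ContinuousAt (fun q : ℝ × ℝ => (q, y)) q0 :=
      continuousAt_id.prodMk continuousAt_const
    exact (ContinuousAt.comp (f := fun q : ℝ × ℝ => (q, y)) (g := g) (hg q0 y hy) h2).norm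

theorem parF {K : Set (Eu n)} (hK : IsCompact K) {g : (ℝ × ℝ) × Eu n → F}
    (hg : ∀ q : ℝ × ℝ, ∀ y ∈ K, ContinuousAt g (q, y)) (q : ℝ × ℝ) :
    (∫⁻ y in K, ‖g (q, y)‖ₑ) ≠ ⊤ :=
  (fixI hK hg q).2.ne

end param

variable {M : Type} [TopologicalSpace M] {ι : Type}
  {ch : ι → OpenPartialHomeomorph M (Eu n)}

/-- The velocities of a family of paths. -/
def V (ch : ι → OpenPartialHomeomorph M (Eu n)) [Nonempty M] (H : ℝ × ℝ → M → M) (i : ι)
    (q : (ℝ × ℝ) × Eu n) : Eu n :=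
  mvel ch (fun θ => H (q.1.1, θ)) q.1.2 i q.2

variable [Nonempty M]

theorem smV {H : ℝ × ℝ → M → M} (hV : VolAtlas ch) (h : MFam ch H) (i : ι) (p : ℝ × ℝ) (y : Eu n)
    (hy : y ∈ (ch i).target) : ContDiffAt ℝ ∞ (V ch H i) (p, y) := by
  obtain ⟨s, t⟩ := p
  obtain ⟨k, hk⟩ := hV.cover (Function.invFun (H (s, t)) ((ch i).symm y))
  have hq : ((s, t), y) ∈ MFamA.lD ch (fun e => Function.invFun (H e)) i k := ⟨hy, hk⟩
  refine (MFamA.velForm hV h ((0 : ℝ), (1 : ℝ)) hq).congr_of_eventuallyEq ?_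
  filter_upwards [MFamA.evD (MFamA.isFamInv hV h) hq] with q hq'
  have h2 : HasDerivAt (fun θ : ℝ => (q.1.1, θ)) ((0 : ℝ), (1 : ℝ)) q.1.2 :=
    (hasDerivAt_const _ _).prodMk (hasDerivAt_id _)
  exact MFamA.velF h h2 hq'.1 hq'.2

theorem dV {H : ℝ × ℝ → M → M} (hV : VolAtlas ch) (h : MFam ch H) (i : ι) (p : ℝ × ℝ) (y : Eu n)
    (hy : y ∈ (ch i).target) :
    fderiv ℝ (mvel ch (fun θ => H (p.1, θ)) p.2 i) y =
      (fderiv ℝ (V ch H i) (p, y)).comp (ContinuousLinearMap.inr ℝ (ℝ × ℝ) (Eu n)) := by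
  have h1 : HasFDerivAt (fun y : Eu n => (p, y)) (ContinuousLinearMap.inr ℝ (ℝ × ℝ) (Eu n)) y :=
    hasFDerivAt_prodMk_right p y
  have h2 := ((smV hV h i p y hy).differentiableAt (by simp)).hasFDerivAt
  exact (HasFDerivAt.comp (f := fun y : Eu n => (p, y)) y h2 h1).fderiv

theorem cdV {H : ℝ × ℝ → M → M} (hV : VolAtlas ch) (h : MFam ch H) (i : ι) (p : ℝ × ℝ) (y : Eu n)
    (hy : y ∈ (ch i).target) :
    ContinuousAt (fun q => (fderiv ℝ (V ch H i) q).comp
      (ContinuousLinearMap.inr ℝ (ℝ × ℝ) (Eu n))) (p, y) := by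
  have h1 : ContDiffAt ℝ ∞ (fderiv ℝ (V ch H i)) (p, y) :=
    (smV hV h i p y hy).fderiv_right (by simp)
  exact h1.continuousAt.clm_comp continuousAt_const

theorem L1c [Fintype ι] {K : ι → Set (Eu n)} (hK : KCov ch K) {H : ℝ × ℝ → M → M}
    (hV : VolAtlas ch) (h : MFam ch H) :
    Continuous (fun q : ℝ × ℝ => L1M K (mvel ch (fun θ => H (q.1, θ)) q.2)) := by
  unfold L1M
  refine continuous_finsetSum _ fun i _ => ?_
  exact parC (hK.cpt i) (g := V ch H i) fun q y hy =>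
    (smV hV h i q y (hK.sub i hy)).continuousAt

theorem L1f [Fintype ι] {K : ι → Set (Eu n)} (hK : KCov ch K) {H : ℝ × ℝ → M → M}
    (hV : VolAtlas ch) (h : MFam ch H) (q : ℝ × ℝ) :
    L1M K (mvel ch (fun θ => H (q.1, θ)) q.2) ≠ ⊤ := by
  unfold L1M
  rw [ENNReal.sum_ne_top]
  intro i _
  exact parF (hK.cpt i) (g := V ch H i) (fun q y hy =>
    (smV hV h i q y (hK.sub i hy)).continuousAt) q

theorem W1e [Fintype ι] {K : ι → Set (Eu n)} (hK : KCov ch K) {H : ℝ × ℝ → M → M}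
    (hV : VolAtlas ch) (h : MFam ch H) (q : ℝ × ℝ) :
    W1M K (mvel ch (fun θ => H (q.1, θ)) q.2) = ∑ i, ((∫⁻ y in K i, ‖V ch H i (q, y)‖ₑ) +
      ∫⁻ y in K i, ‖(fderiv ℝ (V ch H i) (q, y)).comp
        (ContinuousLinearMap.inr ℝ (ℝ × ℝ) (Eu n))‖ₑ) := by
  unfold W1M
  refine Finset.sum_congr rfl fun i _ => ?_
  have h1 := ((fixC (g := V ch H i) (fun q y hy =>
    (smV hV h i q y (hK.sub i hy)).continuousAt) q).aestronglyMeasurable
      (μ := (volume : Measure (Eu n))) (hK.cpt i).measurableSet).enorm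
  rw [← lintegral_add_left' h1]
  refine lintegral_congr_ae ?_
  filter_upwards [ae_restrict_mem (hK.cpt i).measurableSet] with y hy
  rw [dV hV h i q y (hK.sub i hy)]
  rfl

theorem W1c [Fintype ι] {K : ι → Set (Eu n)} (hK : KCov ch K) {H : ℝ × ℝ → M → M}
    (hV : VolAtlas ch) (h : MFam ch H) :
    Continuous (fun q : ℝ × ℝ => W1M K (mvel ch (fun θ => H (q.1, θ)) q.2)) := by
  simp only [W1e hK hV h]
  refine continuous_finsetSum _ fun i _ => ?_
  refine (parC (hK.cpt i) (g := V ch H i) fun q y hy =>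
    (smV hV h i q y (hK.sub i hy)).continuousAt).add ?_
  exact parC (hK.cpt i) (g := fun q => (fderiv ℝ (V ch H i) q).comp
    (ContinuousLinearMap.inr ℝ (ℝ × ℝ) (Eu n))) fun q y hy => cdV hV h i q y (hK.sub i hy)

theorem W1f [Fintype ι] {K : ι → Set (Eu n)} (hK : KCov ch K) {H : ℝ × ℝ → M → M}
    (hV : VolAtlas ch) (h : MFam ch H) (q : ℝ × ℝ) :
    W1M K (mvel ch (fun θ => H (q.1, θ)) q.2) ≠ ⊤ := by
  rw [W1e hK hV h, ENNReal.sum_ne_top]
  intro i _
  rw [ENNReal.add_ne_top]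
  refine ⟨parF (hK.cpt i) (g := V ch H i) (fun q y hy =>
    (smV hV h i q y (hK.sub i hy)).continuousAt) q, ?_⟩
  exact parF (hK.cpt i) (g := fun q => (fderiv ℝ (V ch H i) q).comp
    (ContinuousLinearMap.inr ℝ (ℝ × ℝ) (Eu n))) (fun q y hy => cdV hV h i q y (hK.sub i hy)) q

end EMcA

theorem em_cont : EMcont := by
  intro n M _ _ _ _ ι _ ch hV K hK s hs hs1 H hH
  unfold EM
  rw [continuous_iff_continuousAt]
  intro q
  have h1 := EMcA.L1c hK hV hH
  have h2 := EMcA.W1c hK hV hH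
  have h3 := EMcA.L1f hK hV hH q
  have h4 := EMcA.W1f hK hV hH q
  have h5 : Continuous (fun q : ℝ × ℝ => L1M K (mvel ch (fun θ => H (q.1, θ)) q.2) ^ (1 - s)) :=
    (ENNReal.continuous_rpow_const).comp h1
  have h6 : Continuous (fun q : ℝ × ℝ => W1M K (mvel ch (fun θ => H (q.1, θ)) q.2) ^ s) :=
    (ENNReal.continuous_rpow_const).comp h2
  have h7 : L1M K (mvel ch (fun θ => H (q.1, θ)) q.2) ^ (1 - s) ≠ ⊤ :=
    ENNReal.rpow_ne_top_of_nonneg (by linarith) h3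
  have h8 : W1M K (mvel ch (fun θ => H (q.1, θ)) q.2) ^ s ≠ ⊤ :=
    ENNReal.rpow_ne_top_of_nonneg hs h4
  exact ENNReal.Tendsto.mul (h5.tendsto q) (Or.inr h8) (h6.tendsto q) (Or.inr h7)

end

end Pool.Agent.H6.ST
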