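import Pool.Agent.H6.ST.DE.Defs

/-! # The sharp trichotomy (ST), row ST-DE4: skew gradients of product functions -/

set_option autoImplicit false

namespace Pool.Agent.H6.ST

open MeasureTheory Set Pool.Agent.H68.VD Pool.Agent.H68.GM
open scoped ENNReal ContDiff

noncomputable section

/-! ### Functions with bounded values and derivatives -/

/-- The coordinate as a continuous linear map. -/
def de4_pr (k : Fin 4) : Eu 4 →L[ℝ] ℝ := EuclideanSpace.proj k

theorem de4_pr_apply (k : Fin 4) (x : Eu 4) : de4_pr k x = x k := rfl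

theorem de4_pr_norm (k : Fin 4) : ‖de4_pr k‖ ≤ 1 := by
  refine ContinuousLinearMap.opNorm_le_bound _ zero_le_one fun x => ?_
  rw [one_mul, de4_pr_apply]
  exact PiLp.norm_apply_le x k

theorem de4_ev_norm (k : Fin 4) : ‖(ev k : Eu 4)‖ = 1 := by simp [ev]

theorem de4_ev_self (k : Fin 4) : (ev k : Eu 4) k = 1 := by simp [ev]

theorem de4_ev_ne {k m : Fin 4} (h : m ≠ k) : (ev k : Eu 4) m = 0 := by
  simp [ev, h]

/-- `u` is smooth, `u` and its derivative are bounded by `c`. -/
structure De4B (u : Eu 4 → ℝ) (c : ℝ) : Prop where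
  sm : ContDiff ℝ ∞ u
  b0 : ∀ x, |u x| ≤ c
  b1 : ∀ x, ‖fderiv ℝ u x‖ ≤ c

theorem De4B.nn {u : Eu 4 → ℝ} {c : ℝ} (h : De4B u c) : 0 ≤ c := (abs_nonneg _).trans (h.b0 0)

theorem De4B.dif {u : Eu 4 → ℝ} {c : ℝ} (h : De4B u c) : Differentiable ℝ u :=
  h.sm.differentiable (by simp)

theorem De4B.mono {u : Eu 4 → ℝ} {c d : ℝ} (h : De4B u c) (hcd : c ≤ d) : De4B u d :=
  ⟨h.sm, fun x => (h.b0 x).trans hcd, fun x => (h.b1 x).trans hcd⟩

theorem De4B.mul {u v : Eu 4 → ℝ} {c d : ℝ} (h : De4B u c) (h' : De4B v d) :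
    De4B (fun x => u x * v x) (2 * c * d) := by
  have hc := h.nn
  have hd := h'.nn
  refine ⟨h.sm.mul h'.sm, fun x => ?_, fun x => ?_⟩
  · rw [abs_mul]
    have h1 := mul_le_mul (h.b0 x) (h'.b0 x) (abs_nonneg _) hc
    nlinarith [mul_nonneg hc hd]
  · rw [fderiv_fun_mul (h.dif x) (h'.dif x)]
    have h1 : ‖u x • fderiv ℝ v x‖ ≤ c * d := by
      rw [norm_smul, Real.norm_eq_abs]
      exact mul_le_mul (h.b0 x) (h'.b1 x) (norm_nonneg _) hc
    have h2 : ‖v x • fderiv ℝ u x‖ ≤ d * c := by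
      rw [norm_smul, Real.norm_eq_abs]
      exact mul_le_mul (h'.b0 x) (h.b1 x) (norm_nonneg _) hd
    have h3 := norm_add_le (u x • fderiv ℝ v x) (v x • fderiv ℝ u x)
    linarith

theorem De4B.prod {S : Finset (Fin 4)} {u : Fin 4 → Eu 4 → ℝ} (h : ∀ k, ∃ c, De4B (u k) c) :
    ∃ c, De4B (fun x => ∏ k ∈ S, u k x) c := by
  classical
  induction S using Finset.induction_on with
  | empty =>
    refine ⟨1, ?_, fun x => ?_, fun x => ?_⟩
    · simp only [Finset.prod_empty]
      exact contDiff_const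
    · simp
    · simp only [Finset.prod_empty]
      simp
  | insert a S ha ih =>
    obtain ⟨c, hc⟩ := h a
    obtain ⟨d, hd⟩ := ih
    refine ⟨2 * c * d, ?_⟩
    have h1 : (fun x => ∏ k ∈ insert a S, u k x) = fun x => u a x * ∏ k ∈ S, u k x := by
      funext x
      rw [Finset.prod_insert ha]
    rw [h1]
    exact hc.mul hd

/-- smooth functions of one variable supported in an interval -/
theorem de4_bdd (c : ℝ → ℝ) (hc : ContDiff ℝ ∞ c) (p q : ℝ) (h : ∀ t, c t ≠ 0 → p ≤ t ∧ t ≤ q) :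
    ∃ C : ℝ, 0 ≤ C ∧ ∀ t, |c t| ≤ C := by
  obtain ⟨C, hC⟩ := isCompact_Icc.exists_bound_of_continuousOn (s := Icc p q)
    hc.continuous.continuousOn
  refine ⟨max C 0, le_max_right _ _, fun t => ?_⟩
  by_cases ht : c t = 0
  · rw [ht, abs_zero]
    exact le_max_right _ _
  · exact (hC t (h t ht)).trans (le_max_left _ _)

theorem de4_deriv_supp (c : ℝ → ℝ) (p q : ℝ) (h : ∀ t, c t ≠ 0 → p ≤ t ∧ t ≤ q) :
    ∀ t, deriv c t ≠ 0 → p ≤ t ∧ t ≤ q := by
  intro t ht
  by_contra h1
  apply ht
  have h3 : (Icc p q)ᶜ ∈ nhds t := isClosed_Icc.isOpen_compl.mem_nhds h1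
  have h4 : c =ᶠ[nhds t] fun _ => 0 := by
    filter_upwards [h3] with y hy
    by_contra h5
    exact hy (h y h5)
  rw [h4.deriv_eq]
  simp

theorem de4_deriv_smooth (c : ℝ → ℝ) (hc : ContDiff ℝ ∞ c) : ContDiff ℝ ∞ (deriv c) :=
  (contDiff_infty_iff_deriv.1 hc).2

theorem de4_hfd (c : ℝ → ℝ) (hc : ContDiff ℝ ∞ c) (k : Fin 4) (x : Eu 4) :
    HasFDerivAt (fun x : Eu 4 => c (x k)) (deriv c (x k) • de4_pr k) x := by
  have h1 : HasDerivAt c (deriv c (x k)) (x k) :=
    (hc.differentiable (by simp) _).hasDerivAt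
  exact h1.comp_hasFDerivAt x (de4_pr k).hasFDerivAt

theorem de4_coord (c : ℝ → ℝ) (hc : ContDiff ℝ ∞ c) (p q : ℝ)
    (h : ∀ t, c t ≠ 0 → p ≤ t ∧ t ≤ q) (k : Fin 4) : ∃ C, De4B (fun x : Eu 4 => c (x k)) C := by
  obtain ⟨C, hC0, hC⟩ := de4_bdd c hc p q h
  obtain ⟨D, hD0, hD⟩ := de4_bdd (deriv c) (de4_deriv_smooth c hc) p q (de4_deriv_supp c p q h)
  refine ⟨C + D, ?_, fun x => ?_, fun x => ?_⟩
  · exact hc.comp (de4_pr k).contDiff
  · have := hC (x k)
    linarith
  · rw [(de4_hfd c hc k x).fderiv, norm_smul, Real.norm_eq_abs]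
    have h1 := mul_le_mul (hD (x k)) (de4_pr_norm k) (norm_nonneg _) hD0
    linarith

/-! ### Estimates in one variable -/

theorem de4_lip (c : ℝ → ℝ) (hc : ContDiff ℝ ∞ c) (M : ℝ) (hM : ∀ t, |deriv c t| ≤ M) (t v : ℝ) :
    |c t - c (t - v)| ≤ M * |v| := by
  have h1 := Convex.norm_image_sub_le_of_norm_deriv_le (s := univ) (f := c) (C := M)
    (fun x _ => hc.differentiable (by simp) x) (fun x _ => hM x) convex_univ (mem_univ (t - v))
    (mem_univ t)
  have h2 : t - (t - v) = v := by ring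
  rw [h2] at h1
  exact h1

theorem de4_tay (c : ℝ → ℝ) (hc : ContDiff ℝ ∞ c) (M : ℝ) (hM : ∀ t, |deriv (deriv c) t| ≤ M)
    (t v : ℝ) : |deriv c t * v - (c t - c (t - v))| ≤ M * |v| * |v| := by
  have hM0 : 0 ≤ M := (abs_nonneg _).trans (hM 0)
  have hc' := de4_deriv_smooth c hc
  have hd : ∀ w : ℝ, HasDerivAt (fun w => deriv c t * w - (c t - c (t - w)))
      (deriv c t - deriv c (t - w)) w := by
    intro w
    have h1 : HasDerivAt (fun w => t - w) (-1) w := by
      simpa using (hasDerivAt_id w).const_sub t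
    have h2 : HasDerivAt c (deriv c (t - w)) (t - w) := (hc.differentiable (by simp) _).hasDerivAt
    have h3 := (((hasDerivAt_id w).const_mul (deriv c t)).sub ((h2.comp w h1).const_sub (c t)))
    refine h3.congr_deriv ?_
    ring
  have h1 := Convex.norm_image_sub_le_of_norm_hasDerivWithin_le (s := uIcc 0 v)
    (f := fun w => deriv c t * w - (c t - c (t - w)))
    (f' := fun w => deriv c t - deriv c (t - w)) (C := M * |v|) (x := 0) (y := v)
    (fun w _ => (hd w).hasDerivWithinAt) (fun w hw => by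
      have h2 := de4_lip (deriv c) hc' M hM t w
      have h3 : |w| ≤ |v| := by
        have := abs_sub_left_of_mem_uIcc hw
        simpa using this
      rw [Real.norm_eq_abs]
      exact h2.trans (mul_le_mul_of_nonneg_left h3 hM0)) (convex_uIcc 0 v) left_mem_uIcc
    right_mem_uIcc
  simp only [mul_zero, sub_zero, sub_self, Real.norm_eq_abs] at h1
  exact h1

/-! ### The two error terms -/

theorem de4_B (c : ℝ → ℝ) (hc : ContDiff ℝ ∞ c) (M : ℝ) (h1 : ∀ t, |deriv c t| ≤ M)
    (h2 : ∀ t, |deriv (deriv c) t| ≤ M) (j : Fin 4) (G : Eu 4 → ℝ) (D : ℝ) (hG : De4B G D)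
    (ε : ℝ) (hε : 0 < ε) :
    De4B (fun x : Eu 4 => c (x j) - c (x j - ε * G x)) (ε * (2 * M * D)) := by
  have hM0 : 0 ≤ M := (abs_nonneg _).trans (h1 0)
  have hD := hG.nn
  refine ⟨?_, fun x => ?_, fun x => ?_⟩
  · have h3 : ContDiff ℝ ∞ (fun x : Eu 4 => x j) := (de4_pr j).contDiff
    exact (hc.comp h3).sub (hc.comp (h3.sub (contDiff_const.mul hG.sm)))
  · have h3 := de4_lip c hc M h1 (x j) (ε * G x)
    rw [abs_mul, abs_of_pos hε] at h3
    have h4 := mul_le_mul_of_nonneg_left (hG.b0 x) (mul_nonneg hM0 hε.le)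
    nlinarith [mul_nonneg (mul_nonneg hM0 hε.le) hD]
  · have h3 : HasFDerivAt (fun x : Eu 4 => x j - ε * G x) (de4_pr j - ε • fderiv ℝ G x) x :=
      (de4_pr j).hasFDerivAt.sub ((hG.dif x).hasFDerivAt.const_mul ε)
    have h4 : HasDerivAt c (deriv c (x j - ε * G x)) (x j - ε * G x) :=
      (hc.differentiable (by simp) _).hasDerivAt
    have h5 : HasFDerivAt (fun x : Eu 4 => c (x j) - c (x j - ε * G x))
        (deriv c (x j) • de4_pr j - deriv c (x j - ε * G x) • (de4_pr j - ε • fderiv ℝ G x)) x :=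
      (de4_hfd c hc j x).sub (h4.comp_hasFDerivAt x h3)
    rw [HasFDerivAt.fderiv h5]
    have h6 : deriv c (x j) • de4_pr j - deriv c (x j - ε * G x) • (de4_pr j - ε • fderiv ℝ G x) =
        (deriv c (x j) - deriv c (x j - ε * G x)) • de4_pr j +
          (deriv c (x j - ε * G x) * ε) • fderiv ℝ G x := by
      module
    rw [h6]
    have h7 : ‖(deriv c (x j) - deriv c (x j - ε * G x)) • de4_pr j‖ ≤ M * (ε * D) := by
      rw [norm_smul, Real.norm_eq_abs]
      have h8 := de4_lip (deriv c) (de4_deriv_smooth c hc) M h2 (x j) (ε * G x)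
      rw [abs_mul, abs_of_pos hε] at h8
      have h9 : M * (ε * |G x|) ≤ M * (ε * D) :=
        mul_le_mul_of_nonneg_left (mul_le_mul_of_nonneg_left (hG.b0 x) hε.le) hM0
      have h10 := mul_le_mul (h8.trans h9) (de4_pr_norm j) (norm_nonneg _) (by positivity)
      linarith
    have h8 : ‖(deriv c (x j - ε * G x) * ε) • fderiv ℝ G x‖ ≤ M * ε * D := by
      rw [norm_smul, Real.norm_eq_abs, abs_mul, abs_of_pos hε]
      exact mul_le_mul (mul_le_mul_of_nonneg_right (h1 _) hε.le) (hG.b1 x) (norm_nonneg _)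
        (by positivity)
    have h9 := norm_add_le ((deriv c (x j) - deriv c (x j - ε * G x)) • de4_pr j)
      ((deriv c (x j - ε * G x) * ε) • fderiv ℝ G x)
    linarith

theorem de4_A (c : ℝ → ℝ) (hc : ContDiff ℝ ∞ c) (M : ℝ)
    (h2 : ∀ t, |deriv (deriv c) t| ≤ M) (h3 : ∀ t, |deriv (deriv (deriv c)) t| ≤ M) (j : Fin 4)
    (G : Eu 4 → ℝ) (D : ℝ) (hG : De4B G D) (ε : ℝ) (hε : 0 < ε) :
    De4B (fun x : Eu 4 => deriv c (x j) * G x - ε⁻¹ * (c (x j) - c (x j - ε * G x)))
      (ε * (2 * M * D * D)) := by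
  have hM0 : 0 ≤ M := (abs_nonneg _).trans (h2 0)
  have hD := hG.nn
  have hc1 := de4_deriv_smooth c hc
  have hc2 := de4_deriv_smooth _ hc1
  have key : ∀ (c : ℝ → ℝ), ContDiff ℝ ∞ c → (∀ t, |deriv (deriv c) t| ≤ M) → ∀ x : Eu 4,
      |deriv c (x j) * G x - ε⁻¹ * (c (x j) - c (x j - ε * G x))| ≤ ε * (M * D * D) := by
    intro c hc h2 x
    have h4 := de4_tay c hc M h2 (x j) (ε * G x)
    have h5 : deriv c (x j) * G x - ε⁻¹ * (c (x j) - c (x j - ε * G x)) =
        ε⁻¹ * (deriv c (x j) * (ε * G x) - (c (x j) - c (x j - ε * G x))) := by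
      field_simp
    rw [h5, abs_mul, abs_of_pos (inv_pos.2 hε)]
    rw [abs_mul, abs_of_pos hε] at h4
    have h6 : M * (ε * |G x|) * (ε * |G x|) ≤ ε * (ε * (M * D * D)) := by
      have h7 := hG.b0 x
      have h8 : |G x| * |G x| ≤ D * D := mul_le_mul h7 h7 (abs_nonneg _) hD
      have h9 := mul_le_mul_of_nonneg_left h8 (by positivity : 0 ≤ M * ε * ε)
      nlinarith
    calc ε⁻¹ * |deriv c (x j) * (ε * G x) - (c (x j) - c (x j - ε * G x))|
        ≤ ε⁻¹ * (ε * (ε * (M * D * D))) :=
          mul_le_mul_of_nonneg_left (h4.trans h6) (inv_pos.2 hε).le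
      _ = ε * (M * D * D) := by
          rw [← mul_assoc, inv_mul_cancel₀ hε.ne', one_mul]
  refine ⟨?_, fun x => ?_, fun x => ?_⟩
  · have h4 : ContDiff ℝ ∞ (fun x : Eu 4 => x j) := (de4_pr j).contDiff
    exact ((hc1.comp h4).mul hG.sm).sub (contDiff_const.mul
      ((hc.comp h4).sub (hc.comp (h4.sub (contDiff_const.mul hG.sm)))))
  · have h4 := key c hc h2 x
    have h5 : 0 ≤ ε * (M * D * D) := by positivity
    linarith
  · have h4 : HasFDerivAt (fun x : Eu 4 => x j - ε * G x) (de4_pr j - ε • fderiv ℝ G x) x :=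
      (de4_pr j).hasFDerivAt.sub ((hG.dif x).hasFDerivAt.const_mul ε)
    have h5 : HasDerivAt c (deriv c (x j - ε * G x)) (x j - ε * G x) :=
      (hc.differentiable (by simp) _).hasDerivAt
    have h6 : HasFDerivAt
        (fun x : Eu 4 => deriv c (x j) * G x - ε⁻¹ * (c (x j) - c (x j - ε * G x)))
        (deriv c (x j) • fderiv ℝ G x + G x • (deriv (deriv c) (x j) • de4_pr j) -
        ε⁻¹ • (deriv c (x j) • de4_pr j -
          deriv c (x j - ε * G x) • (de4_pr j - ε • fderiv ℝ G x))) x :=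
      ((de4_hfd _ hc1 j x).mul (hG.dif x).hasFDerivAt).sub
        (((de4_hfd c hc j x).sub (h5.comp_hasFDerivAt x h4)).const_mul ε⁻¹)
    rw [HasFDerivAt.fderiv h6]
    have h7 : deriv c (x j) • fderiv ℝ G x + G x • (deriv (deriv c) (x j) • de4_pr j) -
        ε⁻¹ • (deriv c (x j) • de4_pr j -
          deriv c (x j - ε * G x) • (de4_pr j - ε • fderiv ℝ G x)) =
        (deriv (deriv c) (x j) * G x - ε⁻¹ * (deriv c (x j) - deriv c (x j - ε * G x))) •
          de4_pr j + (deriv c (x j) - deriv c (x j - ε * G x)) • fderiv ℝ G x := by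
      have h8 : ε⁻¹ • (deriv c (x j - ε * G x) • (ε • fderiv ℝ G x)) =
          deriv c (x j - ε * G x) • fderiv ℝ G x := by
        rw [smul_smul, smul_smul]
        congr 1
        field_simp
      rw [smul_sub, smul_sub, smul_sub, h8]
      module
    rw [h7]
    have h8 : ‖(deriv (deriv c) (x j) * G x - ε⁻¹ * (deriv c (x j) - deriv c (x j - ε * G x))) •
        de4_pr j‖ ≤ ε * (M * D * D) := by
      rw [norm_smul, Real.norm_eq_abs]
      have h9 := mul_le_mul (key _ hc1 h3 x) (de4_pr_norm j) (norm_nonneg _) (by positivity)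
      linarith
    have h9 : ‖(deriv c (x j) - deriv c (x j - ε * G x)) • fderiv ℝ G x‖ ≤ ε * (M * D * D) := by
      rw [norm_smul, Real.norm_eq_abs]
      have h10 := de4_lip (deriv c) hc1 M h2 (x j) (ε * G x)
      rw [abs_mul, abs_of_pos hε] at h10
      have h11 : M * (ε * |G x|) ≤ M * (ε * D) :=
        mul_le_mul_of_nonneg_left (mul_le_mul_of_nonneg_left (hG.b0 x) hε.le) hM0
      have h12 := mul_le_mul (h10.trans h11) (hG.b1 x) (norm_nonneg _) (by positivity)
      linarith
    have h10 := norm_add_le ((deriv (deriv c) (x j) * G x -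
      ε⁻¹ * (deriv c (x j) - deriv c (x j - ε * G x))) • de4_pr j)
      ((deriv c (x j) - deriv c (x j - ε * G x)) • fderiv ℝ G x)
    linarith

/-! ### The plateau functions -/

/-- A plateau function. -/
def de4_pt (lo hi t : ℝ) : ℝ :=
  Real.smoothTransition ((t - lo / 2) / (lo / 2)) *
    Real.smoothTransition (((1 + hi) / 2 - t) / ((1 - hi) / 2))

theorem de4_pt_smooth (lo hi : ℝ) : ContDiff ℝ ∞ (de4_pt lo hi) := by
  unfold de4_pt
  exact (Real.smoothTransition.contDiff.comp (by fun_prop)).mul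
    (Real.smoothTransition.contDiff.comp (by fun_prop))

theorem de4_pt_supp (lo hi t : ℝ) (hlo : 0 < lo) (hhi : hi < 1) (h : de4_pt lo hi t ≠ 0) :
    lo / 2 ≤ t ∧ t ≤ (1 + hi) / 2 := by
  constructor
  · by_contra h1
    push Not at h1
    apply h
    unfold de4_pt
    rw [Real.smoothTransition.zero_of_nonpos, zero_mul]
    exact div_nonpos_of_nonpos_of_nonneg (by linarith) (by linarith)
  · by_contra h1
    push Not at h1
    apply h
    unfold de4_pt
    rw [Real.smoothTransition.zero_of_nonpos (x := ((1 + hi) / 2 - t) / ((1 - hi) / 2)), mul_zero]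
    exact div_nonpos_of_nonpos_of_nonneg (by linarith) (by linarith)

theorem de4_pt_one (lo hi t : ℝ) (hlo : 0 < lo) (hhi : hi < 1) (h1 : lo ≤ t) (h2 : t ≤ hi) :
    de4_pt lo hi t = 1 := by
  unfold de4_pt
  rw [Real.smoothTransition.one_of_one_le, Real.smoothTransition.one_of_one_le, one_mul]
  · rw [le_div_iff₀ (by linarith)]
    linarith
  · rw [le_div_iff₀ (by linarith)]
    linarith

/-! ### The product functions -/

/-- the product over the coordinates other than `i` and `j` -/
def de4_P (c : Fin 4 → ℝ → ℝ) (i j : Fin 4) (x : Eu 4) : ℝ :=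
  ∏ k ∈ (Finset.univ.erase i).erase j, c k (x k)

theorem de4_P_i (c : Fin 4 → ℝ → ℝ) (i j : Fin 4) (x : Eu 4) (a : ℝ) :
    de4_P c i j (x + a • ev i) = de4_P c i j x := by
  unfold de4_P
  refine Finset.prod_congr rfl fun k hk => ?_
  rw [Finset.mem_erase, Finset.mem_erase] at hk
  rw [PiLp.add_apply, PiLp.smul_apply, de4_ev_ne hk.2.1, smul_zero, add_zero]

theorem de4_P_j (c : Fin 4 → ℝ → ℝ) (i j : Fin 4) (x : Eu 4) (a : ℝ) :
    de4_P c i j (x + a • ev j) = de4_P c i j x := by
  unfold de4_P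
  refine Finset.prod_congr rfl fun k hk => ?_
  rw [Finset.mem_erase, Finset.mem_erase] at hk
  rw [PiLp.add_apply, PiLp.smul_apply, de4_ev_ne hk.1, smul_zero, add_zero]

theorem de4_full (c : Fin 4 → ℝ → ℝ) (i j : Fin 4) (hij : i ≠ j) (x : Eu 4) :
    ∏ l, c l (x l) = c i (x i) * (c j (x j) * de4_P c i j x) := by
  unfold de4_P
  rw [Finset.mul_prod_erase (Finset.univ.erase i) (fun k => c k (x k))
    (Finset.mem_erase.2 ⟨hij.symm, Finset.mem_univ j⟩),
    Finset.mul_prod_erase Finset.univ (fun k => c k (x k)) (Finset.mem_univ i)]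

/-- The directional derivative from the derivative along a line. -/
theorem de4_dir (u : Eu 4 → ℝ) (hu : Differentiable ℝ u) (x : Eu 4) (i : Fin 4) (d : ℝ)
    (h : HasDerivAt (fun t : ℝ => u (x + t • ev i)) d 0) : fderiv ℝ u x (ev i) = d := by
  have h1 : HasDerivAt (fun t : ℝ => x + t • (ev i : Eu 4)) (ev i) 0 := by
    simpa using ((hasDerivAt_id (0 : ℝ)).smul_const (ev i : Eu 4)).const_add x
  have h2 : HasFDerivAt u (fderiv ℝ u x) (x + (0 : ℝ) • (ev i : Eu 4)) := by
    rw [zero_smul, add_zero]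
    exact (hu x).hasFDerivAt
  exact (h2.comp_hasDerivAt 0 h1).unique h

theorem de4_line (c : ℝ → ℝ) (hc : ContDiff ℝ ∞ c) (t a : ℝ) :
    HasDerivAt (fun s : ℝ => c (t + s) * a) (deriv c t * a) 0 := by
  have h1 : HasDerivAt (fun s : ℝ => t + s) 1 0 := by
    simpa using (hasDerivAt_id (0 : ℝ)).const_add t
  have h2 : HasDerivAt c (deriv c t) (t + 0) := by
    rw [add_zero]
    exact (hc.differentiable (by simp) t).hasDerivAt
  have h3 := (h2.comp 0 h1).mul_const a
  simpa using h3

theorem de_gen : DEGen := by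
  classical
  intro i j hij b lo hi hb hlh hsupp η hη
  -- bounds
  set pt : Fin 4 → ℝ → ℝ := fun k => de4_pt (lo k) (hi k) with hpt
  have hptS : ∀ k, ContDiff ℝ ∞ (pt k) := fun k => de4_pt_smooth _ _
  have hptsupp : ∀ k t, pt k t ≠ 0 → lo k / 2 ≤ t ∧ t ≤ (1 + hi k) / 2 := fun k t h =>
    de4_pt_supp _ _ t (hlh k).1 (hlh k).2.2 h
  set Φ : Eu 4 → ℝ := de4_P b i j with hΦ
  set Ψ : Eu 4 → ℝ := de4_P pt i j with hΨ
  obtain ⟨CΦ, hCΦ⟩ : ∃ c, De4B Φ c :=
    De4B.prod fun k => de4_coord (b k) (hb k) (lo k) (hi k) (hsupp k) k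
  obtain ⟨CΨ, hCΨ⟩ : ∃ c, De4B Ψ c :=
    De4B.prod fun k => de4_coord (pt k) (hptS k) _ _ (hptsupp k) k
  have hΦΨ : ∀ x, Φ x * Ψ x = Φ x := by
    intro x
    rw [hΦ, hΨ]
    unfold de4_P
    rw [← Finset.prod_mul_distrib]
    refine Finset.prod_congr rfl fun k _ => ?_
    by_cases h1 : b k (x k) = 0
    · rw [h1, zero_mul]
    · have h2 := hsupp k _ h1
      rw [hpt]
      simp only
      rw [de4_pt_one _ _ _ (hlh k).1 (hlh k).2.2 h2.1 h2.2, mul_one]
  obtain ⟨Ci, hCi⟩ := de4_coord (b i) (hb i) (lo i) (hi i) (hsupp i) i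
  obtain ⟨Ci', hCi'⟩ := de4_coord (deriv (b i)) (de4_deriv_smooth _ (hb i)) (lo i) (hi i)
    (de4_deriv_supp _ _ _ (hsupp i)) i
  obtain ⟨Cj, hCj⟩ := de4_coord (b j) (hb j) (lo j) (hi j) (hsupp j) j
  set G : Eu 4 → ℝ := fun x => b i (x i) * Ψ x with hG
  obtain ⟨D, hD⟩ : ∃ D, De4B G D := ⟨_, hCi.mul hCΨ⟩
  set F : Eu 4 → ℝ := fun x => b j (x j) * Φ x with hF
  obtain ⟨CF', hCF⟩ : ∃ D, De4B F D := ⟨_, hCj.mul hCΦ⟩
  -- derivatives of `b j`
  have hs1 := de4_deriv_supp _ _ _ (hsupp j)
  have hc1 := de4_deriv_smooth _ (hb j)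
  have hs2 := de4_deriv_supp _ _ _ hs1
  have hc2 := de4_deriv_smooth _ hc1
  have hs3 := de4_deriv_supp _ _ _ hs2
  have hc3 := de4_deriv_smooth _ hc2
  obtain ⟨M1, hM1, hM1'⟩ := de4_bdd _ hc1 _ _ hs1
  obtain ⟨M2, hM2, hM2'⟩ := de4_bdd _ hc2 _ _ hs2
  obtain ⟨M3, hM3, hM3'⟩ := de4_bdd _ hc3 _ _ hs3
  set Mx : ℝ := M1 + M2 + M3 with hMx
  have b1 : ∀ t, |deriv (b j) t| ≤ Mx := fun t => by linarith [hM1' t]
  have b2 : ∀ t, |deriv (deriv (b j)) t| ≤ Mx := fun t => by linarith [hM2' t]
  have b3 : ∀ t, |deriv (deriv (deriv (b j))) t| ≤ Mx := fun t => by linarith [hM3' t]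
  have hMx0 : 0 ≤ Mx := by linarith
  have hDn := hD.nn
  have hCΦn := hCΦ.nn
  have hCi'n := hCi'.nn
  have hCFn := hCF.nn
  -- the constants
  set KA : ℝ := 2 * CΦ * (2 * Mx * D * D) with hKA
  set KB : ℝ := 2 * (2 * CΦ * Ci') * (2 * Mx * D) with hKB
  have hKA0 : 0 ≤ KA := by positivity
  have hKB0 : 0 ≤ KB := by positivity
  set δ : ℝ := min (lo j / 2) ((1 - hi j) / 2) with hδ
  have hδ0 : 0 < δ := by
    have h1 := hlh j
    exact lt_min (by linarith) (by linarith)
  set δ' : ℝ := min (lo i / 2) ((1 - hi i) / 2) with hδ'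
  have hδ'0 : 0 < δ' := by
    have h1 := hlh i
    exact lt_min (by linarith) (by linarith)
  set ε : ℝ := min (η / (KA + KB + 1)) (δ / (D + 1) / 2) with hε
  have hε0 : 0 < ε := lt_min (by positivity) (by positivity)
  have hε1 : ε * (KA + KB) ≤ η := by
    have h1 : ε ≤ η / (KA + KB + 1) := min_le_left _ _
    rw [le_div_iff₀ (by positivity)] at h1
    nlinarith
  have hε2 : ε * D < δ := by
    have h1 : ε ≤ δ / (D + 1) / 2 := min_le_right _ _
    rw [le_div_iff₀ (by norm_num), le_div_iff₀ (by positivity)] at h1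
    nlinarith
  obtain ⟨m, hm⟩ := exists_nat_gt (CF' / (ε * δ') + 1)
  have hm1 : (1 : ℝ) < m := by
    have h1 : 0 ≤ CF' / (ε * δ') := by positivity
    linarith
  have hm0 : (0 : ℝ) < m := by linarith
  have hm2 : CF' / (ε * m) < δ' := by
    have h1 : CF' / (ε * δ') < m := by linarith
    rw [div_lt_iff₀ (by positivity)] at h1 ⊢
    nlinarith
  set f : Eu 4 → ℝ := fun x => (ε * m)⁻¹ * F x with hf
  set g : Eu 4 → ℝ := fun x => ε * G x with hg
  have hfS : ContDiff ℝ ∞ f := contDiff_const.mul hCF.sm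
  have hgS : ContDiff ℝ ∞ g := contDiff_const.mul hD.sm
  have hgd : ∀ x, fderiv ℝ g x (ev i) = ε * (deriv (b i) (x i) * Ψ x) := by
    intro x
    refine de4_dir g (hgS.differentiable (by simp)) x i _ ?_
    have h1 : (fun t : ℝ => g (x + t • ev i)) = fun t => ε * (b i (x i + t) * Ψ x) := by
      funext t
      rw [hg]
      simp only
      rw [hG]
      simp only
      rw [hΨ, de4_P_i, PiLp.add_apply, PiLp.smul_apply, de4_ev_self, smul_eq_mul, mul_one]
    rw [h1]
    exact (de4_line (b i) (hb i) (x i) (Ψ x)).const_mul ε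
  have hFj : ∀ x (a : ℝ), F (x + a • ev j) = b j (x j + a) * Φ x := by
    intro x a
    rw [hF]
    simp only
    rw [hΦ, de4_P_j, PiLp.add_apply, PiLp.smul_apply, de4_ev_self, smul_eq_mul, mul_one]
  have hFi : ∀ x (a : ℝ), F (x + a • ev i) = F x := by
    intro x a
    rw [hF]
    simp only
    rw [hΦ, de4_P_i, PiLp.add_apply, PiLp.smul_apply, de4_ev_ne hij.symm, smul_zero, add_zero]
  have hGj : ∀ x (a : ℝ), G (x + a • ev j) = G x := by
    intro x a
    rw [hG]
    simp only
    rw [hΨ, de4_P_j, PiLp.add_apply, PiLp.smul_apply, de4_ev_ne hij, smul_zero, add_zero]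
  have hvfg : ∀ x, (m : ℝ) • vfg i j f g x =
      (ε⁻¹ * (Φ x * (b j (x j) - b j (x j - ε * G x)))) • ev i -
        (b j (x j - ε * G x) * (Φ x * deriv (b i) (x i))) • ev j := by
    intro x
    have h1 : x - g x • ev j = x + (-(ε * G x)) • (ev j : Eu 4) := by
      rw [neg_smul, ← sub_eq_add_neg]
    unfold vfg
    rw [h1, hgd]
    have h2 : f (x + (-(ε * G x)) • ev j) = (ε * m)⁻¹ * (b j (x j - ε * G x) * Φ x) := by
      rw [hf]
      simp only
      rw [hFj, ← sub_eq_add_neg]
    rw [h2]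
    have h3 : f x = (ε * m)⁻¹ * (b j (x j) * Φ x) := rfl
    rw [h3]
    have h4 := hΦΨ x
    have hmm : (m : ℝ) ≠ 0 := hm0.ne'
    have hεε : ε ≠ 0 := hε0.ne'
    rw [smul_sub, smul_smul, smul_smul, smul_add, smul_smul]
    have h5 : (m : ℝ) * ((ε * m)⁻¹ * (b j (x j) * Φ x)) = ε⁻¹ * (b j (x j) * Φ x) := by
      field_simp
    have h6 : (m : ℝ) * ((ε * m)⁻¹ * (b j (x j - ε * G x) * Φ x)) =
        ε⁻¹ * (b j (x j - ε * G x) * Φ x) := by
      field_simp
    rw [h5, h6]
    have h7 : ε⁻¹ * (b j (x j - ε * G x) * Φ x) * (ε * (deriv (b i) (x i) * Ψ x)) =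
        b j (x j - ε * G x) * (Φ x * deriv (b i) (x i)) := by
      have h8 : ε⁻¹ * (b j (x j - ε * G x) * Φ x) * (ε * (deriv (b i) (x i) * Ψ x)) =
          b j (x j - ε * G x) * ((Φ x * Ψ x) * deriv (b i) (x i)) := by
        field_simp
      rw [h8, h4]
    rw [h7]
    module
  have hjg : ∀ x, jgrad i j (fun x => ∏ l, b l (x l)) x =
      (b i (x i) * (deriv (b j) (x j) * Φ x)) • ev i -
        (deriv (b i) (x i) * (b j (x j) * Φ x)) • ev j := by
    intro x
    have hfun : (fun x : Eu 4 => ∏ l, b l (x l)) = fun x => b i (x i) * (b j (x j) * Φ x) := by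
      funext x
      exact de4_full b i j hij x
    have hdif : Differentiable ℝ (fun x : Eu 4 => b i (x i) * (b j (x j) * Φ x)) :=
      hCi.dif.mul (hCj.dif.mul hCΦ.dif)
    unfold jgrad
    rw [hfun]
    have h1 : fderiv ℝ (fun x : Eu 4 => b i (x i) * (b j (x j) * Φ x)) x (ev j) =
        b i (x i) * (deriv (b j) (x j) * Φ x) := by
      refine de4_dir _ hdif x j _ ?_
      have h2 : (fun t : ℝ => (fun x : Eu 4 => b i (x i) * (b j (x j) * Φ x)) (x + t • ev j)) =
          fun t => b i (x i) * (b j (x j + t) * Φ x) := by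
        funext t
        simp only
        rw [hΦ, de4_P_j, PiLp.add_apply, PiLp.smul_apply, de4_ev_ne hij, smul_zero, add_zero,
          PiLp.add_apply, PiLp.smul_apply, de4_ev_self, smul_eq_mul, mul_one]
      rw [h2]
      exact (de4_line (b j) (hb j) (x j) (Φ x)).const_mul _
    have h3 : fderiv ℝ (fun x : Eu 4 => b i (x i) * (b j (x j) * Φ x)) x (ev i) =
        deriv (b i) (x i) * (b j (x j) * Φ x) := by
      refine de4_dir _ hdif x i _ ?_
      have h2 : (fun t : ℝ => (fun x : Eu 4 => b i (x i) * (b j (x j) * Φ x)) (x + t • ev i)) =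
          fun t => b i (x i + t) * (b j (x j) * Φ x) := by
        funext t
        simp only
        rw [hΦ, de4_P_i]
        simp only [PiLp.add_apply, PiLp.smul_apply, de4_ev_self, de4_ev_ne hij.symm, smul_eq_mul,
          mul_one, mul_zero, add_zero]
      rw [h2]
      exact de4_line (b i) (hb i) (x i) (b j (x j) * Φ x)
    rw [h1, h3]
  -- the error
  set A : Eu 4 → ℝ := fun x =>
    Φ x * (deriv (b j) (x j) * G x - ε⁻¹ * (b j (x j) - b j (x j - ε * G x))) with hA
  set B : Eu 4 → ℝ := fun x =>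
    (Φ x * deriv (b i) (x i)) * (b j (x j) - b j (x j - ε * G x)) with hBdef
  have hAb : De4B A (ε * KA) := by
    refine (hCΦ.mul (de4_A (b j) (hb j) Mx b2 b3 j G D hD ε hε0)).mono ?_
    rw [hKA]
    apply le_of_eq
    ring
  have hBb : De4B B (ε * KB) := by
    refine ((hCΦ.mul hCi').mul (de4_B (b j) (hb j) Mx b1 b2 j G D hD ε hε0)).mono ?_
    rw [hKB]
    apply le_of_eq
    ring
  have hE : ∀ x, jgrad i j (fun x => ∏ l, b l (x l)) x - (m : ℝ) • vfg i j f g x =
      A x • ev i - B x • ev j := by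
    intro x
    rw [hjg, hvfg]
    have h1 : b i (x i) * (deriv (b j) (x j) * Φ x) = Φ x * (deriv (b j) (x j) * G x) := by
      have h2 : Φ x * (deriv (b j) (x j) * G x) =
          b i (x i) * (deriv (b j) (x j) * (Φ x * Ψ x)) := by
        rw [hG]
        ring
      rw [h2, hΦΨ]
    rw [h1, hA, hBdef]
    module
  have hEf : (fun x => jgrad i j (fun x => ∏ l, b l (x l)) x - (m : ℝ) • vfg i j f g x) =
      fun x => A x • ev i - B x • ev j := funext hE
  refine ⟨m, f, g, ?_, ?_, ?_, ?_⟩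
  · -- GU
    refine ⟨fun k => lo k / 2, fun k => (1 + hi k) / 2, CF' / (ε * m), ε * D, ?_, ?_⟩
    · refine ⟨hij, hfS, hgS, ?_, ?_, ?_, ?_, ?_, ?_, ?_, ?_⟩
      · intro x a
        show (ε * m)⁻¹ * F (x + a • ev i) = (ε * m)⁻¹ * F x
        rw [hFi]
      · intro x a
        show ε * G (x + a • ev j) = ε * G x
        rw [hGj]
      · intro x hx k hk
        have h1 : F x ≠ 0 := by
          intro h2
          apply hx
          show (ε * m)⁻¹ * F x = 0
          rw [h2, mul_zero]
        have h2 : b k (x k) ≠ 0 := by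
          intro h3
          apply h1
          show b j (x j) * Φ x = 0
          by_cases hkj : k = j
          · rw [← hkj, h3, zero_mul]
          · have h4 : Φ x = 0 := by
              rw [hΦ]
              exact Finset.prod_eq_zero (Finset.mem_erase.2 ⟨hkj, Finset.mem_erase.2
                ⟨hk, Finset.mem_univ k⟩⟩) h3
            rw [h4, mul_zero]
        have h3 := hsupp k _ h2
        have h4 := hlh k
        constructor
        · show lo k / 2 ≤ x k
          linarith [h3.1, h4.1]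
        · show x k ≤ (1 + hi k) / 2
          linarith [h3.2, h4.2.2]
      · intro x hx k hk
        have h1 : G x ≠ 0 := by
          intro h2
          apply hx
          show ε * G x = 0
          rw [h2, mul_zero]
        by_cases hki : k = i
        · have h2 : b i (x i) ≠ 0 := by
            intro h3
            apply h1
            show b i (x i) * Ψ x = 0
            rw [h3, zero_mul]
          rw [hki]
          have h3 := hsupp i _ h2
          have h4 := hlh i
          constructor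
          · show lo i / 2 ≤ x i
            linarith [h3.1, h4.1]
          · show x i ≤ (1 + hi i) / 2
            linarith [h3.2, h4.2.2]
        · have h2 : pt k (x k) ≠ 0 := by
            intro h3
            apply h1
            show b i (x i) * Ψ x = 0
            have h4 : Ψ x = 0 := by
              rw [hΨ]
              exact Finset.prod_eq_zero (Finset.mem_erase.2 ⟨hk, Finset.mem_erase.2
                ⟨hki, Finset.mem_univ k⟩⟩) h3
            rw [h4, mul_zero]
          exact hptsupp k _ h2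
      · intro x
        have h1 : |f x| ≤ CF' / (ε * m) := by
          show |(ε * m)⁻¹ * F x| ≤ _
          rw [abs_mul, abs_of_pos (by positivity), div_eq_inv_mul]
          exact mul_le_mul_of_nonneg_left (hCF.b0 x) (by positivity)
        exact abs_le.1 h1
      · intro x
        have h1 : |g x| ≤ ε * D := by
          show |ε * G x| ≤ _
          rw [abs_mul, abs_of_pos hε0]
          exact mul_le_mul_of_nonneg_left (hD.b0 x) hε0.le
        exact abs_le.1 h1
      · exact ⟨by positivity, by positivity, by positivity, by positivity⟩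
      · intro k
        have h4 := hlh k
        show lo k / 2 ≤ (1 + hi k) / 2
        linarith [h4.1, h4.2.1, h4.2.2]
    · intro k
      have h4 := hlh k
      have h5 : δ ≤ lo j / 2 := min_le_left _ _
      have h6 : δ ≤ (1 - hi j) / 2 := min_le_right _ _
      have h7 : δ' ≤ lo i / 2 := min_le_left _ _
      have h8 : δ' ≤ (1 - hi i) / 2 := min_le_right _ _
      unfold cLo cHi
      by_cases hki : k = i
      · have hkj : k ≠ j := fun h => hij (hki.symm.trans h)
        subst hki
        simp only [if_true, if_neg hkj]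
        constructor <;> linarith
      · by_cases hkj : k = j
        · subst hkj
          simp only [if_true, if_neg hki]
          constructor <;> linarith
        · simp only [if_neg hki, if_neg hkj]
          constructor <;> linarith [h4.1, h4.2.2]
  · -- smooth
    unfold vfg
    have h1 : ContDiff ℝ ∞ (fun x => x - g x • (ev j : Eu 4)) :=
      contDiff_id.sub (hgS.smul contDiff_const)
    have h2 : ContDiff ℝ ∞ (fun x => fderiv ℝ g x (ev i)) := by
      have h3 : (fun x => fderiv ℝ g x (ev i)) = fun x => ε * (deriv (b i) (x i) * Ψ x) :=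
        funext hgd
      rw [h3]
      exact contDiff_const.mul (hCi'.sm.mul hCΨ.sm)
    exact (hfS.smul contDiff_const).sub ((hfS.comp h1).smul (contDiff_const.add
      (h2.smul contDiff_const)))
  · -- support
    intro x hx k
    have h4 := hlh k
    have h4j := hlh j
    have h5 : δ ≤ lo j / 2 := min_le_left _ _
    have h6 : δ ≤ (1 - hi j) / 2 := min_le_right _ _
    by_contra hout
    apply hx
    have hxm : (m : ℝ) • vfg i j f g x = 0 := by
      rw [hvfg]
      have hbk : b k (x k) = 0 := by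
        by_contra h7
        have h8 := hsupp k _ h7
        exact hout ⟨by linarith [h8.1, h4.1], by linarith [h8.2, h4.2.2]⟩
      by_cases hki : k = i
      · rw [hki] at hbk
        have h7 : G x = 0 := by
          show b i (x i) * Ψ x = 0
          rw [hbk, zero_mul]
        have h8 : deriv (b i) (x i) = 0 := by
          by_contra h9
          have h10 := de4_deriv_supp _ _ _ (hsupp i) _ h9
          apply hout
          rw [hki] at h4 ⊢
          exact ⟨by linarith [h10.1, h4.1], by linarith [h10.2, h4.2.2]⟩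
        rw [h7, h8]
        simp
      · by_cases hkj : k = j
        · rw [hkj] at hbk
          have h7 : b j (x j - ε * G x) = 0 := by
            by_contra h8
            have h9 := hsupp j _ h8
            have h10 : |ε * G x| ≤ ε * D := by
              rw [abs_mul, abs_of_pos hε0]
              exact mul_le_mul_of_nonneg_left (hD.b0 x) hε0.le
            rw [abs_le] at h10
            apply hout
            rw [hkj]
            exact ⟨by linarith [h9.1, h10.1, h10.2], by linarith [h9.2, h10.1, h10.2]⟩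
          rw [h7, hbk]
          simp
        · have h7 : Φ x = 0 := by
            rw [hΦ]
            exact Finset.prod_eq_zero (Finset.mem_erase.2 ⟨hkj, Finset.mem_erase.2
              ⟨hki, Finset.mem_univ k⟩⟩) hbk
          rw [h7]
          simp
    rcases smul_eq_zero.1 hxm with h7 | h7
    · exact absurd h7 hm0.ne'
    · exact h7
  · -- estimates
    intro x
    rw [hEf]
    constructor
    · rw [hE]
      have h1 := norm_sub_le (A x • (ev i : Eu 4)) (B x • (ev j : Eu 4))
      rw [norm_smul, norm_smul, de4_ev_norm, de4_ev_norm, mul_one, mul_one, Real.norm_eq_abs,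
        Real.norm_eq_abs] at h1
      have h2 := hAb.b0 x
      have h3 := hBb.b0 x
      linarith
    · have h1 : HasFDerivAt (fun x => A x • (ev i : Eu 4) - B x • (ev j : Eu 4))
          ((fderiv ℝ A x).smulRight (ev i) - (fderiv ℝ B x).smulRight (ev j)) x :=
        ((hAb.dif x).hasFDerivAt.smul_const _).sub ((hBb.dif x).hasFDerivAt.smul_const _)
      rw [h1.fderiv]
      have h2 := norm_sub_le ((fderiv ℝ A x).smulRight (ev i : Eu 4))
        ((fderiv ℝ B x).smulRight (ev j : Eu 4))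
      rw [ContinuousLinearMap.norm_smulRight_apply, ContinuousLinearMap.norm_smulRight_apply,
        de4_ev_norm, de4_ev_norm, mul_one, mul_one] at h2
      have h3 := hAb.b1 x
      have h4 := hBb.b1 x
      linarith

end

end Pool.Agent.H6.ST
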