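import Pool.Agent.H6.ST.DE.Defs
import Pool.Agent.H23.ST.CommCF
import Pool.Agent.H68.GM.MFamK

/-! # ST-DE7: products of commutators with prescribed initial velocity -/

set_option autoImplicit false

namespace Pool.Agent.H6.ST

open MeasureTheory Set Pool.Agent.H68.VD Pool.Agent.H68.GM
open scoped ENNReal ContDiff Topology

/-- The data of a commutator may be scaled. -/
theorem de7_scale {i j : Fin 4} {f g : Eu 4 → ℝ} {lo hi : Fin 4 → ℝ} {Fb Gb : ℝ}
    (h : CG i j f g lo hi Fb Fb Gb Gb) (c : ℝ) (hc : |c| ≤ 1) :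
    CG i j (fun x => c * f x) g lo hi Fb Fb Gb Gb := by
  refine ⟨h.ne, contDiff_const.mul h.fs, h.gs, fun x a => ?_, h.gj, fun x hx => ?_, h.gsupp,
    fun x => ?_, h.gb, h.nn, h.lh⟩
  · simp only [h.fi x a]
  · exact h.fsupp x (right_ne_zero_of_mul hx)
  · have hb := h.fb x
    have h1 : |f x| ≤ Fb := abs_le.2 hb
    have h2 : |c * f x| ≤ Fb := by
      rw [abs_mul]
      calc |c| * |f x| ≤ 1 * |f x| := mul_le_mul_of_nonneg_right hc (abs_nonneg _)
        _ ≤ Fb := by rw [one_mul]; exact h1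
    exact abs_le.1 h2

theorem de7_GU {i j : Fin 4} {f g : Eu 4 → ℝ} (h : GU i j f g) (c : ℝ) (hc : |c| ≤ 1) :
    GU i j (fun x => c * f x) g := by
  obtain ⟨lo, hi, Fb, Gb, h1, h2⟩ := h
  exact ⟨lo, hi, Fb, Gb, de7_scale h1 c hc, h2⟩

/-- The path of commutators. -/
theorem de7_cf {i j : Fin 4} {f g : Eu 4 → ℝ} (h : GU i j f g) :
    CF (obox (fun _ => 0) (fun _ => 1))
      (fun t : ℝ => comm i j (fun x => Real.sin t * f x) g) := by
  obtain ⟨lo, hi, Fb, Gb, h1, h2⟩ := h
  have hc := Pool.Agent.H23.ST.comm_cf i j lo hi Fb Fb Gb Gb ℝ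
    (fun t x => Real.sin t * f x) (fun _ => g)
    ((Real.contDiff_sin.comp contDiff_fst).mul (h1.fs.comp contDiff_snd))
    (h1.gs.comp contDiff_snd) (fun t => de7_scale h1 _ (Real.abs_sin_le_one t))
  refine hc.2 _ fun x hx k => ?_
  have h3 := hx k
  have h4 := h2 k
  exact ⟨lt_of_lt_of_le h4.1 h3.1, lt_of_le_of_lt h3.2 h4.2⟩

theorem de7_zero {i j : Fin 4} {g : Eu 4 → ℝ} (hg : ∀ x (a : ℝ), g (x + a • ev j) = g x)
    (x : Eu 4) : comm i j (fun _ => (0 : ℝ)) g x = x := by
  unfold comm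
  rw [Pool.Agent.H23.ST.stc2_zero (i := i) (f := fun _ => (0 : ℝ)) rfl,
    Pool.Agent.H23.ST.stc2_zero (i := i) (f := fun _ => -(0 : ℝ)) (by simp)]
  exact Pool.Agent.H23.ST.stc2_inv hg x

theorem de7_fderiv_inv {j : Fin 4} {g : Eu 4 → ℝ}
    (hg : ∀ x (a : ℝ), g (x + a • ev j) = g x) (x : Eu 4) (a : ℝ) :
    fderiv ℝ g (x + a • ev j) = fderiv ℝ g x := by
  have h1 : (fun y => g (y + a • ev j)) = g := funext fun y => hg y a
  have h2 := fderiv_comp_add_right (𝕜 := ℝ) (f := g) (x := x) (a • ev j)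
  rw [h1] at h2
  exact h2.symm

/-- The velocity of the path of commutators at `t = 0`. -/
theorem de7_der {i j : Fin 4} {f g : Eu 4 → ℝ} (h : GU i j f g) (x : Eu 4) :
    HasDerivAt (fun t : ℝ => comm i j (fun x => Real.sin t * f x) g x) (vfg i j f g x) 0 := by
  obtain ⟨lo, hi, Fb, Gb, h1, -⟩ := h
  have df : Differentiable ℝ f := h1.fs.differentiable (by simp)
  have dg : Differentiable ℝ g := h1.gs.differentiable (by simp)
  set z1 : Eu 4 := x - g x • ev j with hz1
  have e1 : shear j (fun y => - g y) x = z1 := by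
    unfold shear
    rw [neg_smul, ← sub_eq_add_neg]
  have gz1 : g z1 = g x := by
    rw [hz1, sub_eq_add_neg, ← neg_smul]
    exact h1.gj x _
  -- z2
  have hz2 : HasDerivAt (fun t : ℝ => z1 + (-(Real.sin t * f z1)) • ev i) (-(f z1) • ev i) 0 := by
    have h2 : HasDerivAt (fun t : ℝ => -(Real.sin t * f z1)) (-(f z1)) 0 := by
      have := ((Real.hasDerivAt_sin 0).mul_const (f z1)).fun_neg
      simpa using this
    exact (h2.smul_const (ev i)).const_add z1
  -- z3
  have hg1 : HasDerivAt (fun t : ℝ => g (z1 + (-(Real.sin t * f z1)) • ev i))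
      (fderiv ℝ g z1 (-(f z1) • ev i)) 0 := by
    have h2 : HasFDerivAt g (fderiv ℝ g z1) (z1 + (-(Real.sin 0 * f z1)) • ev i) := by
      simp only [Real.sin_zero, zero_mul, neg_zero, zero_smul, add_zero]
      exact (dg z1).hasFDerivAt
    exact h2.comp_hasDerivAt 0 hz2
  have hz3 : HasDerivAt (fun t : ℝ => (z1 + (-(Real.sin t * f z1)) • ev i) +
      g (z1 + (-(Real.sin t * f z1)) • ev i) • ev j)
      (-(f z1) • ev i + fderiv ℝ g z1 (-(f z1) • ev i) • ev j) 0 :=
    hz2.add (hg1.smul_const (ev j))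
  have h30 : (z1 + (-(Real.sin 0 * f z1)) • ev i) +
      g (z1 + (-(Real.sin 0 * f z1)) • ev i) • ev j = x := by
    simp only [Real.sin_zero, zero_mul, neg_zero, zero_smul, add_zero]
    rw [gz1, hz1]
    abel
  -- z4
  have hf3 : HasDerivAt (fun t : ℝ => Real.sin t * f ((z1 + (-(Real.sin t * f z1)) • ev i) +
      g (z1 + (-(Real.sin t * f z1)) • ev i) • ev j)) (f x) 0 := by
    have h2 : HasFDerivAt f (fderiv ℝ f x) ((z1 + (-(Real.sin 0 * f z1)) • ev i) +
      g (z1 + (-(Real.sin 0 * f z1)) • ev i) • ev j) := by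
      rw [h30]
      exact (df x).hasFDerivAt
    have h4 := (Real.hasDerivAt_sin 0).mul (h2.comp_hasDerivAt 0 hz3)
    refine h4.congr_deriv ?_
    simp only [Function.comp, h30]
    simp
  have hz4 := hz3.add (hf3.smul_const (ev i))
  have heq : (fun t : ℝ => comm i j (fun x => Real.sin t * f x) g x) = fun t : ℝ =>
      ((z1 + (-(Real.sin t * f z1)) • ev i) + g (z1 + (-(Real.sin t * f z1)) • ev i) • ev j) +
      (Real.sin t * f ((z1 + (-(Real.sin t * f z1)) • ev i) +
      g (z1 + (-(Real.sin t * f z1)) • ev i) • ev j)) • ev i := by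
    funext t
    unfold comm
    rw [e1]
    rfl
  rw [heq]
  refine hz4.congr_deriv ?_
  have hd : fderiv ℝ g z1 = fderiv ℝ g x := by
    rw [hz1, sub_eq_add_neg, ← neg_smul]
    exact de7_fderiv_inv h1.gj x _
  unfold vfg
  rw [← hz1, hd]
  simp only [map_smul, smul_eq_mul, smul_add, smul_smul, neg_smul, map_neg]
  abel

variable {M : Type} [TopologicalSpace M] {ι : Type} {ch : ι → OpenPartialHomeomorph M (Eu 4)}

theorem de7_ext_id (o : ι) (T : Eu 4 → Eu 4) (hT : ∀ x, T x = x) : extM ch o T = id := by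
  funext x
  unfold extM
  split_ifs with h
  · rw [hT, (ch o).left_inv h]
    rfl
  · rfl

/-- The identity is an (empty) commutator. -/
theorem de7_GU0 : GU 0 1 (fun _ => (0 : ℝ)) (fun _ => (0 : ℝ)) := by
  refine ⟨fun _ => 1 / 4, fun _ => 3 / 4, 0, 0, ⟨by decide, contDiff_const, contDiff_const,
    fun _ _ => rfl, fun _ _ => rfl, fun _ h => absurd rfl h, fun _ h => absurd rfl h,
    fun _ => by simp, fun _ => by simp, by simp, fun _ => by norm_num⟩, fun k => ?_⟩
  unfold cLo cHi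
  simp
  norm_num

theorem de7_P0 (o : ι) (P : (M → M) → Prop)
    (h : ∀ i j f g, GU i j f g → P (extM ch o (comm i j f g))) : P id := by
  have h1 := h 0 1 _ _ de7_GU0
  rwa [de7_ext_id o _ (de7_zero (fun _ _ => rfl))] at h1

/-- The velocity of a product, if both factors are the identity. -/
theorem de7_velc [Nonempty M] (hA : VolAtlas ch) (φ ψ : ℝ → M → M) (hφ : MFam ch φ)
    (hψ : MFam ch ψ) (t : ℝ) (hφ0 : φ t = id) (hψ0 : ψ t = id) (i : ι) (y : Eu 4) :
    mvel ch (fun t x => φ t (ψ t x)) t i y = mvel ch φ t i y + mvel ch ψ t i y := by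
  by_cases hy : y ∈ (ch i).target
  · have hs : (ch i).symm y ∈ (ch i).source := (ch i).map_target hy
    have h1 : ψ t ((ch i).symm y) ∈ (ch i).source := by rw [hψ0]; exact hs
    have h2 : φ t (ψ t ((ch i).symm y)) ∈ (ch i).source := by rw [hφ0]; exact h1
    have h3 := mFamKit.velComp 4 M ι ch hA φ ψ hφ hψ t ((ch i).symm y) i i h1 h2
    rw [hφ0, hψ0] at h3
    simp only [id] at h3
    rw [(ch i).right_inv hy] at h3
    have h5 : fderiv ℝ (fun y => ch i ((ch i).symm y)) y = ContinuousLinearMap.id ℝ (Eu 4) := by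
      have h6 : (fun y => ch i ((ch i).symm y)) =ᶠ[nhds y] id := by
        filter_upwards [(ch i).open_target.mem_nhds hy] with z hz'
        exact (ch i).right_inv hz'
      rw [h6.fderiv_eq, fderiv_id]
    rw [h5] at h3
    exact h3
  · unfold mvel
    rw [if_neg hy, if_neg hy, if_neg hy, add_zero]

/-- One factor. -/
theorem de7_one [T2Space M] [Nonempty M] (hX : XKit) (hA : VolAtlas ch) (o : ι)
    (htgt : (ch o).target = obox (fun _ => 0) (fun _ => 1)) {i j : Fin 4} {f g : Eu 4 → ℝ}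
    (h : GU i j f g) : MFam ch (fun t : ℝ => extM ch o (comm i j (fun x => Real.sin t * f x) g)) ∧
      extM ch o (comm i j (fun x => Real.sin 0 * f x) g) = id ∧
      ∀ a y, mvel ch (fun t : ℝ => extM ch o (comm i j (fun x => Real.sin t * f x) g)) 0 a y =
        push ch o (vfg i j f g) a y := by
  have hcf := de7_cf h
  rw [← htgt] at hcf
  have h0 : ∀ x, comm i j (fun x => Real.sin 0 * f x) g x = x := by
    obtain ⟨lo, hi, Fb, Gb, h1, -⟩ := h
    intro x
    have e : (fun x => Real.sin 0 * f x) = fun _ => (0 : ℝ) := by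
      funext y
      rw [Real.sin_zero, zero_mul]
    rw [e]
    exact de7_zero h1.gj x
  refine ⟨hX.fam 4 M ι ch hA o ℝ _ hcf, de7_ext_id o _ h0, fun a y => ?_⟩
  rw [hX.vel 4 M ι ch hA o _ hcf 0 a y]
  have hv : vel (fun t : ℝ => comm i j (fun x => Real.sin t * f x) g) 0 = vfg i j f g := by
    funext x
    unfold vel
    have h2 : Function.invFun (comm i j (fun x => Real.sin 0 * f x) g) x = x := by
      have h3 := Function.leftInverse_invFun (hcf.bij 0).1 x
      rwa [h0 x] at h3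
    rw [h2]
    exact (de7_der h x).deriv
  rw [hv]

theorem gen_fam (hX : XKit) (_hC : CFKit) : GenFam := by
  intro M _ _ _ _ ι _ ch o K hG m
  induction m with
  | zero =>
    intro i j f g _
    refine ⟨fun _ x => x, mFamKit.id 4 M ι ch hG.vol ℝ, rfl, fun a y => ?_, fun P _ hP t => ?_⟩
    · rw [Finset.univ_eq_empty, Finset.sum_empty]
      unfold mvel
      split_ifs
      · simp
      · rfl
    · exact de7_P0 o P hP
  | succ m ih =>
    intro i j f g hgu
    obtain ⟨C, hC1, hC2, hC3, hC4⟩ := ih (fun k => i k.succ) (fun k => j k.succ)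
      (fun k => f k.succ) (fun k => g k.succ) (fun k => hgu k.succ)
    obtain ⟨h1, h2, h3⟩ := de7_one hX hG.vol o hG.tgt (hgu 0)
    refine ⟨fun t x => extM ch o (comm (i 0) (j 0) (fun x => Real.sin t * f 0 x) (g 0)) (C t x),
      mFamKit.comp 4 M ι ch hG.vol ℝ _ C h1 hC1, ?_, fun a y => ?_, fun P hP hP2 t => ?_⟩
    · funext x
      simp only
      rw [h2, hC2]
      rfl
    · rw [de7_velc hG.vol _ C h1 hC1 0 h2 hC2 a y, h3, hC3, Fin.sum_univ_succ]
    · exact hP _ _ (hP2 _ _ _ _ (de7_GU (hgu 0) _ (Real.abs_sin_le_one t))) (hC4 P hP hP2 t)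

end Pool.Agent.H6.ST
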