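import Pool.Agent.H6.ST.DE.Defs
import Pool.Agent.H68.GM.MFamK
import Pool.Agent.H68.VD.Main

/-! # Exact paths are approximated by products of commutators -/

namespace Pool.Agent.H6.ST

open MeasureTheory Set Filter Topology Pool.Agent.H68.VD Pool.Agent.H68.GM
open scoped ENNReal ContDiff

noncomputable section

namespace DMainA

variable {n : ℕ} {M : Type} [TopologicalSpace M] {ι : Type}

/-- The cost functional of the zero field. -/
theorem em_zero [Fintype ι] (K : ι → Set (Eu n)) {s : ℝ} (hs : s < 1) :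
    EM K s (fun _ _ => (0 : Eu n)) = 0 := by
  have h1 : L1M K (fun _ _ => (0 : Eu n)) = 0 := by
    simp [L1M]
  unfold EM
  rw [h1, ENNReal.zero_rpow_of_pos (by linarith), zero_mul]

/-- The identity has cost zero. -/
theorem cost_id [T2Space M] [CompactSpace M] [Nonempty M] [Fintype ι] (hE : EKit)
    {ch : ι → OpenPartialHomeomorph M (Eu n)} (hV : VolAtlas ch) {K : ι → Set (Eu n)}
    (hK : KCov ch K) {s : ℝ} (hs0 : 0 ≤ s) (hs1 : s < 1) : MCost ch (EM K s) (fun x => x) 0 := by
  have h := hE.path n M ι ch hV K hK s hs0 hs1 (fun _ x => x) (mFamKit.id n M ι ch hV ℝ) rfl 1 0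
    zero_le_one le_rfl (by
      intro t _
      have h1 : (mvel ch (fun (_ : ℝ) (x : M) => x) t) = fun _ _ => (0 : Eu n) := by
        funext i y
        simp [mvel]
      rw [h1, em_zero K hs1]
      simp)
  simpa using h

end DMainA

open DMainA in
/-- Exact paths are approximated by products of commutators. -/
theorem d_main (hD : Dens) (hG : GenFam) (hS : StepL) (hE : EKit) : DMain := by
  intro M _ _ _ _ ι _ ch o K hgeo s hs0 hs1 P hPmul hPcomm φ hφ h0 hex η hη
  have hV : VolAtlas ch := hgeo.vol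
  have hK : KCov ch K := hgeo.cov
  have hbij : ∀ t, Function.Bijective (φ t) := hφ.bij
  have hR : ∀ t x, φ t (Function.invFun (φ t) x) = x := fun t x =>
    Function.rightInverse_invFun (hbij t).2 x
  have hLft : ∀ t x, Function.invFun (φ t) (φ t x) = x := fun t x =>
    Function.leftInverse_invFun (hbij t).1 x
  -- the identity
  have hPid : P id := by
    obtain ⟨C, _, hC0, _, hCP⟩ := hG M ι ch o K hgeo 0 (fun _ => 0) (fun _ => 0) (fun _ _ => 0)
      (fun _ _ => 0) (fun k => k.elim0)
    have h1 := hCP P hPmul hPcomm 0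
    rwa [hC0] at h1
  -- conjugation
  have hΦ : MFam ch (fun t x => φ 1 (Function.invFun (φ t) x)) := by
    have h1 : MFam ch (fun _ : ℝ => φ 1) :=
      mFamKit.re 4 M ι ch ℝ ℝ φ (fun _ => 1) hφ contDiff_const
    have h2 : MFam ch (fun e => Function.invFun (φ e)) := mFamKit.inv 4 M ι ch hV ℝ φ hφ
    exact mFamKit.comp 4 M ι ch hV ℝ _ _ h1 h2
  obtain ⟨C, hC0, hC⟩ := hE.conj 4 M ι ch hV K hK s hs0 hs1 _ hΦ
  have hinv : ∀ t x, Function.invFun (fun x => φ 1 (Function.invFun (φ t) x)) x =
      φ t (Function.invFun (φ 1) x) := by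
    intro t x
    apply (hΦ.bij t).1
    have h1 : (fun x => φ 1 (Function.invFun (φ t) x))
        (Function.invFun (fun x => φ 1 (Function.invFun (φ t) x)) x) = x :=
      Function.rightInverse_invFun (hΦ.bij t).2 x
    rw [h1]
    show x = φ 1 (Function.invFun (φ t) (φ t (Function.invFun (φ 1) x)))
    rw [hLft, hR]
  obtain ⟨η', hη', hη'2⟩ : ∃ η' : ℝ, 0 < η' ∧ C * η' ≤ η := by
    refine ⟨η / (C + 1), by positivity, ?_⟩
    rw [mul_div_assoc', div_le_iff₀ (by positivity)]
    nlinarith
  -- the uniform step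
  obtain ⟨δ, hδ, hstep⟩ := MainA.step_unif (fun t T => ∃ c : M → M, P c ∧ Function.Bijective c ∧
      MCost ch (EM K s) (fun x => φ (t + T) (Function.invFun (φ t) (Function.invFun c x)))
        (η' * T)) (by
    intro t0
    obtain ⟨m, i, j, f, g, hGU, hle⟩ := hD M ι ch o K hgeo s hs0 hs1 (mvel ch φ t0) (hex t0)
      (η' / 2) (by positivity)
    obtain ⟨c, hc, hc0, hcv, hcP⟩ := hG M ι ch o K hgeo m i j f g hGU
    obtain ⟨δ, hδ, h⟩ := hS 4 M ι ch hV K hK s hs0 hs1 φ c hφ hc hc0 t0 η' hη' (by
      have h1 : (fun a y => mvel ch φ t0 a y - mvel ch c 0 a y) =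
          fun a y => mvel ch φ t0 a y - ∑ k, push ch o (vfg (i k) (j k) (f k) (g k)) a y := by
        funext a y
        rw [hcv a y]
      rw [h1]
      refine lt_of_le_of_lt hle ?_
      rw [ENNReal.ofReal_lt_ofReal_iff hη']
      linarith)
    refine ⟨δ, hδ, fun t ht T hT0 hT => ⟨c T, hcP P hPmul hPcomm T, hc.bij T, h t ht T hT0 hT⟩⟩)
  obtain ⟨m, hm⟩ := exists_nat_gt (1 / δ)
  have hM0 : (0 : ℝ) < m := lt_trans (by positivity) hm
  have hMδ : 1 / (m : ℝ) < δ := by
    rw [div_lt_iff₀ hM0]
    rw [div_lt_iff₀ hδ] at hm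
    linarith
  have hind : ∀ k : ℕ, k ≤ m → ∃ p : M → M, P p ∧ Function.Bijective p ∧
      MCost ch (EM K s) (fun x => φ 1 (Function.invFun p (φ (k / m) (Function.invFun (φ 1) x))))
        (k * (C * (η' * (1 / m)))) := by
    intro k
    induction k with
    | zero =>
      intro _
      refine ⟨id, hPid, Function.bijective_id, ?_⟩
      have h1 := cost_id hE hV hK hs0 hs1
      have h2 : (fun x => φ 1 (Function.invFun id (φ ((0 : ℕ) / m) (Function.invFun (φ 1) x)))) =
          fun x => x := by
        funext x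
        have h3 : ∀ y : M, Function.invFun id y = y := fun y =>
          Function.leftInverse_invFun (Function.injective_id) y
        rw [h3]
        simp [h0, hR]
      rw [h2]
      simpa using h1
    | succ k ih =>
      intro hk
      have hk1 : (k : ℝ) + 1 ≤ m := by exact_mod_cast hk
      obtain ⟨p, hPp, hpb, hpc⟩ := ih (by omega)
      obtain ⟨c, hPc, hcb, hcc⟩ := hstep (k / m)
        ⟨by positivity, by rw [div_le_one hM0]; linarith⟩ (1 / m) (by positivity) hMδ
      have htk : (k : ℝ) / m + 1 / m = ((k + 1 : ℕ) : ℝ) / m := by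
        push_cast
        ring
      rw [htk] at hcc
      have hpR : ∀ x, p (Function.invFun p x) = x := fun x => Function.rightInverse_invFun hpb.2 x
      have hcR : ∀ x, c (Function.invFun c x) = x := fun x => Function.rightInverse_invFun hcb.2 x
      have hcp : Function.Bijective (fun x => c (p x)) := hcb.comp hpb
      have hcpinv : ∀ x, Function.invFun (fun x => c (p x)) x =
          Function.invFun p (Function.invFun c x) := by
        intro x
        apply hcp.1
        have h1 : (fun x => c (p x)) (Function.invFun (fun x => c (p x)) x) = x :=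
          Function.rightInverse_invFun hcp.2 x
        rw [h1]
        show x = c (p (Function.invFun p (Function.invFun c x)))
        rw [hpR, hcR]
      refine ⟨fun x => c (p x), hPmul c p hPc hPp, hcp, ?_⟩
      have h2 := hC (((k + 1 : ℕ) : ℝ) / m)
        ⟨by positivity, by rw [div_le_one hM0]; push_cast; linarith⟩ _ _ hcc
      have h3 := hE.comp 4 M ι ch hV K hK s hs0 hs1 _ _ _ _ hpc h2
      convert h3 using 1
      · funext x
        simp only [hinv, hcpinv, hLft, hR]
      · push_cast
        ring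
  obtain ⟨p, hPp, hpb, hpc⟩ := hind m le_rfl
  refine ⟨p, hPp, ?_⟩
  rw [div_self hM0.ne'] at hpc
  have h1 : (fun x => φ 1 (Function.invFun p (φ 1 (Function.invFun (φ 1) x)))) =
      fun x => φ 1 (Function.invFun p x) := by
    funext x
    rw [hR]
  rw [h1] at hpc
  obtain ⟨ψ, l, g1, g2, g3, g4, g5, g6, g7⟩ := hpc
  refine ⟨ψ, l, g1, g2, g3, g4, g5, g6, g7.trans ?_⟩
  have h4 : (m : ℝ) * (C * (η' * (1 / m))) = C * η' := by
    field_simp
  rw [h4]
  exact hη'2

end

end Pool.Agent.H6.ST
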