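import Pool.Agent.H6.ST.DE.Defs

/-! # Sums of product functions (ST-DE3)

A smooth function with compact support in the open cube is approximated, with two derivatives, by
sums of product functions: convolution with a polynomial kernel times a product cut-off. -/

namespace Pool.Agent.H6.ST

open MeasureTheory Set Pool.Agent.H68.VD Pool.Agent.H68.GM
open scoped ENNReal ContDiff

noncomputable section

/-- Kernels `K (x - y)` that are finite sums of product functions of `x` times functions of `y`. -/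
def DpSep (K : Eu 4 → ℝ) : Prop := ∃ (ι : Type) (_ : Fintype ι) (a : ι → Fin 4 → ℝ → ℝ)
  (c : ι → Eu 4 → ℝ), (∀ k l, ContDiff ℝ ∞ (a k l)) ∧ (∀ k, Continuous (c k)) ∧
  ∀ x y, K (x - y) = ∑ k, (∏ l, a k l (x l)) * c k y

theorem dp_const (r : ℝ) : DpSep (fun _ => r) := by
  refine ⟨Unit, inferInstance, fun _ _ _ => 1, fun _ _ => r, fun _ _ => contDiff_const,
    fun _ => continuous_const, fun x y => by simp⟩

theorem dp_coord (j : Fin 4) : DpSep (fun x => x j) := by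
  refine ⟨Bool, inferInstance, fun k l t => if k = true ∧ l = j then t else 1,
    fun k y => if k = true then 1 else - y j, ?_, ?_, ?_⟩
  · intro k l
    by_cases h : k = true ∧ l = j
    · simp only [h, and_self, if_true]
      exact contDiff_id
    · simp only [h, if_false]
      exact contDiff_const
  · intro k
    cases k
    · simp only [Bool.false_eq_true, if_false]
      exact (EuclideanSpace.proj j : Eu 4 →L[ℝ] ℝ).continuous.neg
    · simp only [if_true]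
      exact continuous_const
  · intro x y
    rw [Fintype.sum_bool]
    simp [Finset.prod_ite_eq', sub_eq_add_neg]

theorem dp_add {K K' : Eu 4 → ℝ} (h : DpSep K) (h' : DpSep K') : DpSep (fun x => K x + K' x) := by
  obtain ⟨ι, hi, a, c, ha, hc, e⟩ := h
  obtain ⟨ι', hi', a', c', ha', hc', e'⟩ := h'
  refine ⟨ι ⊕ ι', inferInstance, Sum.elim a a', Sum.elim c c', ?_, ?_, ?_⟩
  · rintro (k | k) l
    · exact ha k l
    · exact ha' k l
  · rintro (k | k)
    · exact hc k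
    · exact hc' k
  · intro x y
    show K (x - y) + K' (x - y) = _
    rw [Fintype.sum_sum_type, e, e']
    simp

theorem dp_mul {K K' : Eu 4 → ℝ} (h : DpSep K) (h' : DpSep K') : DpSep (fun x => K x * K' x) := by
  obtain ⟨ι, hi, a, c, ha, hc, e⟩ := h
  obtain ⟨ι', hi', a', c', ha', hc', e'⟩ := h'
  refine ⟨ι × ι', inferInstance, fun k l t => a k.1 l t * a' k.2 l t,
    fun k y => c k.1 y * c' k.2 y, ?_, ?_, ?_⟩
  · rintro ⟨k, k'⟩ l
    exact (ha k l).mul (ha' k' l)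
  · rintro ⟨k, k'⟩
    exact (hc k).mul (hc' k')
  · intro x y
    show K (x - y) * K' (x - y) = _
    rw [e, e', Fintype.sum_mul_sum, Fintype.sum_prod_type]
    refine Finset.sum_congr rfl fun k _ => Finset.sum_congr rfl fun k' _ => ?_
    rw [Finset.prod_mul_distrib]
    ring

theorem dp_cont {K : Eu 4 → ℝ} (h : DpSep K) : Continuous K := by
  obtain ⟨ι, hi, a, c, ha, hc, e⟩ := h
  have h1 : K = fun x => ∑ k, (∏ l, a k l (x l)) * c k 0 := by
    funext x
    rw [← e x 0, sub_zero]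
  rw [h1]
  refine continuous_finset_sum _ fun k _ => Continuous.mul (continuous_finset_prod _ fun l _ => ?_)
    continuous_const
  exact (ha k l).continuous.comp (EuclideanSpace.proj l : Eu 4 →L[ℝ] ℝ).continuous

/-- Stone-Weierstrass. -/
theorem dp_sw (f : Eu 4 → ℝ) (hf : Continuous f) (R ε : ℝ) (hε : 0 < ε) :
    ∃ K, DpSep K ∧ ∀ t ∈ Metric.closedBall (0 : Eu 4) R, ‖K t - f t‖ ≤ ε := by
  haveI : CompactSpace (Metric.closedBall (0 : Eu 4) R) :=
    isCompact_iff_compactSpace.mp (isCompact_closedBall _ _)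
  let A : Subalgebra ℝ C(Metric.closedBall (0 : Eu 4) R, ℝ) :=
    { carrier := {F | ∃ K, DpSep K ∧ ∀ x, F x = K x}
      mul_mem' := by
        rintro F G ⟨K, hK, e⟩ ⟨K', hK', e'⟩
        exact ⟨_, dp_mul hK hK', fun x => by simp [e, e']⟩
      add_mem' := by
        rintro F G ⟨K, hK, e⟩ ⟨K', hK', e'⟩
        exact ⟨_, dp_add hK hK', fun x => by simp [e, e']⟩
      algebraMap_mem' := by
        intro r
        exact ⟨_, dp_const r, fun x => by simp⟩ }
  have hA : A.SeparatesPoints := by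
    intro x y hxy
    have h1 : ∃ l, x.1 l ≠ y.1 l := by
      by_contra hne
      push Not at hne
      exact hxy (Subtype.ext (PiLp.ext hne))
    obtain ⟨l, hl⟩ := h1
    refine ⟨fun t => t.1 l, ⟨⟨fun t => t.1 l, ?_⟩, ?_, rfl⟩, hl⟩
    · exact (EuclideanSpace.proj l : Eu 4 →L[ℝ] ℝ).continuous.comp continuous_subtype_val
    · exact ⟨_, dp_coord l, fun _ => rfl⟩
  obtain ⟨g, hg⟩ := ContinuousMap.exists_mem_subalgebra_near_continuous_of_separatesPoints A hA
    (fun t => f t.1) (hf.comp continuous_subtype_val) ε hε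
  obtain ⟨F, K, hK, e⟩ := g
  refine ⟨K, hK, fun t ht => ?_⟩
  have h2 := hg ⟨t, ht⟩
  have h3 : F ⟨t, ht⟩ = K t := e ⟨t, ht⟩
  simp only at h2
  rw [h3] at h2
  exact h2.le

/-- The convolution with a kernel. -/
def dpc {E : Type*} [NormedAddCommGroup E] [NormedSpace ℝ E] (K : Eu 4 → ℝ) (v : Eu 4 → E)
    (x : Eu 4) : E := ∫ t, K t • v (x - t)

theorem dpc_fd {E : Type*} [NormedAddCommGroup E] [NormedSpace ℝ E] {K : Eu 4 → ℝ} {v : Eu 4 → E}
    (hK : Continuous K) (hv : ContDiff ℝ 1 v) (hc : HasCompactSupport v) (x : Eu 4) :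
    HasFDerivAt (dpc K v) (dpc K (fderiv ℝ v) x) x := by
  have h := hc.hasFDerivAt_convolution_right (ContinuousLinearMap.lsmul ℝ ℝ)
    (hK.locallyIntegrable (μ := volume)) hv x
  exact h

theorem dpc_diff {E : Type*} [NormedAddCommGroup E] [NormedSpace ℝ E] [CompleteSpace E]
    {K : Eu 4 → ℝ} {v : Eu 4 → E} (hK : Continuous K) (hv : Continuous v) (S : Set (Eu 4))
    (hS : IsCompact S) (hvS : ∀ y ∉ S, v y = 0) {ρ : ContDiffBump (0 : Eu 4)} {x : Eu 4}
    {R δ δ' : ℝ} (hR : ∀ y ∈ S, ‖x - y‖ ≤ R) (hδ : ∀ z ∈ Metric.ball x ρ.rOut, dist (v z) (v x) ≤ δ)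
    (hKρ : ∀ t ∈ Metric.closedBall (0 : Eu 4) R, ‖K t - ρ.normed volume t‖ ≤ δ') :
    ‖v x - dpc K v x‖ ≤ δ + δ' * ∫ y, ‖v y‖ := by
  have hcs : HasCompactSupport v := HasCompactSupport.intro hS hvS
  have hint : Integrable v := hv.integrable_of_hasCompactSupport hcs
  have h1 : dist (dpc (ρ.normed volume) v x) (v x) ≤ δ :=
    ContDiffBump.dist_normed_convolution_le (φ := ρ) (μ := volume) hint.aestronglyMeasurable hδ
  have hcomp : HasCompactSupport (fun t => v (x - t)) := by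
    refine HasCompactSupport.intro (hS.image (f := fun y => x - y) (by fun_prop)) ?_
    intro t ht
    refine hvS _ fun hm => ht ⟨x - t, hm, by simp⟩
  have i1 : Integrable (fun t => K t • v (x - t)) := by
    refine Continuous.integrable_of_hasCompactSupport (by fun_prop) ?_
    exact hcomp.smul_left
  have i2 : Integrable (fun t => ρ.normed volume t • v (x - t)) := by
    refine Continuous.integrable_of_hasCompactSupport ?_ ?_
    · exact ρ.continuous_normed.smul (by fun_prop)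
    · exact hcomp.smul_left
  have i3 : Integrable (fun t => ‖v (x - t)‖) := by
    refine Continuous.integrable_of_hasCompactSupport (by fun_prop) ?_
    exact hcomp.norm
  have h2 : ‖dpc (ρ.normed volume) v x - dpc K v x‖ ≤ δ' * ∫ y, ‖v y‖ := by
    have e1 : dpc (ρ.normed volume) v x - dpc K v x =
        ∫ t, (ρ.normed volume t - K t) • v (x - t) := by
      unfold dpc
      rw [← integral_sub i2 i1]
      refine integral_congr_ae (Filter.Eventually.of_forall fun t => ?_)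
      simp only [sub_smul]
    have e2 : ∫ y, ‖v y‖ = ∫ t, ‖v (x - t)‖ :=
      (integral_sub_left_eq_self (fun y => ‖v y‖) volume x).symm
    rw [e1, e2, ← integral_const_mul]
    refine norm_integral_le_of_norm_le (i3.const_mul δ') (Filter.Eventually.of_forall fun t => ?_)
    by_cases hm : x - t ∈ S
    · rw [norm_smul]
      refine mul_le_mul_of_nonneg_right ?_ (norm_nonneg _)
      rw [norm_sub_rev]
      refine hKρ t ?_
      rw [mem_closedBall_zero_iff]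
      have := hR _ hm
      simpa using this
    · rw [hvS _ hm]
      simp
  calc ‖v x - dpc K v x‖ = ‖(v x - dpc (ρ.normed volume) v x) +
        (dpc (ρ.normed volume) v x - dpc K v x)‖ := by
        congr 1
        abel
    _ ≤ ‖v x - dpc (ρ.normed volume) v x‖ + ‖dpc (ρ.normed volume) v x - dpc K v x‖ :=
        norm_add_le _ _
    _ ≤ δ + δ' * ∫ y, ‖v y‖ := by
        refine add_le_add ?_ h2
        rw [norm_sub_rev, ← dist_eq_norm]
        exact h1

theorem dp_sep_int {K g : Eu 4 → ℝ} (hK : DpSep K) (hg : Continuous g) (hc : HasCompactSupport g) :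
    ∃ (ι : Type) (_ : Fintype ι) (a : ι → Fin 4 → ℝ → ℝ) (r : ι → ℝ),
      (∀ k l, ContDiff ℝ ∞ (a k l)) ∧ ∀ x, dpc K g x = ∑ k, (∏ l, a k l (x l)) * r k := by
  obtain ⟨ι, hi, a, c, ha, hcc, e⟩ := hK
  refine ⟨ι, hi, a, fun k => ∫ y, c k y * g y, ha, fun x => ?_⟩
  have h1 : dpc K g x = ∫ y, K (x - y) * g y := by
    unfold dpc
    rw [← integral_sub_left_eq_self (fun y => K (x - y) * g y) volume x]
    refine integral_congr_ae (Filter.Eventually.of_forall fun t => ?_)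
    simp
  rw [h1]
  have h2 : ∀ y, K (x - y) * g y = ∑ k, (∏ l, a k l (x l)) * (c k y * g y) := by
    intro y
    rw [e, Finset.sum_mul]
    refine Finset.sum_congr rfl fun k _ => by ring
  simp only [h2]
  rw [integral_finset_sum]
  · refine Finset.sum_congr rfl fun k _ => ?_
    rw [integral_const_mul]
  · intro k _
    refine Integrable.const_mul ?_ _
    exact ((hcc k).mul hg).integrable_of_hasCompactSupport hc.mul_left

/-- The cut-off in one variable. -/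
def dpch (c : ℝ) (t : ℝ) : ℝ :=
  Real.smoothTransition ((t - c / 2) / (c / 2)) * Real.smoothTransition ((1 - c / 2 - t) / (c / 2))

theorem dpch_cd (c : ℝ) : ContDiff ℝ ∞ (dpch c) := by
  unfold dpch
  refine ContDiff.mul (Real.smoothTransition.contDiff.comp ?_)
    (Real.smoothTransition.contDiff.comp ?_)
  · exact (contDiff_id.sub contDiff_const).div_const _
  · exact (contDiff_const.sub contDiff_id).div_const _

theorem dpch_one {c t : ℝ} (hc : 0 < c) (h0 : c ≤ t) (h1 : t ≤ 1 - c) : dpch c t = 1 := by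
  unfold dpch
  rw [Real.smoothTransition.one_of_one_le, Real.smoothTransition.one_of_one_le, mul_one]
  · rw [le_div_iff₀ (by linarith)]
    linarith
  · rw [le_div_iff₀ (by linarith)]
    linarith

theorem dpch_supp {c t : ℝ} (hc : 0 < c) (h : dpch c t ≠ 0) : c / 2 ≤ t ∧ t ≤ 1 - c / 2 := by
  constructor
  · by_contra hlt
    push Not at hlt
    apply h
    unfold dpch
    rw [Real.smoothTransition.zero_of_nonpos, zero_mul]
    exact div_nonpos_of_nonpos_of_nonneg (by linarith) (by linarith)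
  · by_contra hlt
    push Not at hlt
    apply h
    unfold dpch
    rw [Real.smoothTransition.zero_of_nonpos (x := (1 - c / 2 - t) / (c / 2)), mul_zero]
    exact div_nonpos_of_nonpos_of_nonneg (by linarith) (by linarith)

/-- The product cut-off. -/
def dpX (c : ℝ) (x : Eu 4) : ℝ := ∏ l, dpch c (x l)

theorem dpX_cd (c : ℝ) : ContDiff ℝ ∞ (dpX c) := by
  unfold dpX
  refine contDiff_prod fun l _ => ?_
  exact (dpch_cd c).comp (EuclideanSpace.proj l : Eu 4 →L[ℝ] ℝ).contDiff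

theorem dpX_supp {c : ℝ} (hc : 0 < c) {x : Eu 4} (h : dpX c x ≠ 0) :
    ∀ l, c / 2 ≤ x l ∧ x l ≤ 1 - c / 2 := by
  intro l
  refine dpch_supp hc ?_
  unfold dpX at h
  rw [Finset.prod_ne_zero_iff] at h
  exact h l (Finset.mem_univ l)

theorem dpX_tsupp {c : ℝ} (hc : 0 < c) :
    tsupport (dpX c) ⊆ {x | ∀ l, c / 2 ≤ x l ∧ x l ≤ 1 - c / 2} := by
  refine closure_minimal (fun x hx => dpX_supp hc hx) ?_
  have : {x : Eu 4 | ∀ l, c / 2 ≤ x l ∧ x l ≤ 1 - c / 2} =
      ⋂ l, {x : Eu 4 | c / 2 ≤ x l ∧ x l ≤ 1 - c / 2} := by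
    ext x
    simp
  rw [this]
  refine isClosed_iInter fun l => ?_
  exact (isClosed_le continuous_const (EuclideanSpace.proj l : Eu 4 →L[ℝ] ℝ).continuous).inter
    (isClosed_le (EuclideanSpace.proj l : Eu 4 →L[ℝ] ℝ).continuous continuous_const)

theorem dp_norm_box {x y : Eu 4} (hx : ∀ l, 0 ≤ x l ∧ x l ≤ 1) (hy : ∀ l, 0 ≤ y l ∧ y l ≤ 1) :
    ‖x - y‖ ≤ 2 := by
  rw [EuclideanSpace.norm_eq]
  rw [Real.sqrt_le_left (by norm_num)]
  calc ∑ i, ‖(x - y) i‖ ^ 2 ≤ ∑ i : Fin 4, (1 : ℝ) := by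
        refine Finset.sum_le_sum fun i _ => ?_
        have h1 := hx i
        have h2 := hy i
        have h3 : ‖(x - y) i‖ ≤ 1 := by
          rw [Real.norm_eq_abs, abs_le, PiLp.sub_apply]
          constructor <;> linarith
        calc ‖(x - y) i‖ ^ 2 ≤ 1 ^ 2 := pow_le_pow_left₀ (norm_nonneg _) h3 2
          _ = 1 := by norm_num
    _ ≤ 2 ^ 2 := by
        simp
        norm_num

theorem dpX_cs {c : ℝ} (hc : 0 < c) : HasCompactSupport (dpX c) := by
  have h1 : tsupport (dpX c) ⊆ Metric.closedBall (0 : Eu 4) 2 := by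
    refine (dpX_tsupp hc).trans fun x hx => ?_
    rw [mem_closedBall_zero_iff, ← sub_zero x]
    refine dp_norm_box (fun l => ?_) (fun l => by simp)
    have := hx l
    constructor <;> linarith
  exact (isCompact_closedBall _ _).of_isClosed_subset (isClosed_tsupport _) h1

theorem dp_c (S : Set (Eu 4)) (hS : IsCompact S) (h : S ⊆ obox (fun _ => 0) (fun _ => 1)) :
    ∃ c : ℝ, 0 < c ∧ c < 1 ∧ ∀ x ∈ S, ∀ l, c ≤ x l ∧ x l ≤ 1 - c := by
  have h1 : ∀ l : Fin 4, ∃ c : ℝ, 0 < c ∧ ∀ x ∈ S, c ≤ x l ∧ x l ≤ 1 - c := by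
    intro l
    rcases S.eq_empty_or_nonempty with he | hne
    · exact ⟨1, one_pos, fun x hx => by simp [he] at hx⟩
    · obtain ⟨z, hz, hmin⟩ := hS.exists_isMinOn hne
        (f := fun x : Eu 4 => min (x l) (1 - x l)) (by fun_prop)
      have hz' := h hz l
      refine ⟨min (z l) (1 - z l), lt_min hz'.1 (by linarith [hz'.2]), fun x hx => ?_⟩
      have h2 : min (z l) (1 - z l) ≤ min (x l) (1 - x l) := hmin hx
      have h3 := h2.trans (min_le_left _ _)
      have h4 := h2.trans (min_le_right _ _)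
      exact ⟨h3, by linarith⟩
  choose c hc hcS using h1
  refine ⟨min (1 / 2) (min (min (c 0) (c 1)) (min (c 2) (c 3))),
    lt_min (by norm_num) (lt_min (lt_min (hc 0) (hc 1)) (lt_min (hc 2) (hc 3))),
    lt_of_le_of_lt (min_le_left _ _) (by norm_num), fun x hx l => ?_⟩
  have h2 : min (1 / 2) (min (min (c 0) (c 1)) (min (c 2) (c 3))) ≤ c l := by
    refine (min_le_right _ _).trans ?_
    fin_cases l
    · exact (min_le_left _ _).trans (min_le_left _ _)
    · exact (min_le_left _ _).trans (min_le_right _ _)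
    · exact (min_le_right _ _).trans (min_le_left _ _)
    · exact (min_le_right _ _).trans (min_le_right _ _)
  have h3 := hcS l x hx
  constructor <;> linarith

theorem dp_fd_zero {E : Type*} [NormedAddCommGroup E] [NormedSpace ℝ E] {v : Eu 4 → E}
    {S : Set (Eu 4)} (hS : IsCompact S) (hv : ∀ y ∉ S, v y = 0) : ∀ y ∉ S, fderiv ℝ v y = 0 := by
  intro y hy
  have h1 : v =ᶠ[nhds y] fun _ => 0 := by
    filter_upwards [hS.isClosed.isOpen_compl.mem_nhds hy] with z hz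
    exact hv z hz
  rw [h1.fderiv_eq]
  simp

theorem dp_uc {E : Type*} [NormedAddCommGroup E] {v : Eu 4 → E} (hc : HasCompactSupport v)
    (hv : Continuous v) {δ : ℝ} (hδ : 0 < δ) :
    ∃ r : ℝ, 0 < r ∧ ∀ a b, dist a b < r → dist (v a) (v b) < δ := by
  obtain ⟨r, hr, h⟩ := Metric.uniformContinuous_iff.mp (hc.uniformContinuous_of_continuous hv) δ hδ
  exact ⟨r, hr, fun a b => @h a b⟩

theorem dp_mem {K : Eu 4 → ℝ} {E : Type*} [NormedAddCommGroup E] [NormedSpace ℝ E]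
    [CompleteSpace E] {v : Eu 4 → E} (hK : Continuous K) (hv : Continuous v) {S : Set (Eu 4)}
    (hS : IsCompact S) (hvS : ∀ y ∉ S, v y = 0) {ρ : ContDiffBump (0 : Eu 4)} {x : Eu 4}
    {δ I r : ℝ} (hR : ∀ y ∈ S, ‖x - y‖ ≤ 2) (hrr : ρ.rOut ≤ r)
    (hu : ∀ a b, dist a b < r → dist (v a) (v b) < δ)
    (hKρ : ∀ t ∈ Metric.closedBall (0 : Eu 4) 2, ‖K t - ρ.normed volume t‖ ≤ δ / I)
    (hδ : 0 < δ) (hI : 0 < I) (hvI : ∫ y, ‖v y‖ ≤ I) : ‖v x - dpc K v x‖ ≤ 2 * δ := by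
  refine (dpc_diff hK hv S hS hvS (ρ := ρ) (δ := δ) hR (fun z hz => ?_) hKρ).trans ?_
  · exact (hu _ _ (lt_of_lt_of_le hz hrr)).le
  · have : δ / I * (∫ y, ‖v y‖) ≤ δ / I * I := mul_le_mul_of_nonneg_left hvI (by positivity)
    rw [div_mul_cancel₀ _ hI.ne'] at this
    linarith

theorem dp_diff_fd {E : Type*} [NormedAddCommGroup E] [NormedSpace ℝ E] {K : Eu 4 → ℝ}
    {v : Eu 4 → E} (hK : Continuous K) (hv : ContDiff ℝ 1 v) (hc : HasCompactSupport v) :
    fderiv ℝ (fun x => v x - dpc K v x) = fun x => fderiv ℝ v x - dpc K (fderiv ℝ v) x := by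
  funext x
  have h1 := (hv.differentiable (by simp) x).hasFDerivAt
  exact (h1.sub (dpc_fd hK hv hc x)).fderiv

theorem dp_K3 {E₀ E₁ E₂ : Type*} [NormedAddCommGroup E₀] [NormedSpace ℝ E₀] [CompleteSpace E₀]
    [NormedAddCommGroup E₁] [NormedSpace ℝ E₁] [CompleteSpace E₁]
    [NormedAddCommGroup E₂] [NormedSpace ℝ E₂] [CompleteSpace E₂]
    {v₀ : Eu 4 → E₀} {v₁ : Eu 4 → E₁} {v₂ : Eu 4 → E₂} {S : Set (Eu 4)} (hS : IsCompact S)
    (hSU : S ⊆ obox (fun _ => 0) (fun _ => 1)) (h₀ : Continuous v₀) (h₁ : Continuous v₁)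
    (h₂ : Continuous v₂) (s₀ : ∀ y ∉ S, v₀ y = 0) (s₁ : ∀ y ∉ S, v₁ y = 0)
    (s₂ : ∀ y ∉ S, v₂ y = 0) {δ : ℝ} (hδ : 0 < δ) :
    ∃ K, DpSep K ∧ ∀ x : Eu 4, (∀ l, 0 ≤ x l ∧ x l ≤ 1) → ‖v₀ x - dpc K v₀ x‖ ≤ 2 * δ ∧
      ‖v₁ x - dpc K v₁ x‖ ≤ 2 * δ ∧ ‖v₂ x - dpc K v₂ x‖ ≤ 2 * δ := by
  obtain ⟨r0, hr0, hu0⟩ := dp_uc (HasCompactSupport.intro hS s₀) h₀ hδ
  obtain ⟨r1, hr1, hu1⟩ := dp_uc (HasCompactSupport.intro hS s₁) h₁ hδ
  obtain ⟨r2, hr2, hu2⟩ := dp_uc (HasCompactSupport.intro hS s₂) h₂ hδ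
  obtain ⟨r, hrp, hrr0, hrr1, hrr2⟩ : ∃ r : ℝ, 0 < r ∧ r ≤ r0 ∧ r ≤ r1 ∧ r ≤ r2 :=
    ⟨min r0 (min r1 r2), lt_min hr0 (lt_min hr1 hr2), min_le_left _ _,
      (min_le_right _ _).trans (min_le_left _ _), (min_le_right _ _).trans (min_le_right _ _)⟩
  obtain ⟨ρ, hρ⟩ : ∃ ρ : ContDiffBump (0 : Eu 4), ρ.rOut = r :=
    ⟨⟨r / 2, r, by positivity, by linarith⟩, rfl⟩
  have n0 : 0 ≤ ∫ y, ‖v₀ y‖ := integral_nonneg fun y => norm_nonneg _
  have n1 : 0 ≤ ∫ y, ‖v₁ y‖ := integral_nonneg fun y => norm_nonneg _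
  have n2 : 0 ≤ ∫ y, ‖v₂ y‖ := integral_nonneg fun y => norm_nonneg _
  obtain ⟨I, hI, i0, i1, i2⟩ : ∃ I : ℝ, 0 < I ∧ (∫ y, ‖v₀ y‖) ≤ I ∧ (∫ y, ‖v₁ y‖) ≤ I ∧
      (∫ y, ‖v₂ y‖) ≤ I :=
    ⟨1 + (∫ y, ‖v₀ y‖) + (∫ y, ‖v₁ y‖) + ∫ y, ‖v₂ y‖,
      by linarith, by linarith, by linarith, by linarith⟩
  obtain ⟨K, hK, hKρ⟩ := dp_sw (ρ.normed volume) ρ.continuous_normed 2 (δ / I) (by positivity)
  have hKc := dp_cont hK
  refine ⟨K, hK, fun x hx => ?_⟩
  have hR : ∀ y ∈ S, ‖x - y‖ ≤ 2 := fun y hy => dp_norm_box hx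
    (fun l => ⟨(hSU hy l).1.le, (hSU hy l).2.le⟩)
  exact ⟨dp_mem hKc h₀ hS s₀ (ρ := ρ) hR (hρ.trans_le hrr0) hu0 hKρ hδ hI i0,
    dp_mem hKc h₁ hS s₁ (ρ := ρ) hR (hρ.trans_le hrr1) hu1 hKρ hδ hI i1,
    dp_mem hKc h₂ hS s₂ (ρ := ρ) hR (hρ.trans_le hrr2) hu2 hKρ hδ hI i2⟩

theorem dp_kernel {g : Eu 4 → ℝ} (hg : ContDiff ℝ ∞ g) {S : Set (Eu 4)} (hS : IsCompact S)
    (hSU : S ⊆ obox (fun _ => 0) (fun _ => 1)) (hgS : ∀ y ∉ S, g y = 0) {δ : ℝ} (hδ : 0 < δ) :
    ∃ K, DpSep K ∧ ∀ x : Eu 4, (∀ l, 0 ≤ x l ∧ x l ≤ 1) → ∀ i ≤ 2,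
      ‖iteratedFDeriv ℝ i (fun x => g x - dpc K g x) x‖ ≤ 2 * δ := by
  have hg1 : ContDiff ℝ ∞ (fderiv ℝ g) := hg.fderiv_right (by simp)
  have hg2 : ContDiff ℝ ∞ (fderiv ℝ (fderiv ℝ g)) := hg1.fderiv_right (by simp)
  have s1 := dp_fd_zero hS hgS
  have s2 := dp_fd_zero hS s1
  have c0 : HasCompactSupport g := HasCompactSupport.intro hS hgS
  have c1 : HasCompactSupport (fderiv ℝ g) := HasCompactSupport.intro hS s1
  obtain ⟨K, hK, h⟩ := dp_K3 hS hSU hg.continuous hg1.continuous hg2.continuous hgS s1 s2 hδ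
  have hKc := dp_cont hK
  have e1 := dp_diff_fd hKc (hg.of_le (by simp)) c0
  have e2 := dp_diff_fd hKc (hg1.of_le (by simp)) c1
  refine ⟨K, hK, fun x hx i hi => ?_⟩
  obtain ⟨h0, h1, h2⟩ := h x hx
  rcases (show i = 0 ∨ i = 1 ∨ i = 2 by omega) with rfl | rfl | rfl
  · rw [norm_iteratedFDeriv_zero]
    exact h0
  · rw [norm_iteratedFDeriv_one, e1]
    exact h1
  · rw [← norm_iteratedFDeriv_fderiv, norm_iteratedFDeriv_one, e1, e2]
    exact h2

theorem dp_cut {c : ℝ} (hc : 0 < c) {u : Eu 4 → ℝ} (hu : ContDiff ℝ ∞ u) {B δ : ℝ} (hB0 : 0 < B)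
    (hδ : 0 < δ) (hB : ∀ i ≤ 2, ∀ x, ‖iteratedFDeriv ℝ i (dpX c) x‖ ≤ B)
    (hbox : ∀ x : Eu 4, (∀ l, 0 ≤ x l ∧ x l ≤ 1) → ∀ i ≤ 2, ‖iteratedFDeriv ℝ i u x‖ ≤ 2 * δ) :
    ∀ x : Eu 4, ∀ i ≤ 2, ‖iteratedFDeriv ℝ i (fun x => dpX c x * u x) x‖ ≤ B * (8 * δ) := by
  intro x i hi
  refine (norm_iteratedFDeriv_mul_le (dpX_cd c) hu x (n := i)
    (by exact_mod_cast le_top)).trans ?_
  have hterm : ∀ j ≤ i, ‖iteratedFDeriv ℝ j (dpX c) x‖ * ‖iteratedFDeriv ℝ (i - j) u x‖ ≤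
      B * (2 * δ) := by
    intro j hj
    by_cases hx : x ∈ tsupport (dpX c)
    · have hx' := dpX_tsupp hc hx
      refine mul_le_mul (hB j (hj.trans hi) x) (hbox x (fun l => ?_) _ (by omega))
        (norm_nonneg _) hB0.le
      have := hx' l
      constructor <;> linarith
    · have h1 : iteratedFDeriv ℝ j (dpX c) x = 0 := by
        by_contra hne
        exact hx (support_iteratedFDeriv_subset j hne)
      rw [h1, norm_zero, zero_mul]
      positivity
  have h2 : ∑ j ∈ Finset.range (i + 1), (i.choose j : ℝ) * ‖iteratedFDeriv ℝ j (dpX c) x‖ *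
      ‖iteratedFDeriv ℝ (i - j) u x‖ ≤
      ∑ j ∈ Finset.range (i + 1), (i.choose j : ℝ) * (B * (2 * δ)) := by
    refine Finset.sum_le_sum fun j hj => ?_
    rw [mul_assoc]
    refine mul_le_mul_of_nonneg_left (hterm j ?_) (by positivity)
    rw [Finset.mem_range] at hj
    omega
  refine h2.trans ?_
  rw [← Finset.sum_mul]
  have h3 : ∑ j ∈ Finset.range (i + 1), (i.choose j : ℝ) ≤ 4 := by
    have : ∑ j ∈ Finset.range (i + 1), (i.choose j : ℝ) = 2 ^ i := by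
      exact_mod_cast Nat.sum_range_choose i
    rw [this]
    calc (2 : ℝ) ^ i ≤ 2 ^ 2 := pow_le_pow_right₀ (by norm_num) hi
      _ = 4 := by norm_num
  have h4 : (∑ j ∈ Finset.range (i + 1), (i.choose j : ℝ)) * (B * (2 * δ)) ≤
      4 * (B * (2 * δ)) := mul_le_mul_of_nonneg_right h3 (by positivity)
  linarith

theorem dpX_bd {c : ℝ} (hc : 0 < c) :
    ∃ B : ℝ, 0 < B ∧ ∀ i ≤ 2, ∀ x, ‖iteratedFDeriv ℝ i (dpX c) x‖ ≤ B := by
  have h1 : ∀ i : ℕ, ∃ C : ℝ, ∀ x, ‖iteratedFDeriv ℝ i (dpX c) x‖ ≤ C := fun i =>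
    ((dpX_cd c).continuous_iteratedFDeriv (m := i)
      (by exact_mod_cast le_top)).bounded_above_of_compact_support
      ((dpX_cs hc).iteratedFDeriv i)
  choose C hC using h1
  refine ⟨|C 0| + |C 1| + |C 2| + 1, by positivity, fun i hi x => ?_⟩
  have h2 := abs_nonneg (C 0)
  have h3 := abs_nonneg (C 1)
  have h4 := abs_nonneg (C 2)
  refine (hC i x).trans ((le_abs_self _).trans ?_)
  interval_cases i <;> linarith

theorem dp_final (g : Eu 4 → ℝ) (hg : ContDiff ℝ ∞ g) {S : Set (Eu 4)} (hS : IsCompact S)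
    (hSU : S ⊆ obox (fun _ => 0) (fun _ => 1)) (hgS : ∀ y ∉ S, g y = 0) {c : ℝ} (hc : 0 < c)
    (hcS : ∀ x ∈ S, ∀ l, c ≤ x l ∧ x l ≤ 1 - c) {η : ℝ} (hη : 0 < η) :
    ∃ (ι : Type) (_ : Fintype ι) (b : ι → Fin 4 → ℝ → ℝ), (∀ k l, ContDiff ℝ ∞ (b k l)) ∧
      (∀ k l t, b k l t ≠ 0 → c / 2 ≤ t ∧ t ≤ 1 - c / 2) ∧
      ∀ x, ∀ i ≤ 2, ‖iteratedFDeriv ℝ i (fun x : Eu 4 => g x - ∑ k, ∏ l, b k l (x l)) x‖ ≤ η := by
  obtain ⟨B, hB0, hB⟩ := dpX_bd hc
  obtain ⟨δ, hδ, hδη⟩ : ∃ δ : ℝ, 0 < δ ∧ B * (8 * δ) ≤ η :=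
    ⟨η / (8 * B), by positivity, le_of_eq (by field_simp)⟩
  obtain ⟨K, hK, hbox⟩ := dp_kernel hg hS hSU hgS hδ
  have c0 : HasCompactSupport g := HasCompactSupport.intro hS hgS
  obtain ⟨ι, hι, a, q, ha, hq⟩ := dp_sep_int hK hg.continuous c0
  have hdp : ContDiff ℝ ∞ (dpc K g) := by
    have : dpc K g = fun x => ∑ k, (∏ l, a k l (x l)) * q k := funext hq
    rw [this]
    refine ContDiff.sum fun k _ => ContDiff.mul (contDiff_prod fun l _ => ?_) contDiff_const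
    exact (ha k l).comp (EuclideanSpace.proj l : Eu 4 →L[ℝ] ℝ).contDiff
  refine ⟨ι, hι, fun k l t => (if l = 0 then q k else 1) * (dpch c t * a k l t), ?_, ?_, ?_⟩
  · intro k l
    exact contDiff_const.mul ((dpch_cd c).mul (ha _ l))
  · intro k l t ht
    refine dpch_supp hc fun h0 => ht ?_
    show (if l = 0 then q k else 1) * (dpch c t * a k l t) = 0
    rw [h0, zero_mul, mul_zero]
  · have hh : (fun x : Eu 4 => g x - ∑ k, ∏ l, (if l = 0 then q k else 1) *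
        (dpch c (x l) * a k l (x l))) = fun x => dpX c x * (g x - dpc K g x) := by
      funext x
      have hsum : ∑ k, ∏ l, (if l = 0 then q k else 1) * (dpch c (x l) * a k l (x l)) =
          dpX c x * dpc K g x := by
        rw [hq x, Finset.mul_sum]
        refine Finset.sum_congr rfl fun k _ => ?_
        rw [Finset.prod_mul_distrib, Finset.prod_mul_distrib, Finset.prod_ite_eq']
        unfold dpX
        simp only [Finset.mem_univ, if_true]
        ring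
      rw [hsum]
      have h1 : g x = dpX c x * g x := by
        by_cases hx : x ∈ S
        · have : dpX c x = 1 := by
            unfold dpX
            exact Finset.prod_eq_one fun l _ => dpch_one hc (hcS x hx l).1 (hcS x hx l).2
          rw [this, one_mul]
        · rw [hgS x hx, mul_zero]
      rw [mul_sub, ← h1]
    intro x i hi
    have h2 := dp_cut hc (hg.sub hdp) hB0 hδ hB hbox x i hi
    refine le_trans ?_ hδη
    rw [hh]
    exact h2

theorem de_prod : DEProd := by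
  rintro g ⟨hg, S, hS, hSU, hgS⟩
  obtain ⟨c, hc, hc1, hcS⟩ := dp_c S hS hSU
  refine ⟨fun _ => c / 2, fun _ => 1 - c / 2, fun k => ⟨by positivity, by linarith, by linarith⟩,
    fun η hη => ?_⟩
  obtain ⟨ι, hι, b, hb, hbs, hfin⟩ := dp_final g hg hS hSU hgS hc hcS hη
  have hsum : (fun x : Eu 4 => g x - ∑ k, ∏ l, b ((Fintype.equivFin ι).symm k) l (x l)) =
      fun x : Eu 4 => g x - ∑ k, ∏ l, b k l (x l) := by
    funext x
    rw [(Fintype.equivFin ι).symm.sum_comp (fun k => ∏ l, b k l (x l))]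
  refine ⟨Fintype.card ι, fun k => b ((Fintype.equivFin ι).symm k), fun k l => hb _ l,
    fun k l t ht => hbs _ l t ht, fun x => ?_⟩
  have h0 := hfin x 0 (by norm_num)
  have h1 := hfin x 1 (by norm_num)
  have h2 := hfin x 2 (by norm_num)
  rw [norm_iteratedFDeriv_zero] at h0
  rw [norm_iteratedFDeriv_one] at h1
  rw [← norm_iteratedFDeriv_fderiv, norm_iteratedFDeriv_one] at h2
  rw [← hsum] at h1 h2
  refine ⟨?_, h1, h2⟩
  have h3 := congrFun hsum x
  simp only at h3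
  rw [h3]
  exact h0

end

end Pool.Agent.H6.ST
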