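import Pool.Agent.H6.ST.DE.Defs
import Pool.Agent.H68.GM.WMW
import Pool.Agent.H68.GM.PushK

/-! # The sharp trichotomy (ST-DE5): norms of fields supported in a compact subset of a chart -/

set_option autoImplicit false
set_option maxHeartbeats 400000

namespace Pool.Agent.H6.ST

open MeasureTheory Set Pool.Agent.H68.VD Pool.Agent.H68.GM
open scoped ENNReal ContDiff Topology

noncomputable section

namespace DE5

variable {n : ℕ} {M : Type} [TopologicalSpace M] {ι : Type}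
  {ch : ι → OpenPartialHomeomorph M (Eu n)}

/-- Off the overlap the pushed field vanishes near the point. -/
theorem push_near [T2Space M] {i j : ι} {K' Kj : Set (Eu n)} (hK' : IsCompact K')
    (hKi : K' ⊆ (ch i).target) (hKj : Kj ⊆ (ch j).target) {u : Eu n → Eu n}
    (hu : ∀ y ∉ K', u y = 0) {y : Eu n} (hy : y ∈ Kj) (hS : y ∉ WMWA.ov ch i j K' Kj) :
    push ch i u j =ᶠ[𝓝 y] fun _ => 0 := by
  have hC := PushKA.isClosed_img ch i hK' hKi
  have hz : (ch j).symm y ∉ (ch i).symm '' K' := by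
    rintro ⟨w, hw, he⟩
    apply hS
    have hs : (ch j).symm y ∈ (ch i).source := by
      rw [← he]
      exact (ch i).map_target (hKi hw)
    refine ⟨hy, ⟨hKj hy, hs⟩, ?_⟩
    change ch i ((ch j).symm y) ∈ K'
    rw [← he, (ch i).right_inv (hKi hw)]
    exact hw
  have hopen : IsOpen ((ch j).target ∩ (ch j).symm ⁻¹' ((ch i).symm '' K')ᶜ) :=
    (ch j).symm.isOpen_inter_preimage hC.isOpen_compl
  filter_upwards [hopen.mem_nhds ⟨hKj hy, hz⟩] with y' hy'
  exact PushKA.push_zero ch hu (fun _ => hy'.2)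

theorem pt_bound [T2Space M] (hA : VolAtlas ch) (i j : ι) {K' Kj : Set (Eu n)}
    (hK' : IsCompact K') (hKi : K' ⊆ (ch i).target) (hKjc : IsCompact Kj)
    (hKj : Kj ⊆ (ch j).target) : ∃ C : ℝ, 0 ≤ C ∧ ∀ u : Eu n → Eu n, ContDiff ℝ ∞ u →
      (∀ y ∉ K', u y = 0) → ∀ y ∈ Kj,
      ‖push ch i u j y‖ₑ ≤ (dom ch j i).indicator
        (fun y => ENNReal.ofReal C * ‖u (tr ch j i y)‖ₑ) y ∧
      ‖fderiv ℝ (push ch i u j) y‖ₑ ≤ (dom ch j i).indicator
        (fun y => ENNReal.ofReal C * (‖u (tr ch j i y)‖ₑ + ‖fderiv ℝ u (tr ch j i y)‖ₑ)) y := by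
  have hS : IsCompact (WMWA.ov ch i j K' Kj) := WMWA.ov_compact i j K' Kj hK' hKi hKjc hKj
  have hSd : WMWA.ov ch i j K' Kj ⊆ dom ch j i := fun y hy => hy.2.1
  have hdo : IsOpen (dom ch j i) := PushKA.isOpen_dom ch j i
  have hAs := PushKA.smooth_fd hA i j
  have hA' : ContDiffOn ℝ ∞ (fderiv ℝ (fun y => fderiv ℝ (tr ch i j) (tr ch j i y)))
      (dom ch j i) := hAs.fderiv_of_isOpen hdo (by simp)
  have hT' : ContDiffOn ℝ ∞ (fderiv ℝ (tr ch j i)) (dom ch j i) :=
    (hA.smooth j i).fderiv_of_isOpen hdo (by simp)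
  obtain ⟨a, ha⟩ := hS.exists_bound_of_continuousOn (hAs.continuousOn.mono hSd)
  have hA'c : ContinuousOn (fderiv ℝ (fun y => fderiv ℝ (tr ch i j) (tr ch j i y)))
      (WMWA.ov ch i j K' Kj) := hA'.continuousOn.mono hSd
  obtain ⟨a', ha'⟩ : ∃ a' : ℝ, ∀ y ∈ WMWA.ov ch i j K' Kj,
      ‖fderiv ℝ (fun y => fderiv ℝ (tr ch i j) (tr ch j i y)) y‖ ≤ a' := by
    have hn : ContinuousOn (fun y => ‖fderiv ℝ (fun y => fderiv ℝ (tr ch i j) (tr ch j i y)) y‖)
        (WMWA.ov ch i j K' Kj) :=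
      ContinuousOn.norm (E := Eu n →L[ℝ] (Eu n →L[ℝ] Eu n))
        (f := fderiv ℝ (fun y => fderiv ℝ (tr ch i j) (tr ch j i y))) hA'c
    obtain ⟨a', ha'⟩ := (hS.image_of_continuousOn hn).bddAbove
    exact ⟨a', fun y hy => ha' ⟨y, hy, rfl⟩⟩
  obtain ⟨b, hb⟩ := hS.exists_bound_of_continuousOn (hT'.continuousOn.mono hSd)
  set C : ℝ := max |a| (max |a'| (|a| * |b|)) with hCdef
  have hC1 : |a| ≤ C := le_max_left _ _
  have hC2 : |a'| ≤ C := le_trans (le_max_left _ _) (le_max_right _ _)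
  have hC3 : |a| * |b| ≤ C := le_trans (le_max_right _ _) (le_max_right _ _)
  have hC0 : 0 ≤ C := le_trans (abs_nonneg _) hC1
  refine ⟨C, hC0, fun u hu hu0 y hy => ?_⟩
  by_cases hyS : y ∈ WMWA.ov ch i j K' Kj
  · have hd : y ∈ dom ch j i := hSd hyS
    rw [indicator_of_mem hd, indicator_of_mem hd]
    have hA1 : ‖fderiv ℝ (tr ch i j) (tr ch j i y)‖ ≤ |a| := le_trans (ha y hyS) (le_abs_self a)
    have hA2 : ‖fderiv ℝ (fun y => fderiv ℝ (tr ch i j) (tr ch j i y)) y‖ ≤ |a'| :=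
      le_trans (ha' y hyS) (le_abs_self a')
    have hA3 : ‖fderiv ℝ (tr ch j i) y‖ ≤ |b| := le_trans (hb y hyS) (le_abs_self b)
    constructor
    · rw [PushKA.push_eq ch u hd, ← ofReal_norm, ← ofReal_norm, ← ENNReal.ofReal_mul hC0]
      apply ENNReal.ofReal_le_ofReal
      refine le_trans (ContinuousLinearMap.le_opNorm _ _) ?_
      exact mul_le_mul_of_nonneg_right (le_trans hA1 hC1) (norm_nonneg _)
    · have hev : push ch i u j =ᶠ[𝓝 y]
          fun y => fderiv ℝ (tr ch i j) (tr ch j i y) (u (tr ch j i y)) := by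
        filter_upwards [hdo.mem_nhds hd] with z hz
        exact PushKA.push_eq ch u hz
      have h1 : HasFDerivAt (fun y => fderiv ℝ (tr ch i j) (tr ch j i y))
          (fderiv ℝ (fun y => fderiv ℝ (tr ch i j) (tr ch j i y)) y) y :=
        ((hAs.contDiffAt (hdo.mem_nhds hd)).differentiableAt (by simp)).hasFDerivAt
      have h2 : HasFDerivAt (tr ch j i) (fderiv ℝ (tr ch j i) y) y :=
        (((hA.smooth j i).contDiffAt (hdo.mem_nhds hd)).differentiableAt (by simp)).hasFDerivAt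
      have h3 : HasFDerivAt u (fderiv ℝ u (tr ch j i y)) (tr ch j i y) :=
        ((hu.differentiable (by simp)) _).hasFDerivAt
      have h4 := h1.clm_apply (h3.comp y h2)
      rw [hev.fderiv_eq]
      have h5 : fderiv ℝ (fun y => fderiv ℝ (tr ch i j) (tr ch j i y) (u (tr ch j i y))) y = _ :=
        h4.fderiv
      rw [h5]
      have h6 : ∀ v, ‖(((fderiv ℝ (tr ch i j) (tr ch j i y)).comp
          ((fderiv ℝ u (tr ch j i y)).comp (fderiv ℝ (tr ch j i) y)) +
          (fderiv ℝ (fun y => fderiv ℝ (tr ch i j) (tr ch j i y)) y).flip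
            (u (tr ch j i y)) : Eu n →L[ℝ] Eu n) v)‖ ≤
          (C * (‖u (tr ch j i y)‖ + ‖fderiv ℝ u (tr ch j i y)‖)) * ‖v‖ := by
        intro v
        have e1 : ‖fderiv ℝ (tr ch i j) (tr ch j i y)
            (fderiv ℝ u (tr ch j i y) (fderiv ℝ (tr ch j i) y v))‖ ≤
            |a| * (‖fderiv ℝ u (tr ch j i y)‖ * (|b| * ‖v‖)) := by
          refine le_trans (ContinuousLinearMap.le_opNorm _ _) ?_
          refine mul_le_mul hA1 ?_ (norm_nonneg _) (abs_nonneg _)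
          refine le_trans (ContinuousLinearMap.le_opNorm _ _) ?_
          refine mul_le_mul_of_nonneg_left ?_ (norm_nonneg _)
          refine le_trans (ContinuousLinearMap.le_opNorm _ _) ?_
          exact mul_le_mul_of_nonneg_right hA3 (norm_nonneg _)
        have e2 : ‖(fderiv ℝ (fun y => fderiv ℝ (tr ch i j) (tr ch j i y)) y v)
            (u (tr ch j i y))‖ ≤ |a'| * ‖v‖ * ‖u (tr ch j i y)‖ := by
          refine le_trans (ContinuousLinearMap.le_opNorm _ _) ?_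
          refine mul_le_mul_of_nonneg_right ?_ (norm_nonneg _)
          refine le_trans (ContinuousLinearMap.le_opNorm _ _) ?_
          exact mul_le_mul_of_nonneg_right hA2 (norm_nonneg _)
        have e3 : |a| * (‖fderiv ℝ u (tr ch j i y)‖ * (|b| * ‖v‖)) ≤
            C * ‖fderiv ℝ u (tr ch j i y)‖ * ‖v‖ := by
          calc |a| * (‖fderiv ℝ u (tr ch j i y)‖ * (|b| * ‖v‖)) =
              (|a| * |b|) * (‖fderiv ℝ u (tr ch j i y)‖ * ‖v‖) := by ring
            _ ≤ C * (‖fderiv ℝ u (tr ch j i y)‖ * ‖v‖) :=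
              mul_le_mul_of_nonneg_right hC3 (by positivity)
            _ = C * ‖fderiv ℝ u (tr ch j i y)‖ * ‖v‖ := by ring
        have e4 : |a'| * ‖v‖ * ‖u (tr ch j i y)‖ ≤ C * ‖u (tr ch j i y)‖ * ‖v‖ := by
          calc |a'| * ‖v‖ * ‖u (tr ch j i y)‖ = |a'| * (‖u (tr ch j i y)‖ * ‖v‖) := by ring
            _ ≤ C * (‖u (tr ch j i y)‖ * ‖v‖) := mul_le_mul_of_nonneg_right hC2 (by positivity)
            _ = C * ‖u (tr ch j i y)‖ * ‖v‖ := by ring
        refine le_trans (norm_add_le _ _) ?_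
        refine le_trans (add_le_add e1 e2) ?_
        refine le_trans (add_le_add e3 e4) ?_
        apply le_of_eq
        ring
      have h7 := ContinuousLinearMap.opNorm_le_bound _
        (mul_nonneg hC0 (add_nonneg (norm_nonneg _) (norm_nonneg _))) h6
      rw [← ofReal_norm, ← ofReal_norm, ← ofReal_norm,
        ← ENNReal.ofReal_add (norm_nonneg _) (norm_nonneg _), ← ENNReal.ofReal_mul hC0]
      exact ENNReal.ofReal_le_ofReal h7
  · have h0 := push_near hK' hKi hKj hu0 hy hyS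
    have h1 : fderiv ℝ (push ch i u j) y = 0 := by
      rw [h0.fderiv_eq]
      exact fderiv_const_apply (𝕜 := ℝ) (0 : Eu n)
    have h2 : push ch i u j y = 0 := h0.eq_of_nhds
    constructor
    · rw [h2, ← ofReal_norm, norm_zero, ENNReal.ofReal_zero]
      exact bot_le
    · rw [h1, ← ofReal_norm, norm_zero, ENNReal.ofReal_zero]
      exact bot_le

theorem chart_bound [T2Space M] (hA : VolAtlas ch) (i j : ι) {K' Kj : Set (Eu n)}
    (hK' : IsCompact K') (hKi : K' ⊆ (ch i).target) (hKjc : IsCompact Kj)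
    (hKj : Kj ⊆ (ch j).target) : ∃ C : ℝ, 0 ≤ C ∧ ∀ u : Eu n → Eu n, ContDiff ℝ ∞ u →
      (∀ y ∉ K', u y = 0) →
      ∫⁻ y in Kj, ‖push ch i u j y‖ₑ ≤ ENNReal.ofReal C * (∫⁻ y, ‖u y‖ₑ) ∧
      ∫⁻ y in Kj, (‖push ch i u j y‖ₑ + ‖fderiv ℝ (push ch i u j) y‖ₑ) ≤
        ENNReal.ofReal C * ((∫⁻ y, ‖u y‖ₑ) + (∫⁻ y, ‖fderiv ℝ u y‖ₑ)) := by
  obtain ⟨C, hC, hb⟩ := pt_bound hA i j hK' hKi hKjc hKj
  have hm : MeasurableSet (dom ch j i) := (PushKA.isOpen_dom ch j i).measurableSet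
  refine ⟨C + C, by linarith, fun u hu hu0 => ⟨?_, ?_⟩⟩
  · calc ∫⁻ y in Kj, ‖push ch i u j y‖ₑ
        ≤ ∫⁻ y in Kj, (dom ch j i).indicator
            (fun y => ENNReal.ofReal C * ‖u (tr ch j i y)‖ₑ) y :=
          setLIntegral_mono' hKjc.isClosed.measurableSet fun y hy => (hb u hu hu0 y hy).1
      _ ≤ ∫⁻ y, (dom ch j i).indicator
            (fun y => ENNReal.ofReal C * ‖u (tr ch j i y)‖ₑ) y := setLIntegral_le_lintegral _ _
      _ = ENNReal.ofReal C * ∫⁻ y in dom ch j i, ‖u (tr ch j i y)‖ₑ := by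
          rw [lintegral_indicator hm, lintegral_const_mul' _ _ ENNReal.ofReal_ne_top]
      _ ≤ ENNReal.ofReal C * (∫⁻ y, ‖u y‖ₑ) :=
          mul_le_mul' le_rfl (WMWA.cov hA i j (fun z => ‖u z‖ₑ))
      _ ≤ ENNReal.ofReal (C + C) * (∫⁻ y, ‖u y‖ₑ) :=
          mul_le_mul' (ENNReal.ofReal_le_ofReal (by linarith)) le_rfl
  · calc ∫⁻ y in Kj, (‖push ch i u j y‖ₑ + ‖fderiv ℝ (push ch i u j) y‖ₑ)
        ≤ ∫⁻ y in Kj, (dom ch j i).indicator
            (fun y => ENNReal.ofReal (C + C) *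
              (‖u (tr ch j i y)‖ₑ + ‖fderiv ℝ u (tr ch j i y)‖ₑ)) y := by
          refine setLIntegral_mono' hKjc.isClosed.measurableSet fun y hy => ?_
          obtain ⟨h1, h2⟩ := hb u hu hu0 y hy
          refine le_trans (add_le_add h1 h2) ?_
          by_cases hd : y ∈ dom ch j i
          · rw [indicator_of_mem hd, indicator_of_mem hd, indicator_of_mem hd,
              ENNReal.ofReal_add hC hC, add_mul]
            exact add_le_add (mul_le_mul' le_rfl le_self_add) le_rfl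
          · rw [indicator_of_notMem hd, indicator_of_notMem hd, indicator_of_notMem hd, add_zero]
      _ ≤ ∫⁻ y, (dom ch j i).indicator
            (fun y => ENNReal.ofReal (C + C) *
              (‖u (tr ch j i y)‖ₑ + ‖fderiv ℝ u (tr ch j i y)‖ₑ)) y :=
          setLIntegral_le_lintegral _ _
      _ = ENNReal.ofReal (C + C) * ∫⁻ y in dom ch j i,
            (‖u (tr ch j i y)‖ₑ + ‖fderiv ℝ u (tr ch j i y)‖ₑ) := by
          rw [lintegral_indicator hm, lintegral_const_mul' _ _ ENNReal.ofReal_ne_top]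
      _ ≤ ENNReal.ofReal (C + C) * (∫⁻ z, (‖u z‖ₑ + ‖fderiv ℝ u z‖ₑ)) :=
          mul_le_mul' le_rfl (WMWA.cov hA i j (fun z => ‖u z‖ₑ + ‖fderiv ℝ u z‖ₑ))
      _ = ENNReal.ofReal (C + C) * ((∫⁻ y, ‖u y‖ₑ) + (∫⁻ y, ‖fderiv ℝ u y‖ₑ)) := by
          rw [lintegral_add_left]
          exact hu.continuous.enorm.measurable

end DE5

/-- ST-DE5. -/
theorem push_b : PushB := by
  intro n M _ _ _ _ ι _ ch hA K hK i K' hK' hKi
  choose C hC hb using fun j => DE5.chart_bound hA i j hK' hKi (hK.cpt j) (hK.sub j)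
  refine ⟨∑ j, C j, Finset.sum_nonneg fun j _ => hC j, fun u hu hu0 => ⟨?_, ?_⟩⟩
  · unfold L1M
    rw [ENNReal.ofReal_sum_of_nonneg fun j _ => hC j, Finset.sum_mul]
    exact Finset.sum_le_sum fun j _ => (hb j u hu hu0).1
  · unfold W1M
    rw [ENNReal.ofReal_sum_of_nonneg fun j _ => hC j, Finset.sum_mul]
    exact Finset.sum_le_sum fun j _ => (hb j u hu hu0).2

end

end Pool.Agent.H6.ST
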