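import Pool.Agent.H6.ST.DE.Defs
import Pool.Agent.H68.GM.MFamK

/-! # The sharp trichotomy (ST), row DE8: the local step -/

namespace Pool.Agent.H6.ST

open MeasureTheory Set Pool.Agent.H68.VD Pool.Agent.H68.GM
open scoped ENNReal ContDiff

noncomputable section

section

variable {n : ℕ} {M : Type} [TopologicalSpace M] [Nonempty M] {ι : Type}
  {ch : ι → OpenPartialHomeomorph M (Eu n)}

omit [TopologicalSpace M] in
theorem de8_invFun_id : Function.invFun (id : M → M) = id := by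
  funext x
  exact Function.leftInverse_invFun Function.injective_id x

omit [Nonempty M] in
theorem de8_fderiv_id (i : ι) {y : Eu n} (hy : y ∈ (ch i).target) (v : Eu n) :
    fderiv ℝ (fun y => ch i ((ch i).symm y)) y v = v := by
  have h1 : (fun y => ch i ((ch i).symm y)) =ᶠ[nhds y] fun y => y := by
    filter_upwards [(ch i).open_target.mem_nhds hy] with z hz
    exact (ch i).right_inv hz
  rw [h1.fderiv_eq]
  simp

/-- The velocity of a product of two families that are the identity at time `0`. -/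
theorem de8_vel_mul (hk : MFamKit) (ha : VolAtlas ch) {φ ψ : ℝ → M → M} (hφ : MFam ch φ)
    (hψ : MFam ch ψ) (h0 : ∀ x, φ 0 x = x) (h0' : ∀ x, ψ 0 x = x) (i : ι) (y : Eu n) :
    mvel ch (fun t x => φ t (ψ t x)) 0 i y = mvel ch φ 0 i y + mvel ch ψ 0 i y := by
  by_cases hy : y ∈ (ch i).target
  · have h1 := hk.velComp n M ι ch ha φ ψ hφ hψ 0 ((ch i).symm y) i i
      (by rw [h0']; exact (ch i).map_target hy) (by rw [h0', h0]; exact (ch i).map_target hy)
    simp only [h0, h0'] at h1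
    rw [(ch i).right_inv hy, de8_fderiv_id i hy] at h1
    exact h1
  · simp [mvel, hy]

theorem de8_vel_id (i : ι) (y : Eu n) : mvel ch (fun (_ : ℝ) (x : M) => x) 0 i y = 0 := by
  unfold mvel
  split_ifs
  · exact deriv_const _ _
  · rfl

/-- The velocity of the inverse family. -/
theorem de8_vel_inv (hk : MFamKit) (ha : VolAtlas ch) {C : ℝ → M → M} (hC : MFam ch C)
    (h0 : C 0 = id) (i : ι) (y : Eu n) :
    mvel ch (fun θ => Function.invFun (C θ)) 0 i y = - mvel ch C 0 i y := by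
  have h1 := de8_vel_mul hk ha hC (hk.inv n M ι ch ha ℝ C hC) (fun x => by rw [h0]; rfl)
    (fun x => by rw [h0, de8_invFun_id]; rfl) i y
  have h2 : (fun (t : ℝ) (x : M) => C t (Function.invFun (C t) x)) = fun _ x => x := by
    funext t x
    exact Function.rightInverse_invFun (hC.bij t).surjective x
  rw [h2, de8_vel_id] at h1
  exact (neg_eq_of_add_eq_zero_right h1.symm).symm

/-- The family of the local step. -/
def de8_H (φ C : ℝ → M → M) (q : ℝ × ℝ) (x : M) : M :=
  φ (q.1 + q.2) (Function.invFun (φ q.1) (Function.invFun (C q.2) x))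

theorem de8_H_fam (hk : MFamKit) (ha : VolAtlas ch) {φ C : ℝ → M → M} (hφ : MFam ch φ)
    (hC : MFam ch C) : MFam ch (de8_H φ C) := by
  have h1 : MFam ch (fun q : ℝ × ℝ => φ (q.1 + q.2)) :=
    hk.re n M ι ch ℝ (ℝ × ℝ) φ (fun q => q.1 + q.2) hφ (contDiff_fst.add contDiff_snd)
  have h2 : MFam ch (fun q : ℝ × ℝ => Function.invFun (φ q.1)) :=
    hk.re n M ι ch ℝ (ℝ × ℝ) (fun t => Function.invFun (φ t)) (fun q => q.1)
      (hk.inv n M ι ch ha ℝ φ hφ) contDiff_fst
  have h3 : MFam ch (fun q : ℝ × ℝ => Function.invFun (C q.2)) :=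
    hk.re n M ι ch ℝ (ℝ × ℝ) (fun t => Function.invFun (C t)) (fun q => q.2)
      (hk.inv n M ι ch ha ℝ C hC) contDiff_snd
  exact hk.comp n M ι ch ha (ℝ × ℝ) (fun q => φ (q.1 + q.2))
    (fun q x => Function.invFun (φ q.1) (Function.invFun (C q.2) x)) h1
    (hk.comp n M ι ch ha (ℝ × ℝ) (fun q => Function.invFun (φ q.1))
      (fun q => Function.invFun (C q.2)) h2 h3)

omit [TopologicalSpace M] in
theorem de8_H_zero {φ C : ℝ → M → M} (hφ : ∀ t, Function.Bijective (φ t)) (h0 : C 0 = id)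
    (t : ℝ) : de8_H φ C (t, 0) = id := by
  funext x
  change φ (t + 0) (Function.invFun (φ t) (Function.invFun (C 0) x)) = x
  rw [add_zero, h0, de8_invFun_id]
  exact Function.rightInverse_invFun (hφ t).surjective x

theorem de8_vel (hk : MFamKit) (ha : VolAtlas ch) {φ C : ℝ → M → M} (hφ : MFam ch φ)
    (hC : MFam ch C) (h0 : C 0 = id) (t : ℝ) (i : ι) (y : Eu n) :
    mvel ch (fun θ => de8_H φ C (t, θ)) 0 i y = mvel ch φ t i y - mvel ch C 0 i y := by
  have hφi : Function.Bijective (Function.invFun (φ t)) := (hk.inv n M ι ch ha ℝ φ hφ).bij t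
  have h1 : MFam ch (fun θ : ℝ => φ (t + θ)) :=
    hk.re n M ι ch ℝ ℝ φ (fun θ => t + θ) hφ (contDiff_const.add contDiff_id)
  have h2 : MFam ch (fun _ : ℝ => Function.invFun (φ t)) :=
    hk.re n M ι ch ℝ ℝ (fun t => Function.invFun (φ t)) (fun _ => t)
      (hk.inv n M ι ch ha ℝ φ hφ) contDiff_const
  have h3 : MFam ch (fun (θ : ℝ) (x : M) => φ (t + θ) (Function.invFun (φ t) x)) :=
    hk.comp n M ι ch ha ℝ _ _ h1 h2
  have h4 := de8_vel_mul hk ha h3 (hk.inv n M ι ch ha ℝ C hC)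
    (fun x => by
      rw [add_zero]
      exact Function.rightInverse_invFun (hφ.bij t).surjective x)
    (fun x => by rw [h0, de8_invFun_id]; rfl) i y
  have h5 := hk.velConst n M ι ch (fun θ : ℝ => φ (t + θ)) (Function.invFun (φ t))
    (fun θ => hφ.bij _) hφi 0 i y
  have h6 := hk.velRe n M ι ch ha φ (fun θ => t + θ) hφ 0
    ((differentiableAt_const t).add differentiableAt_id) i y
  have h7 : deriv (fun θ : ℝ => t + θ) 0 = 1 := by
    rw [deriv_const_add]
    exact deriv_id _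
  rw [h7, one_smul, add_zero] at h6
  have h8 : mvel ch (fun θ => de8_H φ C (t, θ)) 0 i y =
      mvel ch (fun (θ : ℝ) (x : M) => φ (t + θ) (Function.invFun (φ t)
        (Function.invFun (C θ) x))) 0 i y := rfl
  rw [h8, h4, h5, h6, de8_vel_inv hk ha hC h0, sub_eq_add_neg]

end

theorem step_l (hE : EKit) (hC : EMcont) : StepL := by
  intro n M _ _ _ _ ι _ ch ha K hK s hs0 hs1 φ C hφ hCf hC0 t₀ η hη hlt
  have hk : MFamKit := mFamKit
  have hH := de8_H_fam hk ha hφ hCf
  have hcont := hC n M ι ch ha K hK s hs0 hs1 (de8_H φ C) hH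
  have hval : EM K s (mvel ch (fun θ => de8_H φ C (t₀, θ)) 0) < ENNReal.ofReal η := by
    have h1 : mvel ch (fun θ => de8_H φ C (t₀, θ)) 0 =
        fun a y => mvel ch φ t₀ a y - mvel ch C 0 a y := by
      funext a y
      exact de8_vel hk ha hφ hCf hC0 t₀ a y
    rw [h1]
    exact hlt
  have hev : ∀ᶠ q : ℝ × ℝ in nhds (t₀, 0),
      EM K s (mvel ch (fun θ => de8_H φ C (q.1, θ)) q.2) < ENNReal.ofReal η :=
    hcont.continuousAt.eventually_lt continuousAt_const hval
  obtain ⟨δ, hδ, hball⟩ := Metric.eventually_nhds_iff.mp hev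
  refine ⟨δ, hδ, fun t ht T hT0 hT => ?_⟩
  have hfam : MFam ch (fun θ : ℝ => de8_H φ C (t, θ)) :=
    hk.re n M ι ch (ℝ × ℝ) ℝ (de8_H φ C) (fun θ => (t, θ)) hH (contDiff_const.prodMk contDiff_id)
  exact hE.path n M ι ch ha K hK s hs0 hs1 (fun θ : ℝ => de8_H φ C (t, θ)) hfam
    (de8_H_zero hφ.bij hC0 t) T η hT0 hη.le (fun θ hθ => (hball (y := (t, θ)) (by
      rw [Prod.dist_eq, Real.dist_eq, Real.dist_eq, sub_zero]
      exact max_lt ht (by rw [abs_of_nonneg hθ.1]; exact hθ.2.trans_lt hT))).le)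

end

end Pool.Agent.H6.ST
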