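import Pool.Agent.H6.ST.DE.Defs
import Pool.Agent.H68.GM.Piola
import Pool.Agent.H68.GM.PushK

/-! # ST-DE2: transfer of potentials from one chart to another -/

set_option autoImplicit false

namespace Pool.Agent.H6.ST

open MeasureTheory Set Pool.Agent.H68.VD Pool.Agent.H68.GM
open scoped ENNReal ContDiff Topology

noncomputable section

namespace DETrA

variable {n : ℕ}

theorem rotJ_apply (a b : Fin n) (v : Eu n) : rotJ a b v = v a • ev b - v b • ev a := rfl

theorem rotJ_skew (a b : Fin n) (v w : Eu n) :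
    inner ℝ (rotJ a b v) w = - inner ℝ v (rotJ a b w) := by
  rw [rotJ_apply, rotJ_apply, inner_sub_left, inner_sub_right, inner_smul_left, inner_smul_left,
    inner_smul_right, inner_smul_right, real_inner_comm (ev b) v, real_inner_comm (ev a) v,
    PiolaA.inner_ev, PiolaA.inner_ev, PiolaA.inner_ev, PiolaA.inner_ev]
  simp
  ring

theorem dv_smul (a b : Fin n) (f : Eu n → ℝ) (hf : ContDiff ℝ ∞ f) (x : Eu n) :
    dv (fun y => f y • rotJ b a) x = jgrad a b f x := by
  have hd : DifferentiableAt ℝ f x := (hf.differentiable (by simp)) x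
  have h1 : ∀ v, fderiv ℝ (fun y => f y • (rotJ b a : Eu n →L[ℝ] Eu n)) x v =
      (fderiv ℝ f x v) • rotJ b a := by
    intro v
    have h0 := (hd.hasFDerivAt.smul_const (rotJ b a : Eu n →L[ℝ] Eu n)).fderiv
    rw [h0]
    simp
  unfold dv jgrad
  simp only [h1]
  have h2 : ∀ j, ((fderiv ℝ f x (ev j)) • (rotJ b a : Eu n →L[ℝ] Eu n)) (ev j) =
      (if b = j then (fderiv ℝ f x (ev j)) • ev a else 0) -
        (if a = j then (fderiv ℝ f x (ev j)) • ev b else 0) := by
    intro j
    have h3 : ∀ c : Fin n, (ev j : Eu n) c = if c = j then (1 : ℝ) else 0 := by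
      intro c
      simp [ev, Pi.single_apply]
    have h4 : (rotJ b a : Eu n →L[ℝ] Eu n) (ev j) =
        (ev j : Eu n) b • ev a - (ev j : Eu n) a • ev b := rfl
    have h5 : ((fderiv ℝ f x (ev j)) • (rotJ b a : Eu n →L[ℝ] Eu n)) (ev j) =
        (fderiv ℝ f x (ev j)) • ((rotJ b a : Eu n →L[ℝ] Eu n) (ev j)) := rfl
    rw [h5, h4, h3, h3]
    split_ifs <;> simp [smul_sub]
  simp only [h2, Finset.sum_sub_distrib, Finset.sum_ite_eq, Finset.mem_univ, if_true]

/-- The matrix field with the potentials `f`. -/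
def Tf (f : Fin n → Fin n → Eu n → ℝ) (y : Eu n) : Eu n →L[ℝ] Eu n :=
  ∑ a, ∑ b, f a b y • rotJ b a

theorem tf_smooth {f : Fin n → Fin n → Eu n → ℝ} (hf : ∀ a b, ContDiff ℝ ∞ (f a b)) :
    ContDiff ℝ ∞ (Tf f) :=
  ContDiff.sum fun a _ => ContDiff.sum fun b _ => (hf a b).smul contDiff_const

theorem tf_skew (f : Fin n → Fin n → Eu n → ℝ) (y v w : Eu n) :
    inner ℝ (Tf f y v) w = - inner ℝ v (Tf f y w) := by
  unfold Tf
  simp only [_root_.sum_apply, _root_.smul_apply, sum_inner, inner_sum,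
    inner_smul_left, inner_smul_right, rotJ_skew, ← Finset.sum_neg_distrib]
  refine Finset.sum_congr rfl fun a _ => Finset.sum_congr rfl fun b _ => ?_
  simp

theorem dv_tf {f : Fin n → Fin n → Eu n → ℝ} (hf : ∀ a b, ContDiff ℝ ∞ (f a b)) (z : Eu n) :
    dv (Tf f) z = ∑ a, ∑ b, jgrad a b (f a b) z := by
  have hdiff : ∀ a b, DifferentiableAt ℝ
      (fun y => f a b y • (rotJ b a : Eu n →L[ℝ] Eu n)) z := fun a b =>
    (((hf a b).smul contDiff_const).differentiable (by simp)) z
  have h1 : fderiv ℝ (Tf f) z =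
      ∑ a, ∑ b, fderiv ℝ (fun y => f a b y • (rotJ b a : Eu n →L[ℝ] Eu n)) z := by
    unfold Tf
    rw [fderiv_fun_sum fun a _ => DifferentiableAt.fun_sum fun b _ => hdiff a b]
    refine Finset.sum_congr rfl fun a _ => ?_
    rw [fderiv_fun_sum fun b _ => hdiff a b]
  unfold dv
  rw [h1]
  simp only [_root_.sum_apply]
  rw [Finset.sum_comm]
  refine Finset.sum_congr rfl fun a _ => ?_
  rw [Finset.sum_comm]
  refine Finset.sum_congr rfl fun b _ => ?_
  exact dv_smul a b (f a b) (hf a b) z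

/-- A skew matrix in terms of the elementary skew matrices. -/
theorem skew_eq (A : Eu n →L[ℝ] Eu n) (hA : ∀ a b, inner ℝ (A a) b = - inner ℝ a (A b)) :
    A = ∑ a, ∑ b, ((1 / 2) * inner ℝ (ev a) (A (ev b))) • rotJ b a := by
  have ht : ∀ a b : Fin n, (inner ℝ (ev a) (A (ev b)) : ℝ) = - inner ℝ (ev b) (A (ev a)) := by
    intro a b
    rw [real_inner_comm, hA]
  ext v c
  have h1 : (A v) c = ∑ b, v b * inner ℝ (ev c) (A (ev b)) := by
    rw [← PiolaA.inner_ev (A v) c]
    conv_lhs => rw [← PiolaA.sum_ev v]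
    rw [map_sum, inner_sum]
    refine Finset.sum_congr rfl fun b _ => ?_
    rw [map_smul, inner_smul_right, PiolaA.inner_ev]
  have h3 : ∀ a : Fin n, (ev a : Eu n) c = if c = a then (1 : ℝ) else 0 := by
    intro a
    simp [ev, Pi.single_apply]
  have h2 : ((∑ a, ∑ b, ((1 / 2) * inner ℝ (ev a) (A (ev b))) • (rotJ b a : Eu n →L[ℝ] Eu n)) v) c =
      ∑ a, ∑ b, ((1 / 2) * inner ℝ (ev a) (A (ev b))) * (v b * (if c = a then (1 : ℝ) else 0) -
        v a * (if c = b then (1 : ℝ) else 0)) := by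
    simp only [_root_.sum_apply, _root_.smul_apply]
    rw [← PiolaA.inner_ev, inner_sum]
    refine Finset.sum_congr rfl fun a _ => ?_
    rw [inner_sum]
    refine Finset.sum_congr rfl fun b _ => ?_
    rw [inner_smul_right, rotJ_apply, inner_sub_right, inner_smul_right, inner_smul_right,
      PiolaA.inner_ev (ev a) c, PiolaA.inner_ev (ev b) c, h3, h3]
  rw [h1, h2]
  have h4 : ∑ a, ∑ b, ((1 / 2) * inner ℝ (ev a) (A (ev b))) *
      (v b * (if c = a then (1 : ℝ) else 0) - v a * (if c = b then (1 : ℝ) else 0)) =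
      (∑ a, ∑ b, if c = a then (1 / 2) * inner ℝ (ev a) (A (ev b)) * v b else 0) -
        ∑ a, ∑ b, if c = b then (1 / 2) * inner ℝ (ev a) (A (ev b)) * v a else 0 := by
    rw [← Finset.sum_sub_distrib]
    refine Finset.sum_congr rfl fun a _ => ?_
    rw [← Finset.sum_sub_distrib]
    refine Finset.sum_congr rfl fun b _ => ?_
    split_ifs <;> ring
  have h5 : (∑ a, ∑ b, if c = a then (1 / 2) * (inner ℝ (ev a) (A (ev b)) : ℝ) * v b else 0) =
      ∑ b, (1 / 2) * (inner ℝ (ev c) (A (ev b)) : ℝ) * v b := by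
    rw [Finset.sum_comm]
    refine Finset.sum_congr rfl fun b _ => ?_
    rw [Finset.sum_ite_eq]
    simp
  have h6 : (∑ a, ∑ b, if c = b then (1 / 2) * (inner ℝ (ev a) (A (ev b)) : ℝ) * v a else 0) =
      ∑ a, (1 / 2) * (inner ℝ (ev a) (A (ev c)) : ℝ) * v a := by
    refine Finset.sum_congr rfl fun a _ => ?_
    rw [Finset.sum_ite_eq]
    simp
  rw [h4, h5, h6, ← Finset.sum_sub_distrib]
  refine Finset.sum_congr rfl fun b _ => ?_
  rw [ht b c]
  ring

theorem dv_congr {S T : Eu n → (Eu n →L[ℝ] Eu n)} {y : Eu n} (h : S =ᶠ[𝓝 y] T) :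
    dv S y = dv T y := by
  unfold dv
  rw [h.fderiv_eq]

theorem dv_zero {T : Eu n → (Eu n →L[ℝ] Eu n)} {y : Eu n} (h : T =ᶠ[𝓝 y] fun _ => 0) :
    dv T y = 0 := by
  rw [dv_congr h]
  unfold dv
  simp

variable {M : Type} [TopologicalSpace M] {ι : Type}

open Classical in
/-- The transferred matrix field. -/
def Tt (ch : ι → OpenPartialHomeomorph M (Eu n)) (i o : ι) (T : Eu n → (Eu n →L[ℝ] Eu n))
    (y : Eu n) : Eu n →L[ℝ] Eu n :=
  if y ∈ dom ch o i then (fderiv ℝ (tr ch i o) (tr ch o i y)) ∘L T (tr ch o i y) ∘L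
    (ContinuousLinearMap.adjoint (fderiv ℝ (tr ch i o) (tr ch o i y))) else 0

theorem tt_eq (ch : ι → OpenPartialHomeomorph M (Eu n)) (i o : ι)
    (T : Eu n → (Eu n →L[ℝ] Eu n)) {y : Eu n} (hy : y ∈ dom ch o i) :
    Tt ch i o T y = (fderiv ℝ (tr ch i o) (tr ch o i y)) ∘L T (tr ch o i y) ∘L
    (ContinuousLinearMap.adjoint (fderiv ℝ (tr ch i o) (tr ch o i y))) := by
  unfold Tt
  rw [if_pos hy]

theorem transfer {ch : ι → OpenPartialHomeomorph M (Eu n)} (hA : VolAtlas ch) (i o : ι)
    (T : Eu n → (Eu n →L[ℝ] Eu n)) (hT : ContDiff ℝ ∞ T)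
    (hskew : ∀ y a b, inner ℝ (T y a) b = - inner ℝ a (T y b)) (K : Set (Eu n))
    (hK : IsCompact K) (hKd : K ⊆ dom ch i o) (hKT : ∀ y ∉ K, T y = 0) :
    ∃ K' : Set (Eu n), IsCompact K' ∧ K' ⊆ dom ch o i ∧ ContDiff ℝ ∞ (Tt ch i o T) ∧
      (∀ y ∉ K', Tt ch i o T y = 0) ∧
      (∀ y a b, inner ℝ (Tt ch i o T y a) b = - inner ℝ a (Tt ch i o T y b)) ∧
      (∀ y ∉ K', dv (Tt ch i o T) y = 0) ∧
      ∀ y ∈ dom ch o i, dv (Tt ch i o T) y = fderiv ℝ (tr ch i o) (tr ch o i y)
        (dv T (tr ch o i y)) := by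
  have hopo := PushKA.isOpen_dom ch o i
  have hopi := PushKA.isOpen_dom ch i o
  set K' := tr ch i o '' K with hK'
  have hK'c : IsCompact K' := hK.image_of_continuousOn ((hA.smooth i o).continuousOn.mono hKd)
  have hK'd : K' ⊆ dom ch o i := by
    rintro _ ⟨x, hx, rfl⟩
    exact PushKA.tr_mem ch (hKd hx)
  have hback : ∀ y ∈ dom ch o i, tr ch i o (tr ch o i y) = y := by
    intro y hy
    rw [PushKA.tr_tr ch o hy]
    exact PushKA.tr_self ch hy.1
  have hzero : ∀ y ∉ K', Tt ch i o T y = 0 := by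
    intro y hy
    by_cases hd : y ∈ dom ch o i
    · rw [tt_eq ch i o T hd]
      have h1 : tr ch o i y ∉ K := by
        intro h
        apply hy
        exact ⟨_, h, hback y hd⟩
      rw [hKT _ h1]
      simp
    · unfold Tt
      rw [if_neg hd]
  have hev0 : ∀ y ∉ K', Tt ch i o T =ᶠ[𝓝 y] fun _ => 0 := by
    intro y hy
    filter_upwards [hK'c.isClosed.isOpen_compl.mem_nhds hy] with z hz
    exact hzero z hz
  have hevd : ∀ y ∈ dom ch o i, Tt ch i o T =ᶠ[𝓝 y] fun y =>
      (fderiv ℝ (tr ch i o) (tr ch o i y)) ∘L T (tr ch o i y) ∘L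
      (ContinuousLinearMap.adjoint (fderiv ℝ (tr ch i o) (tr ch o i y))) := by
    intro y hy
    filter_upwards [hopo.mem_nhds hy] with z hz
    exact tt_eq ch i o T hz
  refine ⟨K', hK'c, hK'd, ?_, hzero, ?_, fun y hy => dv_zero (hev0 y hy), ?_⟩
  · rw [contDiff_iff_contDiffAt]
    intro y
    by_cases hy : y ∈ K'
    · have hd := hK'd hy
      have h1 : ContDiffAt ℝ ∞ (fun y => fderiv ℝ (tr ch i o) (tr ch o i y)) y :=
        (PushKA.smooth_fd hA i o).contDiffAt (hopo.mem_nhds hd)
      have h2 : ContDiffAt ℝ ∞ (fun y => T (tr ch o i y)) y :=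
        hT.contDiffAt.comp y ((hA.smooth o i).contDiffAt (hopo.mem_nhds hd))
      have h3 : ContDiffAt ℝ ∞ (fun y =>
          ContinuousLinearMap.adjoint (fderiv ℝ (tr ch i o) (tr ch o i y))) y :=
        (PiolaA.adjL n).contDiff.contDiffAt.comp y h1
      exact (h1.clm_comp (h2.clm_comp h3)).congr_of_eventuallyEq (hevd y hd)
    · exact contDiffAt_const.congr_of_eventuallyEq (hev0 y hy)
  · intro y a b
    by_cases hd : y ∈ dom ch o i
    · rw [tt_eq ch i o T hd]
      simp only [ContinuousLinearMap.comp_apply]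
      set B := fderiv ℝ (tr ch i o) (tr ch o i y)
      set W := T (tr ch o i y) with hW
      have e1 : inner ℝ (B (W (ContinuousLinearMap.adjoint B a))) b =
          inner ℝ (W (ContinuousLinearMap.adjoint B a)) (ContinuousLinearMap.adjoint B b) :=
        (ContinuousLinearMap.adjoint_inner_right B _ _).symm
      have e2 : inner ℝ (ContinuousLinearMap.adjoint B a) (W (ContinuousLinearMap.adjoint B b)) =
          inner ℝ a (B (W (ContinuousLinearMap.adjoint B b))) :=
        ContinuousLinearMap.adjoint_inner_left B _ _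
      rw [e1, hW, hskew, ← hW, e2]
    · unfold Tt
      rw [if_neg hd]
      simp
  · intro y hy
    rw [dv_congr (hevd y hy)]
    exact piola n (dom ch i o) (dom ch o i) hopi hopo (tr ch i o) (tr ch o i) (hA.smooth i o)
      (hA.smooth o i) (fun y hy => PushKA.tr_mem ch hy) hback (hA.det i o) T hT hskew y hy

end DETrA

open DETrA in
theorem de_tr : DETr := by
  intro M _ _ ι ch hA i o f hf
  have hfs : ∀ a b, ContDiff ℝ ∞ (f a b) := fun a b => (hf a b).1
  choose Kf hKf1 hKf2 hKf3 using fun a b => (hf a b).2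
  set K : Set (Eu 4) := ⋃ a, ⋃ b, Kf a b with hK
  have hKc : IsCompact K := isCompact_iUnion fun a => isCompact_iUnion fun b => hKf1 a b
  have hKd : K ⊆ dom ch i o := Set.iUnion_subset fun a => Set.iUnion_subset fun b => hKf2 a b
  have hKT : ∀ y ∉ K, Tf f y = 0 := by
    intro y hy
    simp only [hK, Set.mem_iUnion, not_exists] at hy
    unfold Tf
    refine Finset.sum_eq_zero fun a _ => Finset.sum_eq_zero fun b _ => ?_
    rw [hKf3 a b y (hy a b)]
    ext z
    simp
  obtain ⟨K', hK'1, hK'2, hT's, hT'0, hT'k, hdv0, hdv⟩ :=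
    transfer hA i o (Tf f) (tf_smooth hfs) (tf_skew f) K hKc hKd hKT
  set T' := Tt ch i o (Tf f) with hT'
  set g : Fin 4 → Fin 4 → Eu 4 → ℝ := fun a b y => (1 / 2) * inner ℝ (ev a) (T' y (ev b)) with hg
  have hgs : ∀ a b, ContDiff ℝ ∞ (g a b) := fun a b =>
    contDiff_const.mul (contDiff_const.inner ℝ (hT's.clm_apply contDiff_const))
  have hTg : T' = Tf g := by
    funext y
    exact skew_eq (T' y) (hT'k y)
  refine ⟨g, fun a b => ⟨hgs a b, K', hK'1, fun y hy => (hK'2 hy).1, fun y hy => ?_⟩, ?_⟩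
  · rw [hg]
    simp only
    rw [hT'0 y hy]
    simp
  · intro j y
    have e1 : (fun z => ∑ a, ∑ b, jgrad a b (f a b) z) = dv (Tf f) := by
      funext z
      exact (dv_tf hfs z).symm
    have e2 : (fun z => ∑ a, ∑ b, jgrad a b (g a b) z) = dv T' := by
      funext z
      rw [hTg]
      exact (dv_tf hgs z).symm
    rw [e1, e2]
    have hdvK : ∀ z ∉ K, dv (Tf f) z = 0 := by
      intro z hz
      apply dv_zero
      filter_upwards [hKc.isClosed.isOpen_compl.mem_nhds hz] with w hw
      exact hKT w hw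
    by_cases h1 : y ∈ dom ch j i
    · have hw : tr ch j i y ∈ dom ch i j := PushKA.tr_mem ch h1
      have hsy : (ch i).symm (tr ch j i y) = (ch j).symm y := (ch i).left_inv h1.2
      by_cases h2 : y ∈ dom ch j o
      · rw [PushKA.push_eq ch _ h1, PushKA.push_eq ch _ h2]
        have hwo : tr ch j i y ∈ dom ch i o := by
          refine ⟨hw.1, ?_⟩
          rw [hsy]
          exact h2.2
        have hkw : tr ch i o (tr ch j i y) = tr ch j o y := PushKA.tr_tr ch o h1
        have hw' : tr ch j o y ∈ dom ch o i := by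
          rw [← hkw]
          exact PushKA.tr_mem ch hwo
        have hback : tr ch o i (tr ch j o y) = tr ch j i y := PushKA.tr_tr ch i h2
        rw [hdv _ hw', hback, PushKA.chain hA hwo hw, hkw]
        rfl
      · rw [PushKA.push_eq ch _ h1]
        have hz : tr ch j i y ∉ K := by
          intro h
          apply h2
          refine ⟨h1.1, ?_⟩
          have := (hKd h).2
          rw [hsy] at this
          exact this
        rw [hdvK _ hz, map_zero]
        unfold push
        rw [if_neg h2]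
    · by_cases h2 : y ∈ dom ch j o
      · rw [PushKA.push_eq ch _ h2]
        have hsy : (ch o).symm (tr ch j o y) = (ch j).symm y := (ch o).left_inv h2.2
        have hz : tr ch j o y ∉ K' := by
          intro h
          apply h1
          refine ⟨h2.1, ?_⟩
          have := (hK'2 h).2
          rw [hsy] at this
          exact this
        rw [hdv0 _ hz, map_zero]
        unfold push
        rw [if_neg h1]
      · unfold push
        rw [if_neg h1, if_neg h2]

end

end Pool.Agent.H6.ST
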