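import Pool.Agent.H6.ST.St
import Pool.Agent.H6.ST.LP.Defs

/-! # The sharp trichotomy (ST): density, definitions and statements -/

namespace Pool.Agent.H6.ST

open MeasureTheory Set Pool.Agent.H68.VD Pool.Agent.H68.GM
open scoped ENNReal ContDiff

noncomputable section

/-- The union of the two coordinate planes `y_0 = y_1 = 0` and `y_2 = y_3 = 0`. -/
def PL : Set (Eu 4) := {y | (y 0 = 0 ∧ y 1 = 0) ∨ (y 2 = 0 ∧ y 3 = 0)}

/-- Cut-off of a potential near the planes: the error is small in `L^1` and bounded in `W^{1,1}`. -/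
def DECut : Prop := ∀ (V : Set (Eu 4)), IsOpen V → ∀ f : Eu 4 → ℝ, TestIn V f →
  ∃ (K : Set (Eu 4)) (C : ℝ), IsCompact K ∧ K ⊆ V ∧ 0 ≤ C ∧ ∀ η : ℝ, 0 < η →
  ∃ f' : Eu 4 → ℝ, TestIn (V \ PL) f' ∧ (∀ y ∉ K, f y - f' y = 0) ∧ ∀ a b : Fin 4,
    (∫⁻ y, ‖jgrad a b f y - jgrad a b f' y‖ₑ) ≤ ENNReal.ofReal η ∧
    (∫⁻ y, ‖fderiv ℝ (fun y => jgrad a b f y - jgrad a b f' y) y‖ₑ) ≤ ENNReal.ofReal C

/-- Potentials supported in the intersection of two charts can be transferred. -/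
def DETr : Prop := ∀ (M : Type) [TopologicalSpace M] [T2Space M] (ι : Type)
  (ch : ι → OpenPartialHomeomorph M (Eu 4)), VolAtlas ch → ∀ (i o : ι)
  (f : Fin 4 → Fin 4 → Eu 4 → ℝ), (∀ a b, TestIn (dom ch i o) (f a b)) →
  ∃ g : Fin 4 → Fin 4 → Eu 4 → ℝ, (∀ a b, TestIn (ch o).target (g a b)) ∧
    ∀ j y, push ch i (fun z => ∑ a, ∑ b, jgrad a b (f a b) z) j y =
      push ch o (fun z => ∑ a, ∑ b, jgrad a b (g a b) z) j y

/-- Approximation by sums of product functions, with two derivatives. -/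
def DEProd : Prop := ∀ g : Eu 4 → ℝ, TestIn (obox (fun _ => 0) (fun _ => 1)) g →
  ∃ lo hi : Fin 4 → ℝ, (∀ k, 0 < lo k ∧ lo k < hi k ∧ hi k < 1) ∧ ∀ η : ℝ, 0 < η →
  ∃ (m : ℕ) (b : Fin m → Fin 4 → ℝ → ℝ), (∀ k l, ContDiff ℝ ∞ (b k l)) ∧
    (∀ k l t, b k l t ≠ 0 → lo l ≤ t ∧ t ≤ hi l) ∧
    ∀ x, ‖g x - ∑ k, ∏ l, b k l (x l)‖ ≤ η ∧
      ‖fderiv ℝ (fun x : Eu 4 => g x - ∑ k, ∏ l, b k l (x l)) x‖ ≤ η ∧
      ‖fderiv ℝ (fderiv ℝ (fun x : Eu 4 => g x - ∑ k, ∏ l, b k l (x l))) x‖ ≤ η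

/-- Skew gradients of product functions are approximated by velocities of commutators. -/
def DEGen : Prop := ∀ (i j : Fin 4), i ≠ j → ∀ (b : Fin 4 → ℝ → ℝ) (lo hi : Fin 4 → ℝ),
  (∀ l, ContDiff ℝ ∞ (b l)) → (∀ k, 0 < lo k ∧ lo k < hi k ∧ hi k < 1) →
  (∀ l t, b l t ≠ 0 → lo l ≤ t ∧ t ≤ hi l) → ∀ η : ℝ, 0 < η →
  ∃ (m : ℕ) (f g : Eu 4 → ℝ), GU i j f g ∧ ContDiff ℝ ∞ (vfg i j f g) ∧
    (∀ x, vfg i j f g x ≠ 0 → ∀ k, lo k / 2 ≤ x k ∧ x k ≤ (1 + hi k) / 2) ∧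
    ∀ x, ‖jgrad i j (fun x => ∏ l, b l (x l)) x - (m : ℝ) • vfg i j f g x‖ ≤ η ∧
      ‖fderiv ℝ (fun x => jgrad i j (fun x => ∏ l, b l (x l)) x - (m : ℝ) • vfg i j f g x) x‖ ≤ η

/-- Norms of fields supported in a compact subset of a chart. -/
def PushB : Prop := ∀ (n : ℕ) (M : Type) [TopologicalSpace M] [T2Space M] [CompactSpace M]
  [Nonempty M] (ι : Type) [Fintype ι] (ch : ι → OpenPartialHomeomorph M (Eu n)), VolAtlas ch →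
  ∀ K, KCov ch K → ∀ (i : ι) (K' : Set (Eu n)), IsCompact K' → K' ⊆ (ch i).target →
  ∃ C : ℝ, 0 ≤ C ∧ ∀ u : Eu n → Eu n, ContDiff ℝ ∞ u → (∀ y ∉ K', u y = 0) →
    L1M K (push ch i u) ≤ ENNReal.ofReal C * (∫⁻ y, ‖u y‖ₑ) ∧
    W1M K (push ch i u) ≤ ENNReal.ofReal C * ((∫⁻ y, ‖u y‖ₑ) + (∫⁻ y, ‖fderiv ℝ u y‖ₑ))

/-- The cost functional is continuous on smooth families. -/
def EMcont : Prop := ∀ (n : ℕ) (M : Type) [TopologicalSpace M] [T2Space M] [CompactSpace M]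
  [Nonempty M] (ι : Type) [Fintype ι] (ch : ι → OpenPartialHomeomorph M (Eu n)), VolAtlas ch →
  ∀ K, KCov ch K → ∀ s : ℝ, 0 ≤ s → s < 1 → ∀ H : ℝ × ℝ → M → M, MFam ch H →
  Continuous (fun q : ℝ × ℝ => EM K s (mvel ch (fun θ => H (q.1, θ)) q.2))

/-- Products of commutators with prescribed initial velocity. -/
def GenFam : Prop := ∀ (M : Type) [TopologicalSpace M] [T2Space M] [CompactSpace M] [Nonempty M]
  (ι : Type) [Fintype ι] (ch : ι → OpenPartialHomeomorph M (Eu 4)) (o : ι) (K : ι → Set (Eu 4)),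
  Geo ch o K → ∀ (m : ℕ) (i j : Fin m → Fin 4) (f g : Fin m → Eu 4 → ℝ),
  (∀ k, GU (i k) (j k) (f k) (g k)) → ∃ C : ℝ → M → M, MFam ch C ∧ C 0 = id ∧
    (∀ a y, mvel ch C 0 a y = ∑ k, push ch o (vfg (i k) (j k) (f k) (g k)) a y) ∧
    ∀ P : (M → M) → Prop, (∀ f g, P f → P g → P (fun x => f (g x))) →
      (∀ i j f g, GU i j f g → P (extM ch o (comm i j f g))) → ∀ t, P (C t)

/-- The local step. -/
def StepL : Prop := ∀ (n : ℕ) (M : Type) [TopologicalSpace M] [T2Space M] [CompactSpace M]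
  [Nonempty M] (ι : Type) [Fintype ι] (ch : ι → OpenPartialHomeomorph M (Eu n)), VolAtlas ch →
  ∀ K, KCov ch K → ∀ s : ℝ, 0 ≤ s → s < 1 → ∀ φ C : ℝ → M → M, MFam ch φ → MFam ch C →
  C 0 = id → ∀ (t₀ η : ℝ), 0 < η →
  EM K s (fun a y => mvel ch φ t₀ a y - mvel ch C 0 a y) < ENNReal.ofReal η →
  ∃ δ : ℝ, 0 < δ ∧ ∀ t, |t - t₀| < δ → ∀ T, 0 ≤ T → T < δ →
    MCost ch (EM K s) (fun x => φ (t + T) (Function.invFun (φ t) (Function.invFun (C T) x))) (η * T)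

end

end Pool.Agent.H6.ST
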